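import Pool.Agent.Lib.MP_7beb49_co_gs.GSDefs

/-!
# SpecPsd (module SpecPsd, 45 min): spectral representation for positive semidefinite matrices

Copy the proof of `Walk.exists_spec` (Pool/Agent/Lib/MP_7beb49_co/Spec.lean): `q i = e i ⬝ᵥ (K *ᵥ e i)`,
nonnegative because `K` is positive semidefinite; the trace formula for `P ^ k` as there, then linearity in the
polynomial (`Polynomial.induction_on'` or `Polynomial.sum_monomial`; both sides are additive, on monomials it is the
trace formula). Last claim: an eigenvector `e i` with `lam i = 1` is constant (Dirichlet form, as in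
`exists_spec`, then the hypothesis), so `e i = ± 1/√n`, `q i = (∑ x, ∑ y, K x y) / n`, and there is at most
one such `i` (orthonormality: two different constant unit vectors are not orthogonal). The sum over all entries is `≥ 0`
(positive semidefinite, vector of ones).
-/

set_option autoImplicit false
set_option linter.unusedSectionVars false

namespace Pool.Agent.Lib.MP_7beb49_co.GS

open Finset Matrix Walk LogRank Polynomial

variable {V : Type} [Fintype V] [DecidableEq V]

theorem specPsd_quad {K : Matrix V V ℝ} (hK : K.PosSemidef) (g : V → ℝ) :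
    0 ≤ g ⬝ᵥ (K *ᵥ g) := by
  have h := hK.dotProduct_mulVec_nonneg g
  simpa using h

theorem specPsd_const {K : Matrix V V ℝ} (c : ℝ) :
    (fun _ : V => c) ⬝ᵥ (K *ᵥ (fun _ : V => c)) = c ^ 2 * ∑ x, ∑ y, K x y := by
  simp only [dotProduct, mulVec, Finset.mul_sum]
  refine Finset.sum_congr rfl fun x _ => Finset.sum_congr rfl fun y _ => ?_
  ring

theorem spec_psd {W K : Matrix V V ℝ} (hW : IsWalk W) (hK : K.PosSemidef) :
    ∃ lam q : V → ℝ, (∀ i, 0 ≤ lam i) ∧ (∀ i, lam i ≤ 1) ∧ (∀ i, 0 ≤ q i) ∧
      (∀ p : ℝ[X], (K * aeval (lazy W) p).trace = ∑ i, q i * p.eval (lam i)) ∧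
      ((∀ g : V → ℝ, (∀ y b, W y b ≠ 0 → g y = g b) → ∀ u v, g u = g v) →
        ∑ i, (if lam i = 1 then q i else 0) ≤ (∑ x, ∑ y, K x y) / Fintype.card V) := by
  set P := lazy W with hPdef
  have hP := lazy_isWalk hW
  have hH : P.IsHermitian := by
    ext x y
    rw [conjTranspose_apply, star_trivial]
    exact hP.symm y x
  set e : V → V → ℝ := fun i => ⇑(hH.eigenvectorBasis i) with he
  set lam : V → ℝ := hH.eigenvalues with hlam
  have hPe : ∀ i, P *ᵥ e i = lam i • e i := fun i => hH.mulVec_eigenvectorBasis i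
  have hunit : ∀ i, e i ⬝ᵥ e i = 1 := by
    intro i
    have h1 := hH.eigenvectorBasis.orthonormal.1 i
    have h2 : ‖hH.eigenvectorBasis i‖ ^ 2 = 1 := by rw [h1]; norm_num
    rw [EuclideanSpace.real_norm_sq_eq] at h2
    rw [dotProduct, ← h2]
    exact Finset.sum_congr rfl fun x _ => by simp only [he]; ring
  have horth : ∀ i j, i ≠ j → e i ⬝ᵥ e j = 0 := by
    intro i j hij
    have h1 : inner ℝ (hH.eigenvectorBasis i) (hH.eigenvectorBasis j) = 0 :=
      hH.eigenvectorBasis.orthonormal.2 hij
    rw [EuclideanSpace.inner_eq_star_dotProduct] at h1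
    simpa [he, dotProduct_comm] using h1
  have hWe : ∀ i, W *ᵥ e i = (2 * lam i - 1) • e i := by
    intro i
    ext y
    have h1 := congrFun (hPe i) y
    rw [hPdef, lazy_mulVec] at h1
    simp only [Pi.smul_apply, smul_eq_mul] at h1 ⊢
    linarith
  have hunit' : ∀ i, ∑ y, e i y * e i y = 1 := hunit
  have hdW : ∀ i, ∑ y, e i y * (W *ᵥ e i) y = 2 * lam i - 1 := by
    intro i
    have h1 : ∀ y, e i y * (W *ᵥ e i) y = (2 * lam i - 1) * (e i y * e i y) := by
      intro y
      rw [hWe i]
      simp only [Pi.smul_apply, smul_eq_mul]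
      ring
    rw [Finset.sum_congr rfl fun y _ => h1 y, ← Finset.mul_sum, hunit' i, mul_one]
  have hlam0 : ∀ i, 0 ≤ lam i := by
    intro i
    have h1 := dirichlet hW (e i) 1 (by norm_num)
    rw [hdW i, hunit' i] at h1
    have h2 : 0 ≤ ∑ y, ∑ b, W y b * (e i y + 1 * e i b) ^ 2 :=
      Finset.sum_nonneg fun y _ => Finset.sum_nonneg fun b _ =>
        mul_nonneg (hW.nonneg y b) (sq_nonneg _)
    linarith
  have hlam1 : ∀ i, lam i ≤ 1 := by
    intro i
    have h1 := dirichlet hW (e i) (-1) (by norm_num)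
    rw [hdW i, hunit' i] at h1
    have h2 : 0 ≤ ∑ y, ∑ b, W y b * (e i y + -1 * e i b) ^ 2 :=
      Finset.sum_nonneg fun y _ => Finset.sum_nonneg fun b _ =>
        mul_nonneg (hW.nonneg y b) (sq_nonneg _)
    linarith
  have hpow : ∀ k i, P ^ k *ᵥ e i = lam i ^ k • e i := by
    intro k i
    induction k with
    | zero => simp
    | succ k ih =>
      rw [pow_succ, ← mulVec_mulVec, hPe, mulVec_smul, ih, smul_smul, pow_succ, mul_comm]
  have htr : ∀ k : ℕ, (K * P ^ k).trace = ∑ i, (e i ⬝ᵥ (K *ᵥ e i)) * lam i ^ k := by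
    intro k
    set U : Matrix V V ℝ := (hH.eigenvectorUnitary : Matrix V V ℝ) with hU
    have hUU : U * U.transpose = 1 := by
      have := (Unitary.mem_iff.1 hH.eigenvectorUnitary.2).2
      simpa [hU, star_eq_conjTranspose, conjTranspose_eq_transpose_of_trivial] using this
    have h1 : (K * P ^ k).trace = (U.transpose * (K * P ^ k) * U).trace := by
      rw [Matrix.trace_mul_comm (U.transpose * (K * P ^ k)) U, ← Matrix.mul_assoc, hUU,
        Matrix.one_mul]
    rw [h1, Matrix.trace]
    refine Finset.sum_congr rfl fun i _ => ?_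
    rw [Matrix.diag_apply, Matrix.mul_assoc, Matrix.mul_apply]
    have h2 : ∀ x, ((K * P ^ k) * U) x i = lam i ^ k * (K *ᵥ e i) x := by
      intro x
      have h3 : ((K * P ^ k) * U) x i = ((K * P ^ k) *ᵥ e i) x := by
        rw [Matrix.mul_apply]
        rfl
      rw [h3, ← mulVec_mulVec, hpow, mulVec_smul]
      rfl
    change _ = (∑ x, e i x * (K *ᵥ e i) x) * lam i ^ k
    rw [Finset.sum_mul]
    refine Finset.sum_congr rfl fun x _ => ?_
    rw [h2, transpose_apply]
    have h4 : U x i = e i x := rfl
    rw [h4]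
    ring
  have hq0 : ∀ i, 0 ≤ e i ⬝ᵥ (K *ᵥ e i) := fun i => specPsd_quad hK (e i)
  refine ⟨lam, fun i => e i ⬝ᵥ (K *ᵥ e i), hlam0, hlam1, hq0, ?_, ?_⟩
  · intro p
    induction p using Polynomial.induction_on' with
    | add p r hp hr =>
      rw [map_add, Matrix.mul_add, Matrix.trace_add, hp, hr, ← Finset.sum_add_distrib]
      refine Finset.sum_congr rfl fun i _ => ?_
      rw [Polynomial.eval_add]
      ring
    | monomial k a =>
      rw [Polynomial.aeval_monomial, ← Algebra.smul_def, Matrix.mul_smul, Matrix.trace_smul, htr k,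
        smul_eq_mul, Finset.mul_sum]
      refine Finset.sum_congr rfl fun i _ => ?_
      rw [Polynomial.eval_monomial]
      ring
  · intro hfix
    have hone : ∀ i, lam i = 1 → ∃ c : ℝ, (e i = fun _ => c) ∧ (Fintype.card V : ℝ) * c ^ 2 = 1 := by
      intro i hi
      have hcon : ∀ y b, W y b ≠ 0 → e i y = e i b := by
        intro y b hyb
        have h1 := dirichlet hW (e i) (-1) (by norm_num)
        rw [hdW i, hunit' i, hi] at h1
        have h0 : ∀ y' ∈ univ, 0 ≤ ∑ b, W y' b * (e i y' + -1 * e i b) ^ 2 := fun y' _ =>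
          Finset.sum_nonneg fun b _ => mul_nonneg (hW.nonneg y' b) (sq_nonneg _)
        have h2 : ∑ y, ∑ b, W y b * (e i y + -1 * e i b) ^ 2 = 0 := by rw [h1]; ring
        have h3 := (Finset.sum_eq_zero_iff_of_nonneg h0).1 h2 y (mem_univ _)
        have h4 := (Finset.sum_eq_zero_iff_of_nonneg (fun b _ =>
          mul_nonneg (hW.nonneg y b) (sq_nonneg _))).1 h3 b (mem_univ _)
        have h5 := (mul_eq_zero.1 h4).resolve_left hyb
        have h6 := pow_eq_zero_iff (two_ne_zero) |>.1 h5
        linarith
      have hc := hfix (e i) hcon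
      refine ⟨e i i, funext fun x => hc x i, ?_⟩
      have h7 := hunit' i
      rw [Finset.sum_congr rfl fun y _ => (by rw [hc y i] : e i y * e i y = e i i * e i i),
        Finset.sum_const, nsmul_eq_mul, Finset.card_univ] at h7
      rw [← h7]
      ring
    by_cases hex : ∃ i, lam i = 1
    · obtain ⟨i, hi⟩ := hex
      obtain ⟨c, hc, hc1⟩ := hone i hi
      have hcard : (0 : ℝ) < Fintype.card V := by
        have : 0 < Fintype.card V := Fintype.card_pos_iff.2 ⟨i⟩
        exact_mod_cast this
      have huniq : ∀ j, j ≠ i → lam j ≠ 1 := by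
        intro j hj hj1
        obtain ⟨d, hd, hd1⟩ := hone j hj1
        have h8 := horth j i hj
        rw [hc, hd] at h8
        simp only [dotProduct, Finset.sum_const, nsmul_eq_mul, Finset.card_univ] at h8
        have h9 : d * c = 0 := by
          rcases mul_eq_zero.1 h8 with h | h
          · exact absurd h hcard.ne'
          · exact h
        rcases mul_eq_zero.1 h9 with h | h
        · rw [h] at hd1; norm_num at hd1
        · rw [h] at hc1; norm_num at hc1
      rw [Finset.sum_eq_single i (fun j _ hj => if_neg (huniq j hj))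
        (fun h => absurd (mem_univ _) h), if_pos hi, hc, specPsd_const, le_div_iff₀ hcard]
      have : c ^ 2 * (∑ x, ∑ y, K x y) * (Fintype.card V : ℝ) =
          (Fintype.card V : ℝ) * c ^ 2 * ∑ x, ∑ y, K x y := by ring
      rw [this, hc1, one_mul]
    · push Not at hex
      rw [Finset.sum_eq_zero fun i _ => if_neg (hex i)]
      refine div_nonneg ?_ (Nat.cast_nonneg _)
      have h10 := specPsd_quad hK (fun _ => (1 : ℝ))
      rw [specPsd_const] at h10
      linarith

end Pool.Agent.Lib.MP_7beb49_co.GS
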