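import Pool.Agent.Lib.MP_7beb49_co_gs.Psd
import Pool.Agent.Lib.MP_7beb49_co_gs.SpecPsd

/-!
# Avg (module Avg, 60 min): the mean of `K p(P)` over a colour where `K` is nearly one

`P = lazy (W c (c a b))`, `B = W c (c x y)`, `G = p(P)` (symmetric). Write `K = Fᵀ F`. Since `1 - B ≥ 0` and `1 + B ≥ 0` (`Walk.dirichlet`
with `σ = ∓ 1`), `tr (F (G/4 - 1) (1 - B) (G/4 - 1) Fᵀ) ≥ 0`, i.e. (all traces divided by `n`, symmetric matrices, cyclicity)
`(1/16) tr (K G (1 - B) G) - (1/2) tr (K G (1 - B)) + tr (K (1 - B)) ≥ 0`. And `tr (K G (1 - B) G) ≤ 2 tr (K G²) ≤ 2 tr (K G)` (`1 + B ≥ 0`;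
`spec_psd` with `0 ≤ p² ≤ p` on `[0,1]`). So `tr (K G (1 - B))/n ≤ (1/4) mo K P p + 2 tr (K (1 - B))/n`, and
`tr (K (1 - B))/n = 1 - K x y ≤ η` (diagonal entries of `K` are `1`; the entries of `K` on the constituent are `K x y`: `edge_eq`). Hence
`tr (K G B)/n ≥ (3/4) mo K P p - 2 η`; the matrix `K G B` is in `alg hc`, so its diagonal entries are all equal to the normalised trace;
the entry `v v` is `∑ y', (K G) v y' * B y' v`.
-/

set_option autoImplicit false
set_option linter.unusedSectionVars false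

namespace Pool.Agent.Lib.MP_7beb49_co.GS

open Finset Matrix Walk LogRank Polynomial

variable {V κ : Type} [Fintype V] [DecidableEq V] {c : V → V → κ}

open scoped MatrixOrder in
theorem Avg_fac {K : Matrix V V ℝ} (hK : K.PosSemidef) :
    ∃ B : Matrix V V ℝ, K = B.transpose * B := by
  obtain ⟨B, hB⟩ := CStarAlgebra.nonneg_iff_eq_star_mul_self.mp hK.nonneg
  exact ⟨B, by rw [hB, Matrix.star_eq_conjTranspose, Matrix.conjTranspose_eq_transpose_of_trivial]⟩

theorem Avg_quad {B : Matrix V V ℝ} (hB : IsWalk B) (σ : ℝ) (hσ : σ ^ 2 = 1) (M : Matrix V V ℝ) :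
    0 ≤ (M * (1 + σ • B) * M.transpose).trace := by
  rw [Matrix.trace]
  refine Finset.sum_nonneg fun i _ => ?_
  have e : (M * (1 + σ • B) * M.transpose).diag i =
      ∑ y, (M i y * M i y + σ * (M i y * (B *ᵥ (fun z => M i z)) y)) := by
    rw [Matrix.diag_apply, Matrix.mul_assoc, Matrix.mul_apply]
    refine Finset.sum_congr rfl fun y _ => ?_
    rw [Matrix.add_mul, Matrix.one_mul, Matrix.add_apply, Matrix.smul_mul, Matrix.smul_apply,
      Matrix.mul_apply, smul_eq_mul, transpose_apply]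
    have e2 : (B *ᵥ (fun z => M i z)) y = ∑ j, B y j * M.transpose j i := rfl
    rw [e2]
    ring
  rw [e, Finset.sum_add_distrib, ← Finset.mul_sum]
  have h := dirichlet hB (fun z => M i z) σ hσ
  have h2 : 0 ≤ ∑ y, ∑ b, B y b * (M i y + σ * M i b) ^ 2 :=
    Finset.sum_nonneg fun y _ => Finset.sum_nonneg fun b _ =>
      mul_nonneg (hB.nonneg y b) (sq_nonneg _)
  linarith

theorem Avg_quad' {K B S : Matrix V V ℝ} (hK : K.PosSemidef) (hB : IsWalk B) (σ : ℝ)
    (hσ : σ ^ 2 = 1) (hS : S.transpose = S) :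
    0 ≤ (K * S * (1 + σ • B) * S).trace := by
  obtain ⟨F, hF⟩ := Avg_fac hK
  have h := Avg_quad hB σ hσ (F * S)
  rw [transpose_mul, hS] at h
  have e : (F * S * (1 + σ • B) * (S * F.transpose)).trace = (K * S * (1 + σ • B) * S).trace := by
    rw [← Matrix.mul_assoc, Matrix.trace_mul_comm, hF]
    simp only [Matrix.mul_assoc]
  rwa [e] at h

theorem avg_lower (hc : IsPCC c) {K : Matrix V V ℝ} (hK : K.PosSemidef) (hKm : K ∈ alg hc)
    (hKd : ∀ x, K x x = 1) {x y : V} (hxy : x ≠ y) {η : ℝ} (hη : 1 - η ≤ K x y) {a b : V}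
    (hab : a ≠ b) {p : ℝ[X]} (hp0 : ∀ s, 0 ≤ s → s ≤ 1 → 0 ≤ p.eval s)
    (hp1 : ∀ s, 0 ≤ s → s ≤ 1 → p.eval s ≤ 1) (v : V) :
    3 / 4 * mo K (lazy (W c (c a b))) p - 2 * η ≤
      ∑ y', (K * aeval (lazy (W c (c a b))) p) v y' * W c (c x y) y' v := by
  have hBw := W_isWalk hc hxy
  set B := W c (c x y) with hBdef
  set P := lazy (W c (c a b)) with hP
  have hPs : P.transpose = P := lazy_sym hc hab
  have hPm : P ∈ alg hc := lazy_mem hc _
  set G := aeval P p with hG
  have hGs : G.transpose = G := aeval_sym hPs p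
  have hGm : G ∈ alg hc := aeval_mem hc hPm p
  have hBm : B ∈ alg hc := W_mem hc _
  have hBs : B.transpose = B := by
    ext u w
    exact hBw.symm w u
  have hKs : K.transpose = K := by
    have := hK.1
    rwa [Matrix.IsHermitian, Matrix.conjTranspose_eq_transpose_of_trivial] at this
  have hn0 : 0 < Fintype.card V := Fintype.card_pos_iff.2 ⟨a⟩
  have hn : (0 : ℝ) < Fintype.card V := by exact_mod_cast hn0
  -- the three inequalities
  have hS : ((1 / 4 : ℝ) • G - 1).transpose = (1 / 4 : ℝ) • G - 1 := by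
    rw [transpose_sub, transpose_smul, hGs, transpose_one]
  have i1 := Avg_quad' hK hBw (-1) (by norm_num) hS
  have i2 := Avg_quad' hK hBw 1 (by norm_num) hGs
  have i3 : (K * aeval P (p ^ 2)).trace ≤ (K * aeval P p).trace := by
    obtain ⟨lam, q, l0, l1, q0, hq, -⟩ := spec_psd (W_isWalk hc hab) hK
    rw [hP, hq, hq]
    refine Finset.sum_le_sum fun i _ => mul_le_mul_of_nonneg_left ?_ (q0 i)
    have h1 := hp0 (lam i) (l0 i) (l1 i)
    have h2 := hp1 (lam i) (l0 i) (l1 i)
    rw [eval_pow]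
    nlinarith
  -- names of the traces
  set tK : ℝ := K.trace with htK
  set tKB : ℝ := (K * B).trace with htKB
  set tKG : ℝ := (K * G).trace with htKG
  set tKGB : ℝ := (K * G * B).trace with htKGB
  set tGG : ℝ := (K * G * G).trace with htGG
  set tGBG : ℝ := (K * G * B * G).trace with htGBG
  have e1 : (K * B * G).trace = tKGB := by
    rw [htKGB, ← Matrix.trace_transpose, transpose_mul, transpose_mul, hGs, hBs, hKs,
      ← Matrix.mul_assoc, Matrix.trace_mul_comm, ← Matrix.mul_assoc]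
  have i1' : 0 ≤ 1 / 16 * (tGG - tGBG) - 1 / 2 * (tKG - tKGB) + (tK - tKB) := by
    refine le_of_le_of_eq i1 ?_
    have e2 : K * ((1 / 4 : ℝ) • G - 1) * (1 + (-1 : ℝ) • B) * ((1 / 4 : ℝ) • G - 1) =
        (1 / 16 : ℝ) • (K * G * G) - (1 / 16 : ℝ) • (K * G * B * G)
          - (1 / 4 : ℝ) • (K * G) + (1 / 4 : ℝ) • (K * G * B)
          - (1 / 4 : ℝ) • (K * G) + (1 / 4 : ℝ) • (K * B * G) + K - K * B := by
      simp only [Matrix.mul_sub, Matrix.sub_mul, Matrix.mul_add, Matrix.add_mul, Matrix.mul_one,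
        Matrix.mul_smul, Matrix.smul_mul]
      module
    rw [e2]
    simp only [Matrix.trace_add, Matrix.trace_sub, Matrix.trace_smul, smul_eq_mul]
    rw [e1]
    ring
  have i2' : 0 ≤ tGG + tGBG := by
    refine le_of_le_of_eq i2 ?_
    have e2 : K * G * (1 + (1 : ℝ) • B) * G = K * G * G + K * G * B * G := by
      rw [one_smul, Matrix.mul_add, Matrix.mul_one, Matrix.add_mul]
    rw [e2, Matrix.trace_add]
  have i3' : tGG ≤ tKG := by
    have e2 : K * aeval P (p ^ 2) = K * G * G := by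
      rw [pow_two, map_mul, Matrix.mul_assoc]
    rw [e2] at i3
    exact i3
  have htK' : tK = Fintype.card V := by
    rw [htK, Matrix.trace]
    simp only [Matrix.diag_apply, hKd]
    rw [Finset.sum_const, nsmul_eq_mul, Finset.card_univ, mul_one]
  have htKB' : tKB = Fintype.card V * K x y := by
    have h3 : ∀ u, (K * B) u u = K x y := by
      intro u
      rw [Matrix.mul_apply]
      have h4 : ∀ z, K u z * B z u = K x y * B u z := by
        intro z
        rw [hBw.symm z u]
        by_cases h5 : (constituent c (c x y)).Adj u z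
        · rw [edge_eq hc hKm hKs h5]
        · rw [hBdef, W_of_not h5, mul_zero, mul_zero]
      rw [Finset.sum_congr rfl fun z _ => h4 z, ← Finset.mul_sum, hBw.sum, mul_one]
    rw [htKB, Matrix.trace]
    simp only [Matrix.diag_apply, h3]
    rw [Finset.sum_const, nsmul_eq_mul, Finset.card_univ]
  have hdiag : tKGB = Fintype.card V * ∑ y', (K * G) v y' * B y' v := by
    have h6 : ∀ w, (K * G * B).diag w = (K * G * B) v v := fun w =>
      ((alg hc).mul_mem ((alg hc).mul_mem hKm hGm) hBm) _ _ _ _ (hc.homogeneous w v)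
    rw [htKGB, Matrix.trace, Finset.sum_congr rfl fun w _ => h6 w, Finset.sum_const, nsmul_eq_mul,
      Finset.card_univ, Matrix.mul_apply]
  have hmo : mo K P p * Fintype.card V = tKG := by
    rw [mo, div_mul_cancel₀ _ hn.ne']
  set ss : ℝ := ∑ y', (K * G) v y' * B y' v with hss
  have hfin : (3 / 4 * mo K P p - 2 * η) * Fintype.card V ≤ ss * Fintype.card V := by
    have h7 : tK - tKB ≤ η * Fintype.card V := by
      rw [htK', htKB']
      nlinarith
    have h8 : ss * Fintype.card V = tKGB := by rw [hdiag]; ring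
    rw [h8, sub_mul, mul_assoc, hmo]
    linarith
  exact le_of_mul_le_mul_right hfin hn

end Pool.Agent.Lib.MP_7beb49_co.GS
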