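import Pool.Agent.Lib.MP_7beb49_co_gs.Spread

/-!
# Lower (module Lower, 45 min): the weight of one scale

`P = lazy (W c (c a b))`. `mo_ker_lower`: `mo_X_pow`, Bernoulli `(1 - v)^k ≥ 1 - k v` (`one_add_mul_le_pow`), row sums 1.
`mo_ker_upper`: on the event of `spread` `ker Q 1 x y ≤ 1 - vt T / 2`, so `ker Q k x y ≤ (1 - vt T/2)^k ≤ exp (-k vt T/2) ≤ exp (-1/2) ≤ 61/100`,
elsewhere `ker ≤ 1`; the mean is `≤ 1 - (39/100)/300 ≤ 1 - 1/800`. `mo_ker_anti`: from `spec_psd` (`lam^(t+s) ≤ lam^t`).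
`weight`: `X^N' * (1 - X^N) = X^N' - X^(N'+N)`, `mo` is linear in the polynomial; first term `≥ 1 - k vt N' ≥ 1 - 1/3200`, second
`≤ mo (X^N) ≤ 1 - 1/800`.
-/

set_option autoImplicit false
set_option linter.unusedSectionVars false

namespace Pool.Agent.Lib.MP_7beb49_co.GS

open Finset Matrix Walk LogRank Polynomial

variable {V κ : Type} [Fintype V] [DecidableEq V] {c : V → V → κ} {Q : Matrix V V ℝ}

theorem lower_transpose {P : Matrix V V ℝ} (hP : IsWalk P) : P.transpose = P := by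
  ext x y
  rw [Matrix.transpose_apply]
  exact hP.symm y x

theorem lower_pow_isWalk {P : Matrix V V ℝ} (hP : IsWalk P) (t : ℕ) : IsWalk (P ^ t) := by
  induction t with
  | zero =>
    rw [pow_zero]
    refine ⟨fun x y => ?_, fun x y => ?_, fun x => ?_⟩
    · rw [Matrix.one_apply]
      split_ifs <;> norm_num
    · rw [Matrix.one_apply, Matrix.one_apply]
      by_cases h : x = y
      · rw [if_pos h, if_pos h.symm]
      · rw [if_neg h, if_neg (fun h' => h h'.symm)]
    · rw [Finset.sum_eq_single x]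
      · exact Matrix.one_apply_eq x
      · intro y _ hy
        exact Matrix.one_apply_ne hy.symm
      · intro h
        exact absurd (Finset.mem_univ x) h
  | succ t ih =>
    refine ⟨fun x y => ?_, fun x y => ?_, fun x => ?_⟩
    · rw [pow_succ, Matrix.mul_apply]
      exact Finset.sum_nonneg fun z _ => mul_nonneg (ih.nonneg x z) (hP.nonneg z y)
    · have h := Matrix.transpose_pow P (t + 1)
      rw [lower_transpose hP] at h
      have h2 := congrFun (congrFun h x) y
      rw [Matrix.transpose_apply] at h2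
      exact h2.symm
    · rw [pow_succ]
      simp only [Matrix.mul_apply]
      rw [Finset.sum_comm]
      have h : ∀ z ∈ (Finset.univ : Finset V), ∑ y, (P ^ t) x z * P z y = (P ^ t) x z := by
        intro z _
        rw [← Finset.mul_sum, hP.sum, mul_one]
      rw [Finset.sum_congr rfl h, ih.sum]

theorem lower_mo (hc : IsPCC c) (hQ : Proj c Q) {a b : V} (hab : a ≠ b) (k t : ℕ) (x : V) :
    mo (ker Q k) (lazy (W c (c a b))) (X ^ t) =
      ∑ y, (lazy (W c (c a b)) ^ t) x y * ker Q k x y :=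
  mo_X_pow hc (ker_mem hc hQ k) (lazy_mem hc _)
    (lower_transpose (lazy_isWalk (W_isWalk hc hab))) t x

theorem mo_ker_lower (hc : IsPCC c) (hQ : Proj c Q) {a b : V} (hab : a ≠ b) (k t : ℕ) :
    1 - k * vt Q (lazy (W c (c a b))) t ≤ mo (ker Q k) (lazy (W c (c a b))) (X ^ t) := by
  have hw := lower_pow_isWalk (lazy_isWalk (W_isWalk hc hab)) t
  unfold vt
  rw [lower_mo hc hQ hab k t a, lower_mo hc hQ hab 1 t a]
  set M := lazy (W c (c a b)) ^ t with hM
  have h1 : 1 - (k : ℝ) * (1 - ∑ y, M a y * ker Q 1 a y) =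
      ∑ y, M a y * (1 - k * (1 - ker Q 1 a y)) := by
    have h2 : ∀ y ∈ (Finset.univ : Finset V), M a y * (1 - k * (1 - ker Q 1 a y)) =
        (1 - k) * M a y + k * (M a y * ker Q 1 a y) := by
      intro y _
      ring
    rw [Finset.sum_congr rfl h2, Finset.sum_add_distrib, ← Finset.mul_sum, ← Finset.mul_sum,
      hw.sum]
    ring
  rw [h1]
  refine Finset.sum_le_sum fun y _ => mul_le_mul_of_nonneg_left ?_ (hw.nonneg a y)
  rw [ker_pow k]
  have h2 := one_add_mul_le_pow (a := ker Q 1 a y - 1)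
    (by linarith [ker_nonneg (Q := Q) 1 a y]) k
  have h3 : 1 + (ker Q 1 a y - 1) = ker Q 1 a y := by ring
  rw [h3] at h2
  linarith

theorem mo_ker_upper (hc : IsPCC c) (hQ : Proj c Q) {a b : V} (hab : a ≠ b) {k T : ℕ}
    (hT : 1 ≤ T) (hk : 1 ≤ k * vt Q (lazy (W c (c a b))) T) :
    mo (ker Q k) (lazy (W c (c a b))) (X ^ T) ≤ 1 - 1 / 800 := by
  classical
  have hw := lower_pow_isWalk (lazy_isWalk (W_isWalk hc hab)) T
  have hs := spread hc hQ hab hT a
  rw [lower_mo hc hQ hab k T a]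
  set v := vt Q (lazy (W c (c a b))) T with hv
  set M := lazy (W c (c a b)) ^ T with hM
  have he : Real.exp (-1 / 2) ≤ 61 / 100 := by
    have h1 : Real.exp (-1 / 2) ^ 2 = Real.exp (-1) := by
      rw [← Real.exp_nat_mul]
      congr 1
      norm_num
    have h2 : Real.exp (-1) ≤ (61 / 100) ^ 2 := by
      have h3 := Real.exp_one_gt_d9
      rw [Real.exp_neg, inv_le_comm₀ (Real.exp_pos 1) (by norm_num)]
      refine le_trans ?_ h3.le
      norm_num
    rw [← h1] at h2
    exact le_of_sq_le_sq h2 (by norm_num)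
  have h1 : ∀ y, ker Q k a y ≤ 1 - 39 / 100 * (if v ≤ 2 * (1 - ker Q 1 a y) then 1 else 0) := by
    intro y
    split_ifs with h
    · rw [ker_pow k]
      have h2 : ker Q 1 a y ≤ Real.exp (-(v / 2)) := by
        have h3 := Real.add_one_le_exp (-(v / 2))
        linarith
      have h3 : ker Q 1 a y ^ k ≤ Real.exp (-(v / 2)) ^ k :=
        pow_le_pow_left₀ (ker_nonneg 1 a y) h2 k
      rw [← Real.exp_nat_mul] at h3
      have h4 : Real.exp (k * -(v / 2)) ≤ Real.exp (-1 / 2) := by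
        apply Real.exp_le_exp.mpr
        linarith
      linarith
    · have h2 := ker_le_one hc hQ k a y
      linarith
  have h2 : ∑ y, M a y * ker Q k a y ≤
      ∑ y, M a y * (1 - 39 / 100 * (if v ≤ 2 * (1 - ker Q 1 a y) then 1 else 0)) :=
    Finset.sum_le_sum fun y _ => mul_le_mul_of_nonneg_left (h1 y) (hw.nonneg a y)
  have h3 : ∑ y, M a y * (1 - 39 / 100 * (if v ≤ 2 * (1 - ker Q 1 a y) then (1 : ℝ) else 0)) =
      1 - 39 / 100 * ∑ y, M a y * (if v ≤ 2 * (1 - ker Q 1 a y) then 1 else 0) := by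
    have h4 : ∀ y ∈ (Finset.univ : Finset V),
        M a y * (1 - 39 / 100 * (if v ≤ 2 * (1 - ker Q 1 a y) then (1 : ℝ) else 0)) =
          M a y - 39 / 100 * (M a y * (if v ≤ 2 * (1 - ker Q 1 a y) then 1 else 0)) := by
      intro y _
      ring
    rw [Finset.sum_congr rfl h4, Finset.sum_sub_distrib, ← Finset.mul_sum, hw.sum]
  rw [h3] at h2
  linarith

theorem mo_ker_anti (hc : IsPCC c) (hQ : Proj c Q) {a b : V} (hab : a ≠ b) (k s t : ℕ) :
    mo (ker Q k) (lazy (W c (c a b))) (X ^ (s + t)) ≤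
      mo (ker Q k) (lazy (W c (c a b))) (X ^ t) := by
  obtain ⟨lam, q, h0, h1, hq, htr, -⟩ := spec_psd (W_isWalk hc hab) (ker_psd hc hQ k)
  unfold mo
  rw [htr, htr]
  refine div_le_div_of_nonneg_right ?_ (Nat.cast_nonneg _)
  refine Finset.sum_le_sum fun i _ => mul_le_mul_of_nonneg_left ?_ (hq i)
  rw [Polynomial.eval_pow, Polynomial.eval_pow, Polynomial.eval_X]
  exact pow_le_pow_of_le_one (h0 i) (h1 i) (by omega)

theorem weight (hc : IsPCC c) (hQ : Proj c Q) {a b : V} (hab : a ≠ b) {k N' N : ℕ}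
    (hN : 1 ≤ N) (h1 : 1 ≤ k * vt Q (lazy (W c (c a b))) N)
    (h2 : 3200 * (k * vt Q (lazy (W c (c a b))) N') ≤ 1) :
    3 / 3200 ≤ mo (ker Q k) (lazy (W c (c a b))) (X ^ N' * (1 - X ^ N)) := by
  have h3 : mo (ker Q k) (lazy (W c (c a b))) (X ^ N' * (1 - X ^ N)) =
      mo (ker Q k) (lazy (W c (c a b))) (X ^ N') -
        mo (ker Q k) (lazy (W c (c a b))) (X ^ (N' + N)) := by
    unfold mo
    have h4 : (X ^ N' * (1 - X ^ N) : ℝ[X]) = X ^ N' - X ^ (N' + N) := by
      rw [pow_add]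
      ring
    rw [h4, map_sub, mul_sub, Matrix.trace_sub, sub_div]
  have h4 := mo_ker_lower hc hQ hab k N'
  have h5 := mo_ker_upper hc hQ hab hN h1
  have h6 := mo_ker_anti hc hQ hab k N' N
  rw [h3]
  linarith

end Pool.Agent.Lib.MP_7beb49_co.GS
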