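import Pool.Agent.Lib.MP_7beb49_co_gs.GSDefs

/-!
# Slow (module Slow, 60 min): one step of the minimal colour hardly moves a slow projection

Rows `e y = Q y · ` have `⟨e y, e z⟩ = Q y z`, norm² `π = Q a a`. Let `σ = sign θ`. For `z` adjacent to `y` in the constituent `i`:
`Q y z = θ π / d` (as in `LogRank.card_le`, step `e9`, or `Proj.entry`), so `‖e z - σ e y‖² = 2 π (1 - |θ|/d) ≤ 2 δ π`.
`θ (e a - e b) = ∑ z, (A a z - A b z) e z`. In the sum replace `e z` by `σ e a + r z` if `A a z = 1, A b z = 0` and by `σ e b + r' z` if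
`A a z = 0, A b z = 1`; both sets have `Δ/2` elements (`Δ = diffN c i a b`, equal degrees), so
`(|θ| - Δ/2) ‖e a - e b‖ ≤ Δ √(2 δ π)`, and as `Δ ≤ |θ|`: `|θ| ‖e a - e b‖ ≤ 2 Δ √(2 δ π)`, i.e.
`θ² * 2 (π - Q a b) ≤ 8 δ π Δ²`. Finally `1 - ker Q 1 a b = 1 - (Q a b/π)² ≤ 2 (1 - Q a b/π)`, so
`θ² (1 - ker Q 1 a b) ≤ 8 δ Δ²`. (It may be convenient to work in `EuclideanSpace ℝ V`.)
-/

set_option autoImplicit false
set_option linter.unusedSectionVars false

namespace Pool.Agent.Lib.MP_7beb49_co.GS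

open Finset Matrix Walk LogRank Polynomial

variable {V κ : Type} [Fintype V] [DecidableEq V] {c : V → V → κ} {Q : Matrix V V ℝ}

theorem slow_edge (hc : IsPCC c) (hQ : Proj c Q) {x y : V} (hxy : x ≠ y) {θ : ℝ}
    (hAQ : adjR c (c x y) * Q = θ • Q) {u z : V} (h : (constituent c (c x y)).Adj u z) :
    (deg (constituent c (c x y)) x : ℝ) * Q u z = θ * Q u u := by
  have hQm : Q ∈ alg hc := fun u v u' v' h => hQ.mem u v u' v' h
  have h1 : (adjR c (c x y) * Q) u u = θ * Q u u := by rw [hAQ]; rfl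
  rw [← h1, Matrix.mul_apply, edge_eq hc hQm hQ.sym h, deg_eq hc _ x u, ← adjR_sum,
    Finset.sum_mul]
  refine Finset.sum_congr rfl fun w _ => ?_
  by_cases hw : (constituent c (c x y)).Adj u w
  · rw [hQ.symm w u, edge_eq hc hQm hQ.sym hw]
  · have h2 : adjR c (c x y) u w = 0 := by
      unfold adjR
      rw [if_neg hw]
    rw [h2, zero_mul, zero_mul]

/-- the distance of neighbouring rows, up to the sign -/
theorem slow_near (hc : IsPCC c) (hQ : Proj c Q) {x y : V} (hxy : x ≠ y) {θ δ σ : ℝ}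
    (hAQ : adjR c (c x y) * Q = θ • Q)
    (hθ : (1 - δ) * deg (constituent c (c x y)) x ≤ |θ|) (hσ : σ ^ 2 = 1) (hσθ : θ = σ * |θ|)
    {u z : V} (h : (constituent c (c x y)).Adj u z) :
    ∑ w, (Q z w - σ * Q u w) ^ 2 ≤ 2 * δ * Q u u := by
  have hd : (0 : ℝ) < deg (constituent c (c x y)) x := by
    have := deg_pos hc hxy x
    exact_mod_cast this
  have h1 := slow_edge hc hQ hxy hAQ h
  have h2 : ∑ w, (Q z w - σ * Q u w) ^ 2 = Q z z - 2 * σ * Q z u + σ ^ 2 * Q u u := by
    rw [← hQ.norm' z z, ← hQ.norm' z u, ← hQ.norm' u u, Finset.mul_sum, Finset.mul_sum,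
      ← Finset.sum_sub_distrib, ← Finset.sum_add_distrib]
    exact Finset.sum_congr rfl fun w _ => by ring
  rw [h2, hσ, hQ.diag hc z u, hQ.symm z u]
  have hpos := hQ.pos hc u
  have h3 : (deg (constituent c (c x y)) x : ℝ) * (σ * Q u z) = |θ| * Q u u := by
    calc (deg (constituent c (c x y)) x : ℝ) * (σ * Q u z) =
        σ * ((deg (constituent c (c x y)) x : ℝ) * Q u z) := by ring
      _ = σ * (θ * Q u u) := by rw [h1]
      _ = σ * (σ * |θ| * Q u u) := by rw [← hσθ]
      _ = σ ^ 2 * (|θ| * Q u u) := by ring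
      _ = _ := by rw [hσ, one_mul]
  have h4 : (1 - δ) * (deg (constituent c (c x y)) x : ℝ) * Q u u ≤ |θ| * Q u u :=
    mul_le_mul_of_nonneg_right hθ hpos.le
  rw [← h3] at h4
  have h5 : (1 - δ) * Q u u ≤ σ * Q u z := by
    refine le_of_mul_le_mul_left ?_ hd
    calc (deg (constituent c (c x y)) x : ℝ) * ((1 - δ) * Q u u) =
        (1 - δ) * (deg (constituent c (c x y)) x : ℝ) * Q u u := by ring
      _ ≤ _ := h4
  linarith

theorem slow_step (hc : IsPCC c) (hQ : Proj c Q) {x y : V} (hxy : x ≠ y) {θ δ : ℝ}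
    (hAQ : adjR c (c x y) * Q = θ • Q) (hδ : 0 ≤ δ)
    (hθ : (1 - δ) * deg (constituent c (c x y)) x ≤ |θ|) (a b : V)
    (hdiff : diffN c (c x y) a b ≤ |θ|) :
    θ ^ 2 * (1 - ker Q 1 a b) ≤ 8 * δ * diffN c (c x y) a b ^ 2 := by
  have hpos := hQ.pos hc a
  set D := diffN c (c x y) a b with hD
  have hD0 : 0 ≤ D := Finset.sum_nonneg fun z _ => abs_nonneg _
  obtain ⟨σ, hσ, hσθ⟩ : ∃ σ : ℝ, σ ^ 2 = 1 ∧ θ = σ * |θ| := by
    rcases le_or_gt 0 θ with h | h
    · exact ⟨1, by norm_num, by rw [abs_of_nonneg h, one_mul]⟩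
    · exact ⟨-1, by norm_num, by rw [abs_of_neg h]; ring⟩
  have hσa : |σ| = 1 := by
    have : |σ| ^ 2 = 1 := by rw [sq_abs, hσ]
    nlinarith [abs_nonneg σ]
  set π₀ := Q a a with hπ
  set F := 2 * (π₀ - Q a b) with hF
  have hbb : Q b b = π₀ := hQ.diag hc b a
  have hFsum : ∑ w, (Q a w - Q b w) ^ 2 = F := by
    have h2 : ∑ w, (Q a w - Q b w) ^ 2 = Q a a - 2 * Q a b + Q b b := by
      rw [← hQ.norm' a a, ← hQ.norm' a b, ← hQ.norm' b b, Finset.mul_sum,
        ← Finset.sum_sub_distrib, ← Finset.sum_add_distrib]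
      exact Finset.sum_congr rfl fun w _ => by ring
    rw [h2, hbb]
    ring
  have hF0 : 0 ≤ F := by
    rw [← hFsum]
    exact Finset.sum_nonneg fun w _ => sq_nonneg _
  set m := Real.sqrt (2 * δ * π₀ * F) with hm
  have hm0 : 0 ≤ m := Real.sqrt_nonneg _
  have hm2 : m ^ 2 = 2 * δ * π₀ * F := Real.sq_sqrt (by positivity)
  have e : ∀ u v, θ * Q u v = ∑ z, adjR c (c x y) u z * Q z v := by
    intro u v
    have : (adjR c (c x y) * Q) u v = θ * Q u v := by rw [hAQ]; rfl
    rw [← this, Matrix.mul_apply]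
  -- the estimate of one term
  have hterm : ∀ z, abs ((adjR c (c x y) a z - adjR c (c x y) b z) * (Q z a - Q z b) -
      σ * (F / 2) * |adjR c (c x y) a z - adjR c (c x y) b z|) ≤
        |adjR c (c x y) a z - adjR c (c x y) b z| * m := by
    intro z
    by_cases ha : (constituent c (c x y)).Adj a z
    · have ha1 : adjR c (c x y) a z = 1 := by unfold adjR; rw [if_pos ha]
      by_cases hb : (constituent c (c x y)).Adj b z
      · have hb1 : adjR c (c x y) b z = 1 := by unfold adjR; rw [if_pos hb]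
        rw [ha1, hb1]
        simp
      · have hb1 : adjR c (c x y) b z = 0 := by unfold adjR; rw [if_neg hb]
        rw [ha1, hb1, sub_zero, abs_one, one_mul, one_mul, mul_one]
        refine abs_le_of_sq_le_sq ?_ hm0
        have h1 := slow_near hc hQ hxy hAQ hθ hσ hσθ ha
        have h2 := Finset.sum_mul_sq_le_sq_mul_sq Finset.univ (fun w => Q z w - σ * Q a w)
          (fun w => Q a w - Q b w)
        have h3 : ∑ w, (Q z w - σ * Q a w) * (Q a w - Q b w) = Q z a - Q z b - σ * (F / 2) := by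
          have h4 : ∑ w, (Q z w - σ * Q a w) * (Q a w - Q b w) =
              Q z a - Q z b - σ * (Q a a - Q a b) := by
            rw [← hQ.norm' z a, ← hQ.norm' z b, ← hQ.norm' a a, ← hQ.norm' a b,
              ← Finset.sum_sub_distrib, ← Finset.sum_sub_distrib, Finset.mul_sum,
              ← Finset.sum_sub_distrib]
            exact Finset.sum_congr rfl fun w _ => by ring
          rw [h4, hF]
          ring
        rw [h3, hFsum] at h2
        rw [hm2]
        refine h2.trans ?_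
        exact mul_le_mul_of_nonneg_right h1 hF0
    · have ha1 : adjR c (c x y) a z = 0 := by unfold adjR; rw [if_neg ha]
      by_cases hb : (constituent c (c x y)).Adj b z
      · have hb1 : adjR c (c x y) b z = 1 := by unfold adjR; rw [if_pos hb]
        rw [ha1, hb1, zero_sub, abs_neg, abs_one, one_mul, mul_one]
        refine abs_le_of_sq_le_sq ?_ hm0
        have h1 := slow_near hc hQ hxy hAQ hθ hσ hσθ hb
        have h2 := Finset.sum_mul_sq_le_sq_mul_sq Finset.univ (fun w => Q z w - σ * Q b w)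
          (fun w => Q a w - Q b w)
        have h3 : ∑ w, (Q z w - σ * Q b w) * (Q a w - Q b w) = Q z a - Q z b + σ * (F / 2) := by
          have h4 : ∑ w, (Q z w - σ * Q b w) * (Q a w - Q b w) =
              Q z a - Q z b - σ * (Q b a - Q b b) := by
            rw [← hQ.norm' z a, ← hQ.norm' z b, ← hQ.norm' b a, ← hQ.norm' b b,
              ← Finset.sum_sub_distrib, ← Finset.sum_sub_distrib, Finset.mul_sum,
              ← Finset.sum_sub_distrib]
            exact Finset.sum_congr rfl fun w _ => by ring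
          rw [h4, hF, hbb, hQ.symm b a]
          ring
        rw [h3, hFsum] at h2
        rw [hm2]
        have h5 : (-1 * (Q z a - Q z b) - σ * (F / 2)) ^ 2 = (Q z a - Q z b + σ * (F / 2)) ^ 2 := by
          ring
        rw [h5]
        refine h2.trans ?_
        rw [hbb] at h1
        exact mul_le_mul_of_nonneg_right h1 hF0
      · have hb1 : adjR c (c x y) b z = 0 := by unfold adjR; rw [if_neg hb]
        rw [ha1, hb1]
        simp
  have hsum : θ * F = ∑ z, (adjR c (c x y) a z - adjR c (c x y) b z) * (Q z a - Q z b) := by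
    have h4 : ∑ z, (adjR c (c x y) a z - adjR c (c x y) b z) * (Q z a - Q z b) =
        (θ * Q a a - θ * Q a b) - (θ * Q b a - θ * Q b b) := by
      rw [e, e, e, e, ← Finset.sum_sub_distrib, ← Finset.sum_sub_distrib,
        ← Finset.sum_sub_distrib]
      exact Finset.sum_congr rfl fun z _ => by ring
    rw [h4, hQ.symm b a, hbb, hF]
    ring
  have htot : |θ * F - σ * (F / 2) * D| ≤ D * m := by
    rw [hsum, hD, diffN, Finset.mul_sum, ← Finset.sum_sub_distrib, Finset.sum_mul]
    exact (Finset.abs_sum_le_sum_abs _ _).trans (Finset.sum_le_sum fun z _ => hterm z)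
  have h1 : |θ * F - σ * (F / 2) * D| = (|θ| - D / 2) * F := by
    have h2 : θ * F - σ * (F / 2) * D = σ * ((|θ| - D / 2) * F) := by
      calc θ * F - σ * (F / 2) * D = (σ * |θ|) * F - σ * (F / 2) * D := by rw [← hσθ]
        _ = _ := by ring
    rw [h2, abs_mul, hσa, one_mul, abs_of_nonneg]
    refine mul_nonneg ?_ hF0
    linarith
  rw [h1] at htot
  have h2 : |θ| / 2 * F ≤ D * m := by
    refine le_trans (mul_le_mul_of_nonneg_right ?_ hF0) htot
    linarith
  have h3 : (|θ| / 2 * F) ^ 2 ≤ (D * m) ^ 2 := pow_le_pow_left₀ (by positivity) h2 2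
  have h4 : θ ^ 2 * F ≤ 8 * δ * π₀ * D ^ 2 := by
    rcases hF0.lt_or_eq with hFp | hFe
    · have h5 : θ ^ 2 * F * F ≤ 8 * δ * π₀ * D ^ 2 * F := by
        rw [mul_pow D m, hm2] at h3
        have h6 : (|θ| / 2 * F) ^ 2 = θ ^ 2 * F * F / 4 := by
          rw [mul_pow, div_pow, sq_abs]
          ring
        rw [h6] at h3
        linarith
      exact le_of_mul_le_mul_right h5 hFp
    · rw [← hFe, mul_zero]
      positivity
  have hker : 1 - ker Q 1 a b = 1 - (Q a b / π₀) ^ 2 := by
    unfold ker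
    rw [Matrix.of_apply, pow_one]
  have hu : |Q a b| ≤ π₀ := by
    have := entry_abs hc hQ a b
    rw [hQ.symm b a] at this
    exact this
  set u := Q a b / π₀ with hu2
  have hu1 : u ≤ 1 := by
    rw [hu2, div_le_one hpos]
    exact (le_abs_self _).trans hu
  have hum : -1 ≤ u := by
    rw [hu2, le_div_iff₀ hpos]
    linarith [neg_abs_le (Q a b)]
  have hFu : F = 2 * π₀ * (1 - u) := by
    rw [hF, hu2]
    field_simp
  rw [hFu] at h4
  have h5 : θ ^ 2 * (2 * (1 - u)) ≤ 8 * δ * D ^ 2 := by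
    refine le_of_mul_le_mul_right ?_ hpos
    linarith
  rw [hker]
  refine le_trans (mul_le_mul_of_nonneg_left ?_ (sq_nonneg θ)) h5
  nlinarith

/-- The value of `ker Q 1` on a slow colour. -/
theorem ker_slow (hc : IsPCC c) (hQ : Proj c Q) {x y : V} (hxy : x ≠ y) {θ δ : ℝ}
    (hAQ : adjR c (c x y) * Q = θ • Q) (hδ : 0 ≤ δ) (hδ1 : δ ≤ 1)
    (hθ : (1 - δ) * deg (constituent c (c x y)) x ≤ |θ|) (k : ℕ) :
    1 - 2 * k * δ ≤ ker Q k x y := by
  have hd : (0 : ℝ) < deg (constituent c (c x y)) x := by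
    have := deg_pos hc hxy x
    exact_mod_cast this
  have hpos := hQ.pos hc x
  have h1 := slow_edge hc hQ hxy hAQ (adj_self hxy)
  have h2 : Q x y / Q x x = θ / deg (constituent c (c x y)) x := by
    rw [div_eq_div_iff hpos.ne' hd.ne']
    linarith
  have h3 : 1 - δ ≤ |θ| / deg (constituent c (c x y)) x := by
    rw [le_div_iff₀ hd]
    exact hθ
  have h4 : ker Q k x y = (|θ| / deg (constituent c (c x y)) x) ^ (2 * k) := by
    unfold ker
    rw [Matrix.of_apply, h2, pow_mul]
    congr 1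
    rw [div_pow, div_pow, sq_abs]
  rw [h4]
  have h5 := one_add_mul_le_pow (a := -δ) (by linarith) (2 * k)
  have h6 : (1 - δ) ^ (2 * k) ≤ (|θ| / deg (constituent c (c x y)) x) ^ (2 * k) :=
    pow_le_pow_left₀ (by linarith) h3 _
  have h7 : 1 + -δ = 1 - δ := by ring
  rw [h7] at h5
  push_cast at h5
  linarith

end Pool.Agent.Lib.MP_7beb49_co.GS
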