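import Pool.Agent.Lib.MP_7beb49_co_gs.MMDefs
import Pool.Agent.Lib.MP_7beb49_co_gs.Avg
import Pool.Agent.Lib.MP_7beb49_co_gs.Slow

/-!
# MMAvg (module MMAvg, 40 min): the martingale is large on one of the two slow colours

For each `a < A`: `avg_lower` with `K = ker Q k`, `k = 102400^(a+1)`, `η = 2 k δ` (`ker_slow`), `p = gg T a` (values in `[0,1]` on `[0,1]`); since `a < A`,
`20000 k δ ≤ 1` (`hA`, `102400^(a+1) ≤ 102400^A`), so `2 η = 4 k δ ≤ 4/20000 ≤ (1/4)(3/3200) ≤ ww/4`, and the mean of the term is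
`≥ (3/4) ww - (1/4) ww = ww/2`. Divided by `ww` and summed over `a`: `∑ y', MM 0 v y' * W y' v ≥ A/2`. As `∑ y', W y' v = 1` and `W ≥ 0`, some `y'`
with `W y' v ≠ 0` has `MM 0 v y' ≥ A/2`.
-/

set_option autoImplicit false
set_option linter.unusedSectionVars false

namespace Pool.Agent.Lib.MP_7beb49_co.GS

open Finset Matrix Walk LogRank Polynomial

variable {V κ : Type} [Fintype V] [DecidableEq V] {c : V → V → κ} {Q : Matrix V V ℝ}

theorem MMAvg_eval (T : ℕ → ℕ) (a : ℕ) (x : ℝ) :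
    (gg T a : ℝ[X]).eval x = x ^ (16 * T (a + 1)) * (1 - x ^ T a) := by
  unfold gg
  simp

theorem MM_large (hc : IsPCC c) (hQ : Proj c Q) {x y : V} (hxy : x ≠ y) {θ δ : ℝ}
    (hAQ : adjR c (c x y) * Q = θ • Q) (hδ : 0 ≤ δ) (hδ1 : δ ≤ 1)
    (hθ : (1 - δ) * deg (constituent c (c x y)) x ≤ |θ|) {a b : V} (hab : a ≠ b)
    {T : ℕ → ℕ} {A : ℕ} (hA : 20000 * δ * 102400 ^ A ≤ 1)
    (hw : ∀ i < A, 3 / 3200 ≤ ww Q (lazy (W c (c a b))) T i) (v : V) :
    ∃ y', (constituent c (c x y)).Adj v y' ∧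
      (A : ℝ) / 2 ≤ MM Q (lazy (W c (c a b))) T A 0 v y' := by
  classical
  have hWk := W_isWalk hc hxy
  have hsum1 : ∑ y', W c (c x y) y' v = 1 := by
    rw [← hWk.sum v]
    exact Finset.sum_congr rfl fun z _ => hWk.symm z v
  -- the mean
  have hterm : ∀ i ∈ range A, (1 : ℝ) / 2 ≤ (ww Q (lazy (W c (c a b))) T i)⁻¹ *
      ∑ y', (ker Q (102400 ^ (i + 1)) * aeval (lazy (W c (c a b))) (gg T i)) v y' *
        W c (c x y) y' v := by
    intro i hi
    have hi' := Finset.mem_range.mp hi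
    have hwi := hw i hi'
    have hks := ker_slow hc hQ hxy hAQ hδ hδ1 hθ (102400 ^ (i + 1))
    have hx0 : ∀ t : ℝ, 0 ≤ t → t ≤ 1 → 0 ≤ (gg T i : ℝ[X]).eval t := by
      intro t ht0 ht1
      rw [MMAvg_eval]
      exact mul_nonneg (pow_nonneg ht0 _) (by linarith [pow_le_one₀ (n := T i) ht0 ht1])
    have hx1 : ∀ t : ℝ, 0 ≤ t → t ≤ 1 → (gg T i : ℝ[X]).eval t ≤ 1 := by
      intro t ht0 ht1
      rw [MMAvg_eval]
      exact mul_le_one₀ (pow_le_one₀ ht0 ht1) (by linarith [pow_le_one₀ (n := T i) ht0 ht1])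
        (by linarith [pow_nonneg ht0 (T i)])
    have hav := avg_lower hc (ker_psd hc hQ (102400 ^ (i + 1)))
      (ker_mem hc hQ (102400 ^ (i + 1))) (ker_diag hc hQ _) hxy
      (η := 2 * ((102400 ^ (i + 1) : ℕ) : ℝ) * δ) hks hab hx0 hx1 v
    have hmo : mo (ker Q (102400 ^ (i + 1))) (lazy (W c (c a b))) (gg T i) =
        ww Q (lazy (W c (c a b))) T i := rfl
    rw [hmo] at hav
    have hk : ((102400 ^ (i + 1) : ℕ) : ℝ) ≤ 102400 ^ A := by
      push_cast
      exact pow_le_pow_right₀ (by norm_num) (by omega)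
    have hkδ : ((102400 ^ (i + 1) : ℕ) : ℝ) * δ ≤ 1 / 20000 := by
      have := mul_le_mul_of_nonneg_right hk hδ
      linarith
    have hwpos : 0 < ww Q (lazy (W c (c a b))) T i := lt_of_lt_of_le (by norm_num) hwi
    rw [inv_mul_eq_div, le_div_iff₀ hwpos]
    linarith
  have hM : ∑ y', MM Q (lazy (W c (c a b))) T A 0 v y' * W c (c x y) y' v =
      ∑ i ∈ range A, (ww Q (lazy (W c (c a b))) T i)⁻¹ *
      ∑ y', (ker Q (102400 ^ (i + 1)) * aeval (lazy (W c (c a b))) (gg T i)) v y' *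
        W c (c x y) y' v := by
    have h1 : ∀ y', MM Q (lazy (W c (c a b))) T A 0 v y' * W c (c x y) y' v =
        ∑ i ∈ range A, (ww Q (lazy (W c (c a b))) T i)⁻¹ *
          ((ker Q (102400 ^ (i + 1)) * aeval (lazy (W c (c a b))) (gg T i)) v y' *
            W c (c x y) y' v) := by
      intro y'
      unfold MM
      rw [Matrix.sum_apply, Finset.sum_mul]
      refine Finset.sum_congr rfl fun i _ => ?_
      rw [Matrix.smul_apply, smul_eq_mul, pow_zero, one_mul, mul_assoc]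
    rw [Finset.sum_congr rfl fun y' _ => h1 y', Finset.sum_comm]
    exact Finset.sum_congr rfl fun i _ => (Finset.mul_sum _ _ _).symm
  have hge : (A : ℝ) / 2 ≤ ∑ y', MM Q (lazy (W c (c a b))) T A 0 v y' * W c (c x y) y' v := by
    rw [hM]
    calc (A : ℝ) / 2 = ∑ i ∈ range A, (1 : ℝ) / 2 := by
          rw [Finset.sum_const, Finset.card_range, nsmul_eq_mul]; ring
      _ ≤ _ := Finset.sum_le_sum hterm
  by_contra hcon
  push Not at hcon
  have hadj : ∀ y', W c (c x y) y' v ≠ 0 → (constituent c (c x y)).Adj v y' := by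
    intro y' h
    by_contra hno
    exact h (W_of_not fun h' => hno h'.symm)
  obtain ⟨y₀, _, hy₀⟩ := Finset.exists_ne_zero_of_sum_ne_zero (s := Finset.univ)
    (f := fun y' => W c (c x y) y' v) (by rw [hsum1]; exact one_ne_zero)
  have hlt : ∑ y', MM Q (lazy (W c (c a b))) T A 0 v y' * W c (c x y) y' v <
      ∑ y', (A : ℝ) / 2 * W c (c x y) y' v := by
    refine Finset.sum_lt_sum ?_ ⟨y₀, Finset.mem_univ _, ?_⟩
    · intro y' _
      by_cases h : W c (c x y) y' v = 0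
      · rw [h, mul_zero, mul_zero]
      · exact mul_le_mul_of_nonneg_right (hcon y' (hadj y' h)).le (hWk.nonneg _ _)
    · exact mul_lt_mul_of_pos_right (hcon y₀ (hadj y₀ hy₀))
        (lt_of_le_of_ne (hWk.nonneg _ _) (Ne.symm hy₀))
  rw [← Finset.mul_sum, hsum1, mul_one] at hlt
  linarith

end Pool.Agent.Lib.MP_7beb49_co.GS
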