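import Mathlib

/-!
# Scales (module Scales, 40 min): choice of the times

`k_a = 102400^(a+1)`, `T a` = the least `t` with `1 / k_a ≤ v t` (`Nat.find`; exists since `1/k_a ≤ 1/4`). `T a ≥ 1` as `v 0 = 0`.
`v (T a) ≤ v (T a - 1) + σ ≤ 1/k_a + σ`. `v (16 T (a+1)) ≤ 16 (1/k_(a+1) + σ) ≤ 16/(102400 k_a) + 16 σ ≤ 1/(6400 k_a) + 1/(6400 k_a)`
(from `hσ`: `σ ≤ 1/102400^(A+1) ≤ 1/(102400 k_a)` for `a < A`). So `v (16 T (a+1)) < 1/k_a ≤ v (T a)` and monotonicity gives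
`16 T (a+1) ≤ T a`. Last: `v t ≤ t σ`.
-/

set_option autoImplicit false

namespace Pool.Agent.Lib.MP_7beb49_co.GS

theorem scales {v : ℕ → ℝ} (h0 : v 0 = 0) (hmono : ∀ s t, s ≤ t → v s ≤ v t) {σ : ℝ}
    (hσ0 : 0 ≤ σ) (hstep : ∀ t, v (t + 1) ≤ v t + σ) (hmul : ∀ t, v (16 * t) ≤ 16 * v t)
    (hlarge : ∃ t, 1 / 4 ≤ v t) (A : ℕ) (hσ : σ * 102400 ^ (A + 1) ≤ 1) :
    ∃ T : ℕ → ℕ, (∀ a ≤ A, 1 ≤ T a) ∧ (∀ a ≤ A, 1 ≤ 102400 ^ (a + 1) * v (T a)) ∧
      (∀ a < A, 16 * T (a + 1) ≤ T a) ∧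
      (∀ a < A, 3200 * (102400 ^ (a + 1) * v (16 * T (a + 1))) ≤ 1) ∧
      1 ≤ 102400 ^ (A + 1) * σ * T A := by
  classical
  have hex : ∀ a : ℕ, ∃ t, 1 ≤ 102400 ^ (a + 1) * v t := by
    intro a
    obtain ⟨t, ht⟩ := hlarge
    refine ⟨t, ?_⟩
    have h1 : (102400 : ℝ) ≤ 102400 ^ (a + 1) := le_self_pow₀ (by norm_num) (by omega)
    nlinarith
  have hv : ∀ t : ℕ, v t ≤ t * σ := by
    intro t
    induction t with
    | zero => simp [h0]
    | succ t ih =>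
      have := hstep t
      push_cast
      linarith
  have hfind : ∀ a, 1 ≤ 102400 ^ (a + 1) * v (Nat.find (hex a)) := fun a => Nat.find_spec (hex a)
  have hpos : ∀ a, 1 ≤ Nat.find (hex a) := by
    intro a
    rcases Nat.eq_zero_or_pos (Nat.find (hex a)) with h | h
    · have h1 := hfind a
      rw [h, h0, mul_zero] at h1
      norm_num at h1
    · exact h
  have hmain : ∀ a < A,
      3200 * (102400 ^ (a + 1) * v (16 * Nat.find (hex (a + 1)))) ≤ 1 := by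
    intro a ha
    set t := Nat.find (hex (a + 1)) with ht
    have ht1 : 1 ≤ t := hpos (a + 1)
    have h1 : ¬ 1 ≤ 102400 ^ (a + 1 + 1) * v (t - 1) :=
      Nat.find_min (hex (a + 1)) (by omega)
    have h2 : v t ≤ v (t - 1) + σ := by
      have := hstep (t - 1)
      rwa [Nat.sub_add_cancel ht1] at this
    have h3 : (102400 : ℝ) ^ (a + 1 + 1) ≤ 102400 ^ (A + 1) :=
      pow_le_pow_right₀ (by norm_num) (by omega)
    have h4 : (102400 : ℝ) ^ (a + 1 + 1) * σ ≤ 1 := by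
      refine le_trans ?_ hσ
      rw [mul_comm σ]
      exact mul_le_mul_of_nonneg_right h3 hσ0
    have h5 : (102400 : ℝ) ^ (a + 1 + 1) * v t ≤ 2 := by
      have h6 : (102400 : ℝ) ^ (a + 1 + 1) * v t ≤ 102400 ^ (a + 1 + 1) * (v (t - 1) + σ) :=
        mul_le_mul_of_nonneg_left h2 (by positivity)
      rw [mul_add] at h6
      linarith [not_le.mp h1]
    have h7 : (102400 : ℝ) ^ (a + 1) * v (16 * t) ≤ 102400 ^ (a + 1) * (16 * v t) :=
      mul_le_mul_of_nonneg_left (hmul t) (by positivity)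
    have h8 : (102400 : ℝ) ^ (a + 1 + 1) * v t = 102400 * (102400 ^ (a + 1) * v t) := by
      rw [pow_succ]
      ring
    have h9 : (102400 : ℝ) ^ (a + 1) * (16 * v t) = 16 * (102400 ^ (a + 1) * v t) := by ring
    rw [h8] at h5
    rw [h9] at h7
    linarith
  refine ⟨fun a => Nat.find (hex a), fun a _ => hpos a, fun a _ => hfind a, fun a ha => ?_,
    hmain, ?_⟩
  · by_contra hcon
    rw [not_le] at hcon
    have h1 := hmono _ _ hcon.le
    have h2 := hfind a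
    have h3 := hmain a ha
    have h4 : (102400 : ℝ) ^ (a + 1) * v (Nat.find (hex a)) ≤
        102400 ^ (a + 1) * v (16 * Nat.find (hex (a + 1))) :=
      mul_le_mul_of_nonneg_left h1 (by positivity)
    linarith
  · have h1 := hfind A
    have h2 : (102400 : ℝ) ^ (A + 1) * v (Nat.find (hex A)) ≤
        102400 ^ (A + 1) * (Nat.find (hex A) * σ) :=
      mul_le_mul_of_nonneg_left (hv _) (by positivity)
    calc (1 : ℝ) ≤ _ := h1
      _ ≤ _ := h2
      _ = _ := by ring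

end Pool.Agent.Lib.MP_7beb49_co.GS
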