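import Pool.Agent.Lib.MP_7beb49_co_gs.MMSteps
import Pool.Agent.Lib.MP_7beb49_co_gs.MMAvg
import Pool.Agent.Lib.MP_7beb49_co_gs.Lower
import Pool.Agent.Lib.MP_7beb49_co_gs.Scales

/-!
# CardLe (module CardLe, 60 min): the number of vertices of one slow colour

`card_conv`: double counting, `∑_v #{w | c v w = c y x} = ∑_w #{v | c w v = c x y}`, both inner numbers are constant (`ncard_eq`).
`card_le_gs`: `P = lazy (W c (c a b))`, `σ = (1 - ker Q 1 a b)/2`. By `slow_step` (`diffN ≤ 8 K d ≤ d/2 ≤ |θ|`, `8 δ (8 K d)² / (d/2)² = 2048 δ K²`)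
`σ ≤ 1024 δ K²`, so `102400^(A+1) σ ≤ 1024 * 102400 * K² / 20000 ≤ 5243 K² ≤ 1` (`hA`). `scales` for `v = vt Q P`
(`vt_zero, vt_mono, vt_step, vt_mul, vt_large`) gives `T`; `weight` with `k = 102400^(i+1)`, `N = T i`, `N' = 16 T (i+1)` gives `hw`.
`MM_steps`: `as 0 ≤ 252850 / T A ≤ 252850 * 5243 K²`. `MM_large`: `y'`. Let `Y = {w | c v w = c v y'}`, on which `MM 0 v w ≥ A/2` (`MM_mem`).
`Walk.expo` with `col = c v`, `M s w = MM s v w`, `τ = 1/(128000000 K)`, `A := 32000000 * A` (`P y z ≠ 0` and `y ≠ z` imply adjacency, see step `e3` of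
`LogRank.card_le`): `τ² as 0 ≤ 1`, and `τ A/2 - τ² 32000000 A K ≥ A/(520000000 K)`. So `|Y| exp (A/(520000000 K)) ≤ n`. `c v y'` is `c x y` or `c y x`
(`constituent`, `hc.conv`), and `card_conv`.
-/

set_option autoImplicit false
set_option linter.unusedSectionVars false

namespace Pool.Agent.Lib.MP_7beb49_co.GS

open Finset Matrix Walk LogRank Polynomial

variable {V κ : Type} [Fintype V] [DecidableEq V] {c : V → V → κ} {Q : Matrix V V ℝ}

theorem card_conv (hc : IsPCC c) (x y v : V) :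
    {w | c v w = c y x}.ncard = {w | c v w = c x y}.ncard := by
  classical
  have h1 : ∀ u, {w | c u w = c y x}.ncard = {w | c v w = c y x}.ncard := fun u =>
    ncard_eq hc (P := fun u w => c u w = c y x) (fun _ _ _ _ h => by rw [h]) u v
  have h2 : ∀ u, {w | c u w = c x y}.ncard = {w | c v w = c x y}.ncard := fun u =>
    ncard_eq hc (P := fun u w => c u w = c x y) (fun _ _ _ _ h => by rw [h]) u v
  have e : ∀ (i : κ) (u : V), {w | c u w = i}.ncard = ∑ w, if c u w = i then 1 else 0 := by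
    intro i u
    rw [Finset.sum_boole, Set.ncard_eq_toFinset_card']
    simp only [Nat.cast_id]
    congr 1
    ext w; simp
  have h3 : ∑ u : V, {w | c u w = c y x}.ncard = ∑ u : V, {w | c u w = c x y}.ncard := by
    simp only [e]
    rw [Finset.sum_comm]
    refine Finset.sum_congr rfl fun w _ => Finset.sum_congr rfl fun u _ => ?_
    have : c u w = c y x ↔ c w u = c x y := ⟨fun h => hc.conv _ _ _ _ h, fun h => hc.conv _ _ _ _ h⟩
    simp only [this]
  rw [Finset.sum_congr rfl fun u _ => h1 u, Finset.sum_congr rfl fun u _ => h2 u,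
    Finset.sum_const, Finset.sum_const, smul_eq_mul, smul_eq_mul] at h3
  have : 0 < (univ : Finset V).card := by
    rw [Finset.card_univ]; exact Fintype.card_pos_iff.2 ⟨v⟩
  exact Nat.eq_of_mul_eq_mul_left this h3

theorem cardLe_sigma (hc : IsPCC c) (hQ : Proj c Q) {x y : V}
    (hxy : x ≠ y) {θ : ℝ} (hAQ : adjR c (c x y) * Q = θ • Q) {a b : V} {δ K : ℝ}
    (hδ : 0 < δ) (hδ1 : δ ≤ 1 / 2) (hK1 : K ≤ 1 / 100)
    (hθ : (1 - δ) * deg (constituent c (c x y)) x ≤ |θ|)
    (hdiff : diffN c (c x y) a b ≤ 8 * K * deg (constituent c (c x y)) x) :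
    (1 - ker Q 1 a b) / 2 ≤ 1024 * δ * K ^ 2 := by
  set d : ℝ := (deg (constituent c (c x y)) x : ℝ) with hd
  have hdpos : 0 < d := by
    have := deg_pos hc hxy x
    rw [hd]; exact_mod_cast this
  have h1 : d / 2 ≤ |θ| := by
    refine le_trans ?_ hθ
    nlinarith
  have h2 : diffN c (c x y) a b ≤ |θ| := by
    refine hdiff.trans (le_trans ?_ h1)
    nlinarith
  have h3 := slow_step hc hQ hxy hAQ hδ.le hθ a b h2
  have h4 : 0 ≤ diffN c (c x y) a b := Finset.sum_nonneg fun z _ => abs_nonneg _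
  have h5 : diffN c (c x y) a b ^ 2 ≤ (8 * K * d) ^ 2 := pow_le_pow_left₀ h4 hdiff 2
  have h6 : (d / 2) ^ 2 ≤ θ ^ 2 := by
    rw [← sq_abs θ]
    exact pow_le_pow_left₀ (by positivity) h1 2
  have h7 : 0 ≤ 1 - ker Q 1 a b := by
    have := ker_le_one hc hQ 1 a b
    linarith
  have h8 : (d / 2) ^ 2 * (1 - ker Q 1 a b) ≤ 8 * δ * (8 * K * d) ^ 2 :=
    (mul_le_mul_of_nonneg_right h6 h7).trans (h3.trans
      (mul_le_mul_of_nonneg_left h5 (by positivity)))
  have h9 : d ^ 2 * (1 - ker Q 1 a b) ≤ d ^ 2 * (2048 * δ * K ^ 2) := by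
    calc d ^ 2 * (1 - ker Q 1 a b) = 4 * ((d / 2) ^ 2 * (1 - ker Q 1 a b)) := by ring
      _ ≤ 4 * (8 * δ * (8 * K * d) ^ 2) := by linarith
      _ = _ := by ring
  have h10 := le_of_mul_le_mul_left h9 (by positivity)
  linarith

theorem card_le_gs (hc : IsPCC c) (hn : 3 ≤ Fintype.card V) (hQ : Proj c Q) {x y : V}
    (hxy : x ≠ y) {θ : ℝ} (hAQ : adjR c (c x y) * Q = θ • Q) {a b : V} (hab : a ≠ b) {δ K : ℝ}
    (hδ : 0 < δ) (hδ1 : δ ≤ 1 / 2) (hK : 0 < K) (hK1 : K ≤ 1 / 100) (A : ℕ)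
    (hA : 20000 * δ * 102400 ^ A ≤ 1)
    (hθ : (1 - δ) * deg (constituent c (c x y)) x ≤ |θ|)
    (hdiff : diffN c (c x y) a b ≤ 8 * K * deg (constituent c (c x y)) x) (v : V)
    (hgood : ∀ w, c v w = c x y ∨ c v w = c y x → ∀ k : ℕ,
      S (lazy (W c (c a b))) (lazy (W c (c a b)) *ᵥ rate (lazy (W c (c a b))) (c v)) k w ≤ k * K) :
    ({w | c v w = c x y}.ncard : ℝ) ≤
      Fintype.card V * Real.exp (-(A / (520000000 * K))) := by
  classical
  set P := lazy (W c (c a b)) with hP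
  have hW := W_isWalk hc hab
  have hPw : IsWalk P := lazy_isWalk hW
  set σ : ℝ := (1 - ker Q 1 a b) / 2 with hσdef
  have hσ0 : 0 ≤ σ := by
    have := ker_le_one hc hQ 1 a b
    rw [hσdef]; linarith
  have hσ1 : σ ≤ 1024 * δ * K ^ 2 := cardLe_sigma hc hQ hxy hAQ hδ hδ1 hK1 hθ hdiff
  have hσ2 : 102400 ^ (A + 1) * σ ≤ 5243 * K ^ 2 := by
    have h1 : (0 : ℝ) < 102400 ^ A := by positivity
    calc (102400 : ℝ) ^ (A + 1) * σ ≤ 102400 ^ (A + 1) * (1024 * δ * K ^ 2) :=
          mul_le_mul_of_nonneg_left hσ1 (by positivity)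
      _ = (20000 * δ * 102400 ^ A) * (102400 * 1024 / 20000 * K ^ 2) := by rw [pow_succ]; ring
      _ ≤ 1 * (102400 * 1024 / 20000 * K ^ 2) := mul_le_mul_of_nonneg_right hA (by positivity)
      _ ≤ 5243 * K ^ 2 := by
          have : 0 ≤ K ^ 2 := sq_nonneg _
          linarith
  have hK2 : K ^ 2 ≤ 1 / 10000 := by nlinarith
  obtain ⟨T, hT1, hTk, hT, hTN, hTA⟩ := scales (v := vt Q P) (vt_zero hc hQ hab)
    (fun s t h => vt_mono hc hQ hab h) hσ0 (fun t => vt_step hc hQ hab t)
    (fun t => vt_mul hc hQ hab t) (vt_large hc hQ hn hab) A (by linarith)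
  have hw : ∀ i < A, 3 / 3200 ≤ ww Q P T i := by
    intro i hi
    refine weight hc hQ hab (hT1 i hi.le) ?_ ?_
    · have := hTk i hi.le
      push_cast
      exact this
    · have := hTN i hi
      push_cast
      exact this
  obtain ⟨as, has0, hasanti, hassum, hasz, hjump⟩ := MM_steps hc hQ hab hT1 hT hw
  obtain ⟨y', hadj, hlarge⟩ := MM_large hc hQ hxy hAQ hδ.le (by linarith) hθ hab hA hw v
  -- the colour of `(v, y')`
  have hcol : c v y' = c x y ∨ c v y' = c y x := by
    rw [constituent, SimpleGraph.fromRel_adj] at hadj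
    rcases hadj.2 with h | h
    · exact Or.inl h
    · exact Or.inr (hc.conv _ _ _ _ h)
  set Y : Finset V := univ.filter fun w => c v w = c v y' with hY
  have hYcard : (Y.card : ℝ) = ({w | c v w = c x y}.ncard : ℝ) := by
    have h1 : Y.card = {w | c v w = c v y'}.ncard := by
      rw [Set.ncard_eq_toFinset_card']
      congr 1
      ext w; simp [hY]
    rw [h1]
    rcases hcol with h | h
    · rw [h]
    · rw [h, card_conv hc]
  have hYM : ∀ w ∈ Y, (A : ℝ) / 2 ≤ MM Q P T A 0 v w := by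
    intro w hw'
    have h1 := (mem_filter.1 hw').2
    rw [MM_mem hc hQ a b T A 0 v w v y' h1]
    exact hlarge
  have hYgood : ∀ w ∈ Y, ∀ k : ℕ, S P (P *ᵥ rate P (c v)) k w ≤ k * K := by
    intro w hw'
    have h1 := (mem_filter.1 hw').2
    refine hgood w ?_
    rcases hcol with h | h
    · exact Or.inl (h1.trans h)
    · exact Or.inr (h1.trans h)
  set τ : ℝ := 1 / (128000000 * K) with hτ
  have hτ0 : 0 < τ := by positivity
  have hTA0 : (0 : ℝ) < T A := by
    have := hT1 A le_rfl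
    exact_mod_cast this
  have hzero : as 0 ≤ 252850 * (5243 * K ^ 2) := by
    refine hasz.trans ?_
    rw [div_le_iff₀ hTA0]
    have h1 : 1 ≤ 5243 * K ^ 2 * T A := by
      refine hTA.trans ?_
      exact mul_le_mul_of_nonneg_right hσ2 hTA0.le
    linarith
  have hτ1 : τ ^ 2 * as 0 ≤ 1 := by
    have h1 : τ ^ 2 = 1 / (128000000 ^ 2 * K ^ 2) := by
      rw [hτ]; field_simp
    rw [h1]
    have hK20 : 0 < K ^ 2 := by positivity
    calc 1 / (128000000 ^ 2 * K ^ 2) * as 0
        ≤ 1 / (128000000 ^ 2 * K ^ 2) * (252850 * (5243 * K ^ 2)) :=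
          mul_le_mul_of_nonneg_left hzero (by positivity)
      _ = 252850 * 5243 / 128000000 ^ 2 := by field_simp
      _ ≤ 1 := by norm_num
  have key := expo (P := P) (col := c v) (M := fun s w => MM Q P T A s v w) (a := as) (τ := τ)
    (A := 32000000 * A) (K := K) hPw hK.le (fun s => MM_succ hc hab T A s v)
    (fun s z w h => MM_mem hc hQ a b T A s v w v z h)
    (by
      intro s w z h
      by_cases hwz : w = z
      · rw [hwz, sub_self]
        simpa using has0 s
      · have hadj' : (constituent c (c a b)).Adj w z := by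
          by_contra hno
          apply h
          rw [hP, lazy_apply, if_neg hwz, W_of_not hno]
          norm_num
        exact hjump s v w z hadj')
    has0 hasanti hassum hτ1
    (by
      intro ε hε
      exact MM_lim hc hQ hab T A v hε) Y hYgood
  have h1 : ∀ w ∈ Y, Real.exp (A / (520000000 * K)) ≤
      Real.exp (τ * MM Q P T A 0 v w - τ ^ 2 * (32000000 * A) * K) := by
    intro w hw'
    refine Real.exp_le_exp.2 ?_
    have h2 := mul_le_mul_of_nonneg_left (hYM w hw') hτ0.le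
    have h3 : τ * ((A : ℝ) / 2) - τ ^ 2 * (32000000 * A) * K = A / (512000000 * K) := by
      rw [hτ]
      field_simp
      ring
    have h4 : (A : ℝ) / (520000000 * K) ≤ A / (512000000 * K) := by
      refine div_le_div_of_nonneg_left (Nat.cast_nonneg _) (by positivity) ?_
      nlinarith
    linarith
  have h2 : (Y.card : ℝ) * Real.exp (A / (520000000 * K)) ≤ Fintype.card V := by
    refine le_trans ?_ key
    rw [← nsmul_eq_mul, ← Finset.sum_const]
    exact Finset.sum_le_sum h1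
  rw [← hYcard, Real.exp_neg, ← div_eq_mul_inv, le_div_iff₀ (Real.exp_pos _)]
  exact h2

end Pool.Agent.Lib.MP_7beb49_co.GS
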