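import Mathlib

/-!
# Cross (module Cross, 75 min): the sum over scales

`x_ab = ∑_{t < S} √(h a t) √(h b t)` is at most `1` for `a = b` (`hs`), and for `a < b`, `r = b - a - 1`, at most
`(3/2) 2^(-r)`: we have `T b * 16^r ≤ T (a+1)`; put `θ = 4^r T b`. For `t < θ`: Cauchy-Schwarz,
`∑_{t<θ} h a t ≤ θ / (32 T (a+1)) ≤ 4^(-r)/32`, `∑ h b t ≤ 1`, so this part is `≤ 2^(-r)/4` (even less). For `t ≥ θ`:
`∑ h a t ≤ 1`, `∑_{θ ≤ t} h b t ≤ T b ∑_{t ≥ θ} 1/(t+1)² ≤ T b / θ = 4^(-r)` (`1/(t+1)² ≤ 1/t - 1/(t+1)`, `θ ≥ 1`), so this part is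
`≤ 2^(-r)`. Together `≤ (3/2) 2^(-r)`. Hence `∑_t (∑_a √(h a t))² = ∑_{a,b} x_ab ≤ A + 2 ∑_a ∑_{r} (3/2) 2^(-r) ≤ 7 A`.
`cross0`: `√(h a 0) ≤ 1/√(32 T (a+1)) ≤ 4^(-(A-1-a)) / √(32 T A)`, the sum is `≤ (4/3)/√(32 T A)`.
-/

set_option autoImplicit false

namespace Pool.Agent.Lib.MP_7beb49_co.GS

open Finset

theorem Cross_T {A : ℕ} {T : ℕ → ℕ} (hT : ∀ a < A, 16 * T (a + 1) ≤ T a) (a r : ℕ)
    (h : a + 1 + r ≤ A) : T (a + 1 + r) * 16 ^ r ≤ T (a + 1) := by
  induction r with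
  | zero => simp
  | succ r ih =>
    have h1 := hT (a + 1 + r) (by omega)
    have h2 := ih (by omega)
    calc T (a + 1 + (r + 1)) * 16 ^ (r + 1) = 16 * T (a + 1 + r + 1) * 16 ^ r := by
          rw [pow_succ, ← add_assoc]; ring
      _ ≤ T (a + 1 + r) * 16 ^ r := Nat.mul_le_mul_right _ h1
      _ ≤ _ := h2

theorem Cross_tail (θ : ℕ) (hθ : 1 ≤ θ) (S : ℕ) :
    ∑ t ∈ (range S).filter (fun t => θ ≤ t), 1 / ((t : ℝ) + 1) ^ 2 ≤
      1 / θ - 1 / ((max θ S : ℕ) : ℝ) := by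
  have hθ0 : (0 : ℝ) < θ := by exact_mod_cast hθ
  induction S with
  | zero => simp
  | succ S ih =>
    rw [Finset.range_add_one, Finset.filter_insert]
    by_cases h : θ ≤ S
    · rw [if_pos h, Finset.sum_insert (by simp), max_eq_right (by omega)]
      rw [max_eq_right h] at ih
      have hS0 : (0 : ℝ) < S := by exact_mod_cast (show 0 < S by omega)
      have h1 : 1 / ((S : ℝ) + 1) ^ 2 ≤ 1 / S - 1 / (S + 1) := by
        have e : 1 / (S : ℝ) - 1 / (S + 1) = 1 / (S * (S + 1)) := by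
          field_simp
          ring
        rw [e]
        refine one_div_le_one_div_of_le (by positivity) ?_
        nlinarith
      push_cast
      linarith
    · rw [if_neg h, max_eq_left (by omega)]
      rw [max_eq_left (by omega)] at ih
      exact ih

theorem Cross_pair {A : ℕ} {T : ℕ → ℕ} {h : ℕ → ℕ → ℝ} (hT : ∀ a < A, 16 * T (a + 1) ≤ T a)
    (hT1 : ∀ a ≤ A, 1 ≤ T a) (h0 : ∀ a t, 0 ≤ h a t)
    (hs : ∀ a < A, ∀ S : ℕ, ∑ t ∈ range S, h a t ≤ 1)
    (hhead : ∀ a < A, ∀ t, h a t ≤ 1 / (32 * T (a + 1)))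
    (htail : ∀ a < A, ∀ t : ℕ, h a t ≤ T a / ((t : ℝ) + 1) ^ 2) (S : ℕ) (a r : ℕ)
    (hab : a + 1 + r < A) :
    ∑ t ∈ range S, √(h a t) * √(h (a + 1 + r) t) ≤ 3 / 2 * (1 / 2) ^ r := by
  set b := a + 1 + r with hb
  have hTb : (0 : ℝ) < T b := by exact_mod_cast (hT1 b (by omega))
  have hTa : (0 : ℝ) < T (a + 1) := by exact_mod_cast (hT1 (a + 1) (by omega))
  set θ : ℕ := 4 ^ r * T b with hθ
  have hθ1 : 1 ≤ θ := Nat.mul_pos (by positivity) (hT1 b (by omega))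
  have hθ0 : (0 : ℝ) < θ := by exact_mod_cast hθ1
  have hTT : (T b : ℝ) * 16 ^ r ≤ T (a + 1) := by exact_mod_cast Cross_T hT a r (by omega)
  rw [← Finset.sum_filter_add_sum_filter_not (range S) (fun t => θ ≤ t)]
  have hsub : ∀ (c : ℕ) (hc : c < A) (p : ℕ → Prop) [DecidablePred p],
      ∑ t ∈ (range S).filter p, h c t ≤ 1 := by
    intro c hc p _
    exact (Finset.sum_le_sum_of_subset_of_nonneg (Finset.filter_subset _ _)
      fun t _ _ => h0 c t).trans (hs c hc S)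
  have h4 : (4 : ℝ) ^ r = 2 ^ r * 2 ^ r := by rw [← mul_pow]; norm_num
  have h16 : (16 : ℝ) ^ r = 4 ^ r * 4 ^ r := by rw [← mul_pow]; norm_num
  have p1 : ∑ t ∈ (range S).filter (fun t => θ ≤ t), √(h a t) * √(h b t) ≤ (1 / 2) ^ r := by
    refine (Real.sum_sqrt_mul_sqrt_le _ (fun t => h0 a t) (fun t => h0 b t)).trans ?_
    have g1 : √(∑ t ∈ (range S).filter (fun t => θ ≤ t), h a t) ≤ 1 := by
      rw [Real.sqrt_le_one]
      exact hsub a (by omega) _
    have g2 : ∑ t ∈ (range S).filter (fun t => θ ≤ t), h b t ≤ ((1 / 2) ^ r) ^ 2 := by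
      calc ∑ t ∈ (range S).filter (fun t => θ ≤ t), h b t
          ≤ ∑ t ∈ (range S).filter (fun t => θ ≤ t), T b * (1 / ((t : ℝ) + 1) ^ 2) := by
            refine Finset.sum_le_sum fun t _ => ?_
            refine (htail b (by omega) t).trans (le_of_eq ?_)
            ring
        _ = T b * ∑ t ∈ (range S).filter (fun t => θ ≤ t), 1 / ((t : ℝ) + 1) ^ 2 := by
            rw [Finset.mul_sum]
        _ ≤ T b * (1 / θ) := by
            refine mul_le_mul_of_nonneg_left ((Cross_tail θ hθ1 S).trans ?_) hTb.le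
            have : (0 : ℝ) ≤ 1 / ((max θ S : ℕ) : ℝ) := by positivity
            linarith
        _ = ((1 / 2) ^ r) ^ 2 := by
            rw [hθ]
            push_cast
            rw [h4, div_pow, one_pow]
            field_simp
    have g3 : √(∑ t ∈ (range S).filter (fun t => θ ≤ t), h b t) ≤ (1 / 2) ^ r :=
      Real.sqrt_le_iff.mpr ⟨by positivity, g2⟩
    calc _ ≤ 1 * ((1 / 2 : ℝ) ^ r) := mul_le_mul g1 g3 (Real.sqrt_nonneg _) zero_le_one
      _ = _ := one_mul _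
  have p2 : ∑ t ∈ (range S).filter (fun t => ¬ θ ≤ t), √(h a t) * √(h b t) ≤
      1 / 2 * (1 / 2) ^ r := by
    refine (Real.sum_sqrt_mul_sqrt_le _ (fun t => h0 a t) (fun t => h0 b t)).trans ?_
    have g1 : √(∑ t ∈ (range S).filter (fun t => ¬ θ ≤ t), h b t) ≤ 1 := by
      rw [Real.sqrt_le_one]
      exact hsub b (by omega) _
    have g2 : ∑ t ∈ (range S).filter (fun t => ¬ θ ≤ t), h a t ≤ (1 / 2 * (1 / 2) ^ r) ^ 2 := by
      have g4 : ((range S).filter (fun t => ¬ θ ≤ t)).card ≤ θ := by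
        have g5 : (range S).filter (fun t => ¬ θ ≤ t) ⊆ range θ := by
          intro t ht
          rw [Finset.mem_filter] at ht
          exact Finset.mem_range.mpr (not_le.mp ht.2)
        exact (Finset.card_le_card g5).trans (le_of_eq (Finset.card_range _))
      have g6 : (((range S).filter (fun t => ¬ θ ≤ t)).card : ℝ) ≤ θ := by exact_mod_cast g4
      calc ∑ t ∈ (range S).filter (fun t => ¬ θ ≤ t), h a t
          ≤ ∑ t ∈ (range S).filter (fun t => ¬ θ ≤ t), 1 / (32 * (T (a + 1) : ℝ)) :=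
            Finset.sum_le_sum fun t _ => hhead a (by omega) t
        _ = (((range S).filter (fun t => ¬ θ ≤ t)).card : ℝ) * (1 / (32 * (T (a + 1) : ℝ))) := by
            rw [Finset.sum_const, nsmul_eq_mul]
        _ ≤ θ * (1 / (32 * (T (a + 1) : ℝ))) := by gcongr
        _ ≤ θ * (1 / (32 * ((T b : ℝ) * 16 ^ r))) := by gcongr
        _ ≤ (1 / 2 * (1 / 2) ^ r) ^ 2 := by
            rw [hθ]
            push_cast
            have e1 : (4 : ℝ) ^ r * T b * (1 / (32 * (T b * 16 ^ r))) = 1 / 32 * (1 / 4 ^ r) := by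
              rw [h16]
              field_simp
            have e2 : (1 / 2 * (1 / 2 : ℝ) ^ r) ^ 2 = 1 / 4 * (1 / 4 ^ r) := by
              rw [h4, div_pow, one_pow, mul_pow, div_pow, div_pow, one_pow]
              ring
            rw [e1, e2]
            have : (0 : ℝ) < 1 / 4 ^ r := by positivity
            linarith
    have g3 : √(∑ t ∈ (range S).filter (fun t => ¬ θ ≤ t), h a t) ≤ 1 / 2 * (1 / 2) ^ r :=
      Real.sqrt_le_iff.mpr ⟨by positivity, g2⟩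
    calc _ ≤ (1 / 2 * (1 / 2 : ℝ) ^ r) * 1 := mul_le_mul g3 g1 (Real.sqrt_nonneg _) (by positivity)
      _ = _ := mul_one _
  linarith

theorem Cross_geom (x : ℝ) (hx0 : 0 ≤ x) (hx1 : x < 1) (A : ℕ) :
    ∑ a ∈ range A, x ^ (A - 1 - a) ≤ 1 / (1 - x) := by
  rw [Finset.sum_range_reflect (fun j => x ^ j) A]
  rw [le_div_iff₀ (by linarith), geom_sum_mul_neg]
  have : 0 ≤ x ^ A := by positivity
  linarith

theorem cross {A : ℕ} {T : ℕ → ℕ} {h : ℕ → ℕ → ℝ} (hT : ∀ a < A, 16 * T (a + 1) ≤ T a)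
    (hT1 : ∀ a ≤ A, 1 ≤ T a) (h0 : ∀ a t, 0 ≤ h a t)
    (hs : ∀ a < A, ∀ S : ℕ, ∑ t ∈ range S, h a t ≤ 1)
    (hhead : ∀ a < A, ∀ t, h a t ≤ 1 / (32 * T (a + 1)))
    (htail : ∀ a < A, ∀ t : ℕ, h a t ≤ T a / ((t : ℝ) + 1) ^ 2) (S : ℕ) :
    ∑ t ∈ range S, (∑ a ∈ range A, √(h a t)) ^ 2 ≤ 7 * A := by
  have key : ∀ B ≤ A, ∑ t ∈ range S, (∑ a ∈ range B, √(h a t)) ^ 2 ≤ 7 * B := by
    intro B
    induction B with
    | zero => intro _; simp
    | succ B ih =>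
      intro hB
      have ih' := ih (by omega)
      have e1 : ∀ t, (∑ a ∈ range (B + 1), √(h a t)) ^ 2 =
          (∑ a ∈ range B, √(h a t)) ^ 2 + 2 * (∑ a ∈ range B, √(h a t) * √(h B t)) + h B t := by
        intro t
        rw [Finset.sum_range_succ, ← Finset.sum_mul]
        have : h B t = √(h B t) * √(h B t) := (Real.mul_self_sqrt (h0 B t)).symm
        nth_rewrite 3 [this]
        ring
      rw [Finset.sum_congr rfl fun t _ => e1 t, Finset.sum_add_distrib, Finset.sum_add_distrib,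
        ← Finset.mul_sum, Finset.sum_comm]
      have h1 : ∑ a ∈ range B, ∑ t ∈ range S, √(h a t) * √(h B t) ≤
          ∑ a ∈ range B, 3 / 2 * (1 / 2 : ℝ) ^ (B - 1 - a) := by
        refine Finset.sum_le_sum fun a ha => ?_
        have ha' := Finset.mem_range.mp ha
        have e : B = a + 1 + (B - 1 - a) := by omega
        have h2 := Cross_pair hT hT1 h0 hs hhead htail S a (B - 1 - a) (by omega)
        rw [← e] at h2
        exact h2
      have h3 : ∑ a ∈ range B, 3 / 2 * (1 / 2 : ℝ) ^ (B - 1 - a) ≤ 3 := by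
        rw [← Finset.mul_sum]
        have := Cross_geom (1 / 2) (by norm_num) (by norm_num) B
        norm_num at this ⊢
        linarith
      have h4 := hs B (by omega) S
      push_cast
      linarith
  exact key A le_rfl

theorem cross0 {A : ℕ} {T : ℕ → ℕ} {h : ℕ → ℕ → ℝ} (hT : ∀ a < A, 16 * T (a + 1) ≤ T a)
    (hT1 : ∀ a ≤ A, 1 ≤ T a) (h0 : ∀ a t, 0 ≤ h a t)
    (hhead : ∀ a < A, ∀ t, h a t ≤ 1 / (32 * T (a + 1))) :
    (∑ a ∈ range A, √(h a 0)) ^ 2 ≤ 1 / (18 * T A) := by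
  have hTA : (0 : ℝ) < T A := by exact_mod_cast (hT1 A le_rfl)
  set c : ℝ := √(1 / (32 * T A)) with hc
  have hc2 : c ^ 2 = 1 / (32 * T A) := Real.sq_sqrt (by positivity)
  have hc0 : 0 ≤ c := Real.sqrt_nonneg _
  have h1 : ∀ a ∈ range A, √(h a 0) ≤ (1 / 4) ^ (A - 1 - a) * c := by
    intro a ha
    have ha' := Finset.mem_range.mp ha
    refine Real.sqrt_le_iff.mpr ⟨by positivity, ?_⟩
    have hTa : (0 : ℝ) < T (a + 1) := by exact_mod_cast (hT1 (a + 1) (by omega))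
    have e : A = a + 1 + (A - 1 - a) := by omega
    have h2 := Cross_T hT a (A - 1 - a) (by omega)
    rw [← e] at h2
    have h3 : (T A : ℝ) * 16 ^ (A - 1 - a) ≤ T (a + 1) := by exact_mod_cast h2
    refine (hhead a ha' 0).trans ?_
    rw [mul_pow, hc2, ← pow_mul, mul_comm (A - 1 - a) 2, pow_mul]
    have e2 : ((1 / 4 : ℝ) ^ 2) ^ (A - 1 - a) * (1 / (32 * T A)) =
        1 / (32 * (T A * 16 ^ (A - 1 - a))) := by
      rw [show (1 / 4 : ℝ) ^ 2 = 1 / 16 by norm_num, div_pow, one_pow]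
      field_simp
    rw [e2]
    gcongr
  have h5 : ∑ a ∈ range A, √(h a 0) ≤ 4 / 3 * c := by
    refine (Finset.sum_le_sum h1).trans ?_
    rw [← Finset.sum_mul]
    refine mul_le_mul_of_nonneg_right ?_ hc0
    have := Cross_geom (1 / 4) (by norm_num) (by norm_num) A
    norm_num at this ⊢
    exact this
  have h6 : 0 ≤ ∑ a ∈ range A, √(h a 0) := Finset.sum_nonneg fun a _ => Real.sqrt_nonneg _
  calc (∑ a ∈ range A, √(h a 0)) ^ 2 ≤ (4 / 3 * c) ^ 2 := pow_le_pow_left₀ h6 h5 2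
    _ = 16 / 9 * c ^ 2 := by ring
    _ = _ := by rw [hc2]; field_simp; norm_num

end Pool.Agent.Lib.MP_7beb49_co.GS
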