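import Pool.Agent.Lib.MP_7beb49_co.Hopf

/-!
# Exit (module Exit, 75 min): exponential tail of the displacement of a homogeneous walk

Fix `x`. Killed walk: `kl 0 z = (if z = x then 1 else 0)`, and `kl (s+1) z = (∑ y, kl s y * P y z)` if `ρ x z < r`, else `0`;
`ex (s+1) z` = the same sum if `r ≤ ρ x z`, else `0`. All are `≥ 0`, and (first exit decomposition, induction on `t`)
`(P^t) x y = kl t y + ∑_{s < t} ∑ z, ex (s+1) z * (P^(t-1-s)) z y`. Let `E = ∑_{s < T} ∑ z, ex (s+1) z`.
(1) `E/2 ≤ p := ∑ y, (P^T) x y [r/2 ≤ ρ x y]`: for `r ≤ ρ x z` we have `[r/2 ≤ ρ x y] ≥ 1 - [r/2 ≤ ρ z y]` (triangle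
inequality), and `∑ y (P^m) z y (1 - [r/2 ≤ ρ z y]) ≥ 1/2` for `m ≤ T` by `hhalf` and `hhom`. So `E ≤ 2 p`.
(2) induction on `j`: for `j+1` and `t ≤ T`: `kl t y` is zero if `ρ x y ≥ (j+1)(r+σ) ≥ r`; if `ex (s+1) z ≠ 0` then
`ρ x z ≤ r + σ` (the last step starts at a point with `ρ < r`), so `(j+1)(r+σ) ≤ ρ x y` implies `j (r+σ) ≤ ρ z y`; by `hhom` and
the induction hypothesis the sum is `≤ E (2p)^j ≤ (2p)^(j+1)`. For `j = 0` the sum is at most `1`. (`s = 0`: the start `x` has
`ρ x x = 0 < r`, from `htri`, `hρ0`? `ρ x x = 0` is a hypothesis.)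
-/

set_option autoImplicit false
set_option linter.unusedSectionVars false
set_option linter.unusedVariables false

namespace Pool.Agent.Lib.MP_7beb49_co.GS

open Finset Matrix Walk

variable {V : Type} [Fintype V] [DecidableEq V]

/-- The killed walk: the mass that never left the ball of radius `r` around `x`. -/
noncomputable def exitKl (P : Matrix V V ℝ) (ρ : V → V → ℝ) (r : ℝ) (x : V) : ℕ → V → ℝ
  | 0 => fun z => if z = x then 1 else 0
  | s + 1 => fun z => if ρ x z < r then ∑ y, exitKl P ρ r x s y * P y z else 0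

/-- The mass that leaves the ball at time `s + 1`. -/
noncomputable def exitEx (P : Matrix V V ℝ) (ρ : V → V → ℝ) (r : ℝ) (x : V) (s : ℕ) (z : V) : ℝ :=
  if ρ x z < r then 0 else ∑ y, exitKl P ρ r x s y * P y z

theorem exit_kl_nonneg {P : Matrix V V ℝ} (hP : IsWalk P) {ρ : V → V → ℝ} {r : ℝ} {x : V} :
    ∀ (s : ℕ) (z : V), 0 ≤ exitKl P ρ r x s z
  | 0, z => by
    change 0 ≤ (if z = x then (1 : ℝ) else 0)
    split_ifs <;> norm_num
  | s + 1, z => by
    change 0 ≤ (if ρ x z < r then ∑ y, exitKl P ρ r x s y * P y z else 0)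
    split_ifs
    · exact Finset.sum_nonneg fun y _ => mul_nonneg (exit_kl_nonneg hP s y) (hP.nonneg y z)
    · exact le_rfl

theorem exit_ex_nonneg {P : Matrix V V ℝ} (hP : IsWalk P) {ρ : V → V → ℝ} {r : ℝ} {x : V}
    (s : ℕ) (z : V) : 0 ≤ exitEx P ρ r x s z := by
  unfold exitEx
  split_ifs
  · exact le_rfl
  · exact Finset.sum_nonneg fun y _ => mul_nonneg (exit_kl_nonneg hP s y) (hP.nonneg y z)

theorem exit_pow_nonneg {P : Matrix V V ℝ} (hP : IsWalk P) (t : ℕ) (x y : V) :
    0 ≤ (P ^ t) x y := by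
  induction t generalizing x y with
  | zero =>
    rw [pow_zero, Matrix.one_apply]
    split_ifs <;> norm_num
  | succ t ih =>
    rw [pow_succ, Matrix.mul_apply]
    exact Finset.sum_nonneg fun z _ => mul_nonneg (ih x z) (hP.nonneg z y)

theorem exit_pow_sum {P : Matrix V V ℝ} (hP : IsWalk P) (t : ℕ) (x : V) :
    ∑ y, (P ^ t) x y = 1 := by
  induction t generalizing x with
  | zero => simp [Matrix.one_apply]
  | succ t ih =>
    have h1 : ∀ y, (P ^ (t + 1)) x y = ∑ z, (P ^ t) x z * P z y := fun y => by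
      rw [pow_succ, Matrix.mul_apply]
    simp only [h1]
    rw [Finset.sum_comm]
    have h2 : ∀ z, ∑ y, (P ^ t) x z * P z y = (P ^ t) x z := fun z => by
      rw [← Finset.mul_sum, hP.sum, mul_one]
    simp only [h2, ih]

/-- The first exit decomposition. -/
theorem exit_decomp (P : Matrix V V ℝ) (ρ : V → V → ℝ) (r : ℝ) (x : V) (t : ℕ) (y : V) :
    (P ^ t) x y = exitKl P ρ r x t y +
      ∑ s ∈ range t, ∑ z, exitEx P ρ r x s z * (P ^ (t - 1 - s)) z y := by
  induction t generalizing y with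
  | zero =>
    rw [Finset.range_zero, Finset.sum_empty, add_zero, pow_zero, Matrix.one_apply]
    change _ = (if y = x then (1 : ℝ) else 0)
    simp only [eq_comm]
  | succ t ih =>
    have hs : ∑ w, exitKl P ρ r x t w * P w y = exitKl P ρ r x (t + 1) y + exitEx P ρ r x t y := by
      change _ = (if ρ x y < r then ∑ w, exitKl P ρ r x t w * P w y else 0) +
        (if ρ x y < r then 0 else ∑ w, exitKl P ρ r x t w * P w y)
      split_ifs <;> simp
    have hlast : ∑ z, exitEx P ρ r x t z * (P ^ (t + 1 - 1 - t)) z y = exitEx P ρ r x t y := by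
      rw [Nat.add_sub_cancel, Nat.sub_self, pow_zero]
      simp [Matrix.one_apply]
    rw [Finset.sum_range_succ, hlast, pow_succ, Matrix.mul_apply]
    have h1 : ∀ w, (P ^ t) x w * P w y = exitKl P ρ r x t w * P w y +
        ∑ s ∈ range t, ∑ z, exitEx P ρ r x s z * ((P ^ (t - 1 - s)) z w * P w y) := fun w => by
      rw [ih w, add_mul, Finset.sum_mul]
      congr 1
      refine Finset.sum_congr rfl fun s _ => ?_
      rw [Finset.sum_mul]
      exact Finset.sum_congr rfl fun z _ => mul_assoc _ _ _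
    rw [Finset.sum_congr rfl fun w _ => h1 w, Finset.sum_add_distrib, hs]
    have h2 : ∑ w, ∑ s ∈ range t, ∑ z, exitEx P ρ r x s z * ((P ^ (t - 1 - s)) z w * P w y) =
        ∑ s ∈ range t, ∑ z, exitEx P ρ r x s z * (P ^ (t + 1 - 1 - s)) z y := by
      rw [Finset.sum_comm]
      refine Finset.sum_congr rfl fun s hs => ?_
      rw [Finset.sum_comm]
      refine Finset.sum_congr rfl fun z _ => ?_
      rw [← Finset.mul_sum]
      have hst := Finset.mem_range.1 hs
      have he : t + 1 - 1 - s = (t - 1 - s) + 1 := by omega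
      rw [he, pow_succ (P) (t - 1 - s), Matrix.mul_apply]
    rw [h2]
    ring

theorem exit_decomp_sum (P : Matrix V V ℝ) (ρ : V → V → ℝ) (r : ℝ) (x : V) (t : ℕ) (f : V → ℝ) :
    ∑ y, (P ^ t) x y * f y = ∑ y, exitKl P ρ r x t y * f y +
      ∑ s ∈ range t, ∑ z, exitEx P ρ r x s z * ∑ y, (P ^ (t - 1 - s)) z y * f y := by
  have h1 : ∀ y, (P ^ t) x y * f y = exitKl P ρ r x t y * f y +
      ∑ s ∈ range t, ∑ z, exitEx P ρ r x s z * ((P ^ (t - 1 - s)) z y * f y) := fun y => by
    rw [exit_decomp P ρ r x t y, add_mul, Finset.sum_mul]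
    congr 1
    refine Finset.sum_congr rfl fun s _ => ?_
    rw [Finset.sum_mul]
    exact Finset.sum_congr rfl fun z _ => mul_assoc _ _ _
  rw [Finset.sum_congr rfl fun y _ => h1 y, Finset.sum_add_distrib]
  congr 1
  rw [Finset.sum_comm]
  refine Finset.sum_congr rfl fun s _ => ?_
  rw [Finset.sum_comm]
  refine Finset.sum_congr rfl fun z _ => ?_
  rw [Finset.mul_sum]

open Classical in
theorem exit_tail {P : Matrix V V ℝ} (hP : IsWalk P) {ρ : V → V → ℝ} (hρ0 : ∀ x y, 0 ≤ ρ x y)
    (hρx : ∀ x, ρ x x = 0) (hρs : ∀ x y, ρ x y = ρ y x)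
    (htri : ∀ x y z, ρ x z ≤ ρ x y + ρ y z)
    (hhom : ∀ (s : ℝ) (t : ℕ) (x x' : V), ∑ y, (P ^ t) x y * (if s ≤ ρ x y then 1 else 0) =
      ∑ y, (P ^ t) x' y * (if s ≤ ρ x' y then 1 else 0))
    {σ r : ℝ} (hσ0 : 0 ≤ σ) (hσ : ∀ y z, P y z ≠ 0 → ρ y z ≤ σ) (hr : 0 < r) {T : ℕ} (x : V)
    (hhalf : ∀ t ≤ T, ∑ y, (P ^ t) x y * (if r / 2 ≤ ρ x y then 1 else 0) ≤ 1 / 2) (j : ℕ) :
    ∀ t ≤ T, ∑ y, (P ^ t) x y * (if j * (r + σ) ≤ ρ x y then 1 else 0) ≤
      (2 * ∑ y, (P ^ T) x y * (if r / 2 ≤ ρ x y then 1 else 0)) ^ j := by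
  classical
  set p : ℝ := ∑ y, (P ^ T) x y * (if r / 2 ≤ ρ x y then 1 else 0) with hp
  have hind : ∀ (q : Prop) [Decidable q], (0 : ℝ) ≤ (if q then 1 else 0) := by
    intro q _
    split_ifs <;> norm_num
  have hind1 : ∀ (q : Prop) [Decidable q], (if q then (1 : ℝ) else 0) ≤ 1 := by
    intro q _
    split_ifs <;> norm_num
  have hp0 : 0 ≤ p := Finset.sum_nonneg fun y _ => mul_nonneg (exit_pow_nonneg hP T x y) (hind _)
  have hE : ∑ s ∈ range T, ∑ z, exitEx P ρ r x s z ≤ 2 * p := by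
    have h1 : ∀ s ∈ range T, ∀ z, exitEx P ρ r x s z * (1 / 2) ≤
        exitEx P ρ r x s z * ∑ y, (P ^ (T - 1 - s)) z y * (if r / 2 ≤ ρ x y then 1 else 0) := by
      intro s _ z
      by_cases hz : ρ x z < r
      · have : exitEx P ρ r x s z = 0 := if_pos hz
        rw [this, zero_mul, zero_mul]
      · refine mul_le_mul_of_nonneg_left ?_ (exit_ex_nonneg hP s z)
        have h2 : ∀ y, (P ^ (T - 1 - s)) z y - (P ^ (T - 1 - s)) z y *
            (if r / 2 ≤ ρ z y then 1 else 0) ≤
            (P ^ (T - 1 - s)) z y * (if r / 2 ≤ ρ x y then 1 else 0) := by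
          intro y
          have hnn := exit_pow_nonneg hP (T - 1 - s) z y
          have htr := htri x y z
          rw [hρs y z] at htr
          by_cases ha : r / 2 ≤ ρ x y
          · rw [if_pos ha]
            have := mul_nonneg hnn (hind (r / 2 ≤ ρ z y))
            linarith
          · have hb : r / 2 ≤ ρ z y := by
              push Not at ha hz
              linarith
            rw [if_pos hb, if_neg ha]
            linarith
        have h3 := Finset.sum_le_sum fun y (_ : y ∈ univ) => h2 y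
        rw [Finset.sum_sub_distrib, exit_pow_sum hP, hhom (r / 2) (T - 1 - s) z x] at h3
        have h4 := hhalf (T - 1 - s) (by omega)
        linarith
    have h5 : p = ∑ y, exitKl P ρ r x T y * (if r / 2 ≤ ρ x y then 1 else 0) +
        ∑ s ∈ range T, ∑ z, exitEx P ρ r x s z *
          ∑ y, (P ^ (T - 1 - s)) z y * (if r / 2 ≤ ρ x y then 1 else 0) :=
      exit_decomp_sum P ρ r x T _
    have h6 : 0 ≤ ∑ y, exitKl P ρ r x T y * (if r / 2 ≤ ρ x y then (1 : ℝ) else 0) :=
      Finset.sum_nonneg fun y _ => mul_nonneg (exit_kl_nonneg hP T y) (hind _)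
    have h7 : ∑ s ∈ range T, ∑ z, exitEx P ρ r x s z * (1 / 2) ≤
        ∑ s ∈ range T, ∑ z, exitEx P ρ r x s z *
          ∑ y, (P ^ (T - 1 - s)) z y * (if r / 2 ≤ ρ x y then 1 else 0) :=
      Finset.sum_le_sum fun s hs => Finset.sum_le_sum fun z _ => h1 s hs z
    have h8 : ∑ s ∈ range T, ∑ z, exitEx P ρ r x s z * (1 / 2) =
        (∑ s ∈ range T, ∑ z, exitEx P ρ r x s z) * (1 / 2) := by
      rw [Finset.sum_mul]
      exact Finset.sum_congr rfl fun s _ => (Finset.sum_mul _ _ _).symm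
    rw [h8] at h7
    linarith
  have hklzero : ∀ (t : ℕ) (y : V), r ≤ ρ x y → exitKl P ρ r x t y = 0 := by
    intro t y hy
    cases t with
    | zero =>
      change (if y = x then (1 : ℝ) else 0) = 0
      rw [if_neg]
      rintro rfl
      rw [hρx] at hy
      exact absurd hy (not_le.2 hr)
    | succ t =>
      change (if ρ x y < r then ∑ w, exitKl P ρ r x t w * P w y else 0) = 0
      rw [if_neg (not_lt.2 hy)]
  have hexzero : ∀ (s : ℕ) (z : V), r + σ < ρ x z → exitEx P ρ r x s z = 0 := by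
    intro s z hz
    unfold exitEx
    split_ifs with hlt
    · rfl
    · refine Finset.sum_eq_zero fun y _ => ?_
      by_cases hy : r ≤ ρ x y
      · rw [hklzero s y hy, zero_mul]
      · by_cases hPz : P y z = 0
        · rw [hPz, mul_zero]
        · exfalso
          have h1 := hσ y z hPz
          have h2 := htri x y z
          push Not at hy
          linarith
  induction j with
  | zero =>
    intro t _
    rw [pow_zero]
    refine le_trans (Finset.sum_le_sum fun y _ => ?_) (exit_pow_sum hP t x).le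
    exact mul_le_of_le_one_right (exit_pow_nonneg hP t x y) (hind1 _)
  | succ j ih =>
    intro t ht
    rw [exit_decomp_sum P ρ r x t]
    have hrσ : 0 < r + σ := by linarith
    have hj0 : (0 : ℝ) ≤ j := Nat.cast_nonneg j
    have hjr : r ≤ ((j + 1 : ℕ) : ℝ) * (r + σ) := by
      push_cast
      nlinarith [mul_nonneg hj0 hrσ.le]
    have h1 : ∑ y, exitKl P ρ r x t y *
        (if ((j + 1 : ℕ) : ℝ) * (r + σ) ≤ ρ x y then (1 : ℝ) else 0) = 0 := by
      refine Finset.sum_eq_zero fun y _ => ?_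
      by_cases hy : ((j + 1 : ℕ) : ℝ) * (r + σ) ≤ ρ x y
      · rw [hklzero t y (hjr.trans hy), zero_mul]
      · rw [if_neg hy, mul_zero]
    rw [h1, zero_add]
    have hpj : 0 ≤ (2 * p) ^ j := pow_nonneg (by linarith) j
    have h2 : ∀ s ∈ range t, ∀ z, exitEx P ρ r x s z * ∑ y, (P ^ (t - 1 - s)) z y *
        (if ((j + 1 : ℕ) : ℝ) * (r + σ) ≤ ρ x y then (1 : ℝ) else 0) ≤
        exitEx P ρ r x s z * (2 * p) ^ j := by
      intro s _ z
      by_cases hz : r + σ < ρ x z
      · rw [hexzero s z hz, zero_mul, zero_mul]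
      · refine mul_le_mul_of_nonneg_left ?_ (exit_ex_nonneg hP s z)
        calc ∑ y, (P ^ (t - 1 - s)) z y *
              (if ((j + 1 : ℕ) : ℝ) * (r + σ) ≤ ρ x y then (1 : ℝ) else 0)
            ≤ ∑ y, (P ^ (t - 1 - s)) z y * (if (j : ℝ) * (r + σ) ≤ ρ z y then (1 : ℝ) else 0) := by
              refine Finset.sum_le_sum fun y _ => ?_
              refine mul_le_mul_of_nonneg_left ?_ (exit_pow_nonneg hP _ z y)
              by_cases hy : ((j + 1 : ℕ) : ℝ) * (r + σ) ≤ ρ x y
              · have h3 : (j : ℝ) * (r + σ) ≤ ρ z y := by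
                  have h4 := htri x z y
                  push Not at hz
                  push_cast at hy
                  linarith
                rw [if_pos hy, if_pos h3]
              · rw [if_neg hy]
                exact hind _
          _ = ∑ y, (P ^ (t - 1 - s)) x y * (if (j : ℝ) * (r + σ) ≤ ρ x y then (1 : ℝ) else 0) :=
              hhom _ _ z x
          _ ≤ (2 * p) ^ j := ih _ (by omega)
    calc ∑ s ∈ range t, ∑ z, exitEx P ρ r x s z * ∑ y, (P ^ (t - 1 - s)) z y *
          (if ((j + 1 : ℕ) : ℝ) * (r + σ) ≤ ρ x y then (1 : ℝ) else 0)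
        ≤ ∑ s ∈ range t, ∑ z, exitEx P ρ r x s z * (2 * p) ^ j :=
          Finset.sum_le_sum fun s hs => Finset.sum_le_sum fun z _ => h2 s hs z
      _ = (∑ s ∈ range t, ∑ z, exitEx P ρ r x s z) * (2 * p) ^ j := by
          rw [Finset.sum_mul]
          exact Finset.sum_congr rfl fun s _ => (Finset.sum_mul _ _ _).symm
      _ ≤ (∑ s ∈ range T, ∑ z, exitEx P ρ r x s z) * (2 * p) ^ j := by
          refine mul_le_mul_of_nonneg_right ?_ hpj
          refine Finset.sum_le_sum_of_subset_of_nonneg (Finset.range_subset_range.2 ht) ?_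
          intro s _ _
          exact Finset.sum_nonneg fun z _ => exit_ex_nonneg hP s z
      _ ≤ (2 * p) * (2 * p) ^ j := mul_le_mul_of_nonneg_right hE hpj
      _ = (2 * p) ^ (j + 1) := by ring

end Pool.Agent.Lib.MP_7beb49_co.GS
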