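import Pool.Agent.Lib.MP_7beb49_co.LogRankMain

/-!
# The multi-scale bound: definitions

`Q` is the spectral projection of a constituent, `u = Q / Q x x`. `ker Q k` is the matrix with the
entries `u ^ (2 k)`, `mo K P p = tr (K p(P)) / n`, and `vt Q P t` is the mean of `1 - u²` after `t`
steps of the walk `P`.
-/

set_option autoImplicit false

namespace Pool.Agent.Lib.MP_7beb49_co.GS

open Finset Matrix Walk LogRank Polynomial

variable {V : Type} [Fintype V] [DecidableEq V]

/-- The `k`-th Schur power of the square of the normalised projection. -/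
noncomputable def ker (Q : Matrix V V ℝ) (k : ℕ) : Matrix V V ℝ :=
  Matrix.of fun x y => ((Q x y / Q x x) ^ 2) ^ k

/-- The normalised trace of `K p(P)`. -/
noncomputable def mo (K P : Matrix V V ℝ) (p : ℝ[X]) : ℝ :=
  (K * aeval P p).trace / Fintype.card V

/-- The mean of `1 - u²` after `t` steps. -/
noncomputable def vt (Q P : Matrix V V ℝ) (t : ℕ) : ℝ := 1 - mo (ker Q 1) P (X ^ t)

end Pool.Agent.Lib.MP_7beb49_co.GS
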