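import Pool.Agent.Lib.MP_7beb49_co_gs.Psd

/-!
# Jump (module Jump, 50 min): jumps and sizes of the entries of `K p(P)`

`P = lazy (W c (c a b))`, `K` positive semidefinite in the algebra. Copy `LogRank.jump` and
`LogRank.entry_le` (Pool/Agent/Lib/MP_7beb49_co/Steps.lean). Write `K = Bᵀ B`
(`Matrix.PosSemidef` factorisation, e.g. `Matrix.posSemidef_iff_eq_conjTranspose_mul_self`), `H = B p(P)`; then
`(K p(P)) x z = ∑ w, B w x * H w z`, Cauchy-Schwarz gives `(…)² ≤ (∑ w, B w x²) ∑ w, (H w z - H w y)²`,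
the first factor is `K x x`, the second is `2 (G a a - G a b)` for `G = Hᵀ H = p(P) K p(P) ∈ alg hc` (symmetric), and
`trace_rel` gives `G a a - G a b = (2/n)(tr G - tr (G P)) = 2 mo K P (p² (1 - X))`
(cyclicity of the trace, `aeval` is multiplicative).
-/

set_option autoImplicit false
set_option linter.unusedSectionVars false

namespace Pool.Agent.Lib.MP_7beb49_co.GS

open Finset Matrix Walk LogRank Polynomial

variable {V κ : Type} [Fintype V] [DecidableEq V] {c : V → V → κ}

open scoped MatrixOrder in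
theorem Jump_fac {K : Matrix V V ℝ} (hK : K.PosSemidef) :
    ∃ B : Matrix V V ℝ, K = B.transpose * B := by
  obtain ⟨B, hB⟩ := CStarAlgebra.nonneg_iff_eq_star_mul_self.mp hK.nonneg
  exact ⟨B, by rw [hB, Matrix.star_eq_conjTranspose, Matrix.conjTranspose_eq_transpose_of_trivial]⟩

theorem Jump_entry {K B G0 : Matrix V V ℝ} (hB : K = B.transpose * B) (x z : V) :
    (K * G0) x z = ∑ w, B w x * (B * G0) w z := by
  rw [hB, Matrix.mul_assoc, Matrix.mul_apply]
  rfl

theorem Jump_diag {K B : Matrix V V ℝ} (hB : K = B.transpose * B) (x : V) :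
    ∑ w, B w x ^ 2 = K x x := by
  rw [hB, Matrix.mul_apply]
  exact Finset.sum_congr rfl fun w _ => by rw [transpose_apply]; ring

theorem Jump_gram {K B G0 : Matrix V V ℝ} (hB : K = B.transpose * B) (hs : G0.transpose = G0) :
    (B * G0).transpose * (B * G0) = G0 * K * G0 := by
  rw [transpose_mul, hs, hB]
  simp only [Matrix.mul_assoc]

theorem Jump_trace {K P : Matrix V V ℝ} (p q : ℝ[X]) :
    (aeval P p * K * aeval P p * aeval P q).trace = (K * aeval P (p ^ 2 * q)).trace := by
  have e : aeval P (p ^ 2 * q) = aeval P p * aeval P q * aeval P p := by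
    rw [← map_mul, ← map_mul]
    congr 1
    ring
  rw [e, Matrix.mul_assoc, Matrix.mul_assoc, Matrix.trace_mul_comm]
  simp only [Matrix.mul_assoc]

theorem jump_psd (hc : IsPCC c) {K : Matrix V V ℝ} (hK : K.PosSemidef) (hKm : K ∈ alg hc)
    {a b : V} (hab : a ≠ b) (p : ℝ[X]) (x : V) {y z : V}
    (h : (constituent c (c a b)).Adj y z) :
    ((K * aeval (lazy (W c (c a b))) p) x z - (K * aeval (lazy (W c (c a b))) p) x y) ^ 2 ≤
      K x x * (4 * mo K (lazy (W c (c a b))) (p ^ 2 * (1 - X))) := by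
  set P := lazy (W c (c a b)) with hP
  have hPs : P.transpose = P := lazy_sym hc hab
  have hPm : P ∈ alg hc := lazy_mem hc _
  obtain ⟨B, hB⟩ := Jump_fac hK
  set G0 := aeval P p with hG0
  have hG0s : G0.transpose = G0 := aeval_sym hPs p
  have hG0m : G0 ∈ alg hc := aeval_mem hc hPm p
  set H := B * G0 with hH
  set G := H.transpose * H with hG
  have hG' : G = G0 * K * G0 := Jump_gram hB hG0s
  have hGm : G ∈ alg hc := by
    rw [hG']
    exact (alg hc).mul_mem ((alg hc).mul_mem hG0m hKm) hG0m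
  have hGs : G.transpose = G := by rw [hG, transpose_mul, transpose_transpose]
  have h1 : (K * G0) x z - (K * G0) x y = ∑ w, B w x * (H w z - H w y) := by
    rw [Jump_entry hB, Jump_entry hB, ← Finset.sum_sub_distrib]
    exact Finset.sum_congr rfl fun w _ => by ring
  have h2 : ∑ w, (H w z - H w y) ^ 2 = 2 * (G a a - G a b) := by
    have e : ∀ y z, G y z = ∑ w, H w y * H w z := by
      intro y z
      rw [hG, Matrix.mul_apply]
      rfl
    have e1 : ∑ w, (H w z - H w y) ^ 2 = G z z - 2 * G y z + G y y := by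
      rw [e, e, e, Finset.mul_sum, ← Finset.sum_sub_distrib, ← Finset.sum_add_distrib]
      exact Finset.sum_congr rfl fun w _ => by ring
    rw [e1, edge_eq hc hGm hGs h, hGm z z a a (hc.homogeneous z a),
      hGm y y a a (hc.homogeneous y a)]
    ring
  have h3 : ((K * G0) x z - (K * G0) x y) ^ 2 ≤ K x x * (2 * (G a a - G a b)) := by
    rw [h1, ← h2]
    refine (Finset.sum_mul_sq_le_sq_mul_sq _ _ _).trans (le_of_eq ?_)
    rw [Jump_diag hB]
  refine h3.trans (le_of_eq ?_)
  have h4 := trace_rel hc hGm hGs hab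
  rw [← hP] at h4
  have h5 : G.trace = (K * aeval P (p ^ 2 * 1)).trace := by
    rw [← Jump_trace, map_one, mul_one, hG']
  have h6 : (G * P).trace = (K * aeval P (p ^ 2 * X)).trace := by
    rw [← Jump_trace, aeval_X, hG']
  have h7 : mo K P (p ^ 2 * (1 - X)) = (G.trace - (G * P).trace) / Fintype.card V := by
    rw [mo, h5, h6, ← Matrix.trace_sub, ← mul_sub, ← map_sub]
    congr 4
    ring
  rw [h7, h4]
  have hn : (Fintype.card V : ℝ) ≠ 0 := by
    have : 0 < Fintype.card V := Fintype.card_pos_iff.2 ⟨a⟩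
    positivity
  field_simp
  ring

theorem entry_psd (hc : IsPCC c) {K : Matrix V V ℝ} (hK : K.PosSemidef) (hKm : K ∈ alg hc)
    {a b : V} (hab : a ≠ b) (p : ℝ[X]) (x y : V) :
    ((K * aeval (lazy (W c (c a b))) p) x y) ^ 2 ≤
      K x x * mo K (lazy (W c (c a b))) (p ^ 2) := by
  set P := lazy (W c (c a b)) with hP
  have hPs : P.transpose = P := lazy_sym hc hab
  have hPm : P ∈ alg hc := lazy_mem hc _
  obtain ⟨B, hB⟩ := Jump_fac hK
  set G0 := aeval P p with hG0
  have hG0s : G0.transpose = G0 := aeval_sym hPs p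
  have hG0m : G0 ∈ alg hc := aeval_mem hc hPm p
  set H := B * G0 with hH
  set G := H.transpose * H with hG
  have hG' : G = G0 * K * G0 := Jump_gram hB hG0s
  have hGm : G ∈ alg hc := by
    rw [hG']
    exact (alg hc).mul_mem ((alg hc).mul_mem hG0m hKm) hG0m
  have h1 : (K * G0) x y = ∑ w, B w x * H w y := Jump_entry hB x y
  have h2 : ∑ w, H w y ^ 2 = G y y := by
    rw [hG, Matrix.mul_apply]
    exact Finset.sum_congr rfl fun w _ => by rw [transpose_apply]; ring
  have h3 : (K * G0) x y ^ 2 ≤ K x x * G y y := by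
    rw [h1, ← h2]
    refine (Finset.sum_mul_sq_le_sq_mul_sq _ _ _).trans (le_of_eq ?_)
    rw [Jump_diag hB]
  refine h3.trans (le_of_eq ?_)
  have h4 : G.trace = Fintype.card V * G y y := by
    rw [Matrix.trace]
    have : ∀ w, G.diag w = G y y := fun w => hGm _ _ _ _ (hc.homogeneous w y)
    rw [Finset.sum_congr rfl fun w _ => this w, Finset.sum_const, nsmul_eq_mul, Finset.card_univ]
  have h5 : G.trace = (K * aeval P (p ^ 2 * 1)).trace := by
    rw [← Jump_trace, map_one, mul_one, hG']
  rw [mul_one] at h5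
  rw [mo, ← h5, h4]
  have hn : (Fintype.card V : ℝ) ≠ 0 := by
    have : 0 < Fintype.card V := Fintype.card_pos_iff.2 ⟨a⟩
    positivity
  field_simp

end Pool.Agent.Lib.MP_7beb49_co.GS
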