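import Pool.Agent.Lib.MP_7beb49_co_gs.GSDefs

/-!
# The martingale of the multi-scale bound: definitions
-/

set_option autoImplicit false

namespace Pool.Agent.Lib.MP_7beb49_co.GS

open Finset Matrix Walk LogRank Polynomial

variable {V : Type} [Fintype V] [DecidableEq V]

/-- The band of scale `a`. -/
noncomputable def gg (T : ℕ → ℕ) (a : ℕ) : ℝ[X] := X ^ (16 * T (a + 1)) * (1 - X ^ T a)

/-- The weight of scale `a`. -/
noncomputable def ww (Q P : Matrix V V ℝ) (T : ℕ → ℕ) (a : ℕ) : ℝ :=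
  mo (ker Q (102400 ^ (a + 1))) P (gg T a)

/-- The sum over the scales `a < A`, after `s` steps. -/
noncomputable def MM (Q P : Matrix V V ℝ) (T : ℕ → ℕ) (A s : ℕ) : Matrix V V ℝ :=
  ∑ a ∈ range A, (ww Q P T a)⁻¹ • (ker Q (102400 ^ (a + 1)) * aeval P (X ^ s * gg T a))

end Pool.Agent.Lib.MP_7beb49_co.GS
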