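import Mathlib

/-!
# Scalar (module Scalar, 40 min): the squared step sizes of one scale

Elementary. `hh_head`: `x^m (1 - x) ≤ 1/(m+1)` on `[0,1]` (`m = 2 N'`; proof: `(m+1) x^m (1-x) ≤ (1-x) ∑_{j ≤ m} x^j = 1 - x^(m+1)`).
`hh_tail`: `(1 - x^N)² ≤ 1 - x^N ≤ N (1 - x)` and `(x^t (1 - x))² ≤ 1/(t+1)²`. `hh_sum`:
`∑_{t < T} x^(2t) (1 - x) ≤ 1` (compare `Walk.seq_props` in Spec.lean). `hh_lim`: for `x = 1` the factor `1 - x^N` vanishes, for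
`x < 1` geometric decay (finite sum of sequences tending to 0).
-/

set_option autoImplicit false
set_option linter.unusedSectionVars false

namespace Pool.Agent.Lib.MP_7beb49_co.GS

open Finset Filter Topology

variable {ι : Type} [Fintype ι]

/-- The squared step size at time `t` of the scale with cut-offs `N'`, `N`. -/
noncomputable def hh (q lam : ι → ℝ) (N' N t : ℕ) : ℝ :=
  ∑ i, q i * ((lam i ^ t * (lam i ^ N' * (1 - lam i ^ N))) ^ 2 * (1 - lam i))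

variable {q lam : ι → ℝ}

theorem Scalar_c (x : ℝ) (h0 : 0 ≤ x) (h1 : x ≤ 1) (N' N : ℕ) :
    0 ≤ x ^ N' * (1 - x ^ N) ∧ x ^ N' * (1 - x ^ N) ≤ 1 := by
  have a0 : 0 ≤ x ^ N' := by positivity
  have a1 : x ^ N' ≤ 1 := pow_le_one₀ h0 h1
  have b0 : 0 ≤ x ^ N := by positivity
  have b1 : x ^ N ≤ 1 := pow_le_one₀ h0 h1
  exact ⟨mul_nonneg a0 (by linarith), mul_le_one₀ a1 (by linarith) (by linarith)⟩

theorem Scalar_term (x : ℝ) (h0 : 0 ≤ x) (h1 : x ≤ 1) (N' N t : ℕ) :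
    0 ≤ (x ^ t * (x ^ N' * (1 - x ^ N))) ^ 2 * (1 - x) :=
  mul_nonneg (sq_nonneg _) (by linarith)

theorem Scalar_geom (x : ℝ) (h0 : 0 ≤ x) (h1 : x ≤ 1) (m : ℕ) :
    x ^ m * (1 - x) ≤ 1 / ((m : ℝ) + 1) := by
  rw [le_div_iff₀ (by positivity)]
  have g1 : (∑ i ∈ range (m + 1), x ^ i) * (1 - x) = 1 - x ^ (m + 1) := geom_sum_mul_neg x (m + 1)
  have g2 : ((m : ℝ) + 1) * x ^ m ≤ ∑ i ∈ range (m + 1), x ^ i := by
    have g3 : ∑ _i ∈ range (m + 1), x ^ m ≤ ∑ i ∈ range (m + 1), x ^ i :=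
      Finset.sum_le_sum fun i hi =>
        pow_le_pow_of_le_one h0 h1 (Nat.lt_succ_iff.mp (Finset.mem_range.mp hi))
    rw [Finset.sum_const, Finset.card_range, nsmul_eq_mul] at g3
    push_cast at g3
    exact g3
  have g4 : ((m : ℝ) + 1) * x ^ m * (1 - x) ≤ (∑ i ∈ range (m + 1), x ^ i) * (1 - x) :=
    mul_le_mul_of_nonneg_right g2 (by linarith)
  have g5 : 0 ≤ x ^ (m + 1) := by positivity
  calc x ^ m * (1 - x) * ((m : ℝ) + 1) = ((m : ℝ) + 1) * x ^ m * (1 - x) := by ring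
    _ ≤ _ := g4
    _ ≤ 1 := by rw [g1]; linarith

theorem hh_nonneg (h0 : ∀ i, 0 ≤ lam i) (h1 : ∀ i, lam i ≤ 1) (hq : ∀ i, 0 ≤ q i) (N' N t : ℕ) :
    0 ≤ hh q lam N' N t :=
  Finset.sum_nonneg fun i _ => mul_nonneg (hq i) (Scalar_term _ (h0 i) (h1 i) N' N t)

theorem hh_anti (h0 : ∀ i, 0 ≤ lam i) (h1 : ∀ i, lam i ≤ 1) (hq : ∀ i, 0 ≤ q i) (N' N t : ℕ) :
    hh q lam N' N (t + 1) ≤ hh q lam N' N t := by
  refine Finset.sum_le_sum fun i _ => mul_le_mul_of_nonneg_left ?_ (hq i)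
  refine mul_le_mul_of_nonneg_right ?_ (by linarith [h1 i])
  have hx0 := h0 i
  obtain ⟨c0, -⟩ := Scalar_c _ (h0 i) (h1 i) N' N
  refine pow_le_pow_left₀ (by positivity) ?_ 2
  exact mul_le_mul_of_nonneg_right (pow_le_pow_of_le_one (h0 i) (h1 i) (Nat.le_succ t)) c0

theorem Scalar_sum_one (hq : ∀ i, 0 ≤ q i) (hs : ∑ i, q i = 1) (f : ι → ℝ) (B : ℝ)
    (hf : ∀ i, f i ≤ B) : ∑ i, q i * f i ≤ B := by
  calc ∑ i, q i * f i ≤ ∑ i, q i * B :=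
        Finset.sum_le_sum fun i _ => mul_le_mul_of_nonneg_left (hf i) (hq i)
    _ = B := by rw [← Finset.sum_mul, hs, one_mul]

theorem hh_sum (h0 : ∀ i, 0 ≤ lam i) (h1 : ∀ i, lam i ≤ 1) (hq : ∀ i, 0 ≤ q i)
    (hs : ∑ i, q i = 1) (N' N T : ℕ) : ∑ t ∈ range T, hh q lam N' N t ≤ 1 := by
  unfold hh
  rw [Finset.sum_comm]
  have e : ∀ i, ∑ t ∈ range T, q i * ((lam i ^ t * (lam i ^ N' * (1 - lam i ^ N))) ^ 2 *
      (1 - lam i)) = q i * ∑ t ∈ range T, ((lam i ^ t * (lam i ^ N' * (1 - lam i ^ N))) ^ 2 *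
      (1 - lam i)) := fun i => (Finset.mul_sum _ _ _).symm
  rw [Finset.sum_congr rfl fun i _ => e i]
  refine Scalar_sum_one hq hs _ 1 fun i => ?_
  have hx0 := h0 i
  obtain ⟨c0, c1⟩ := Scalar_c _ (h0 i) (h1 i) N' N
  have g1 : ∀ t ∈ range T, (lam i ^ t * (lam i ^ N' * (1 - lam i ^ N))) ^ 2 * (1 - lam i) ≤
      lam i ^ t * (1 - lam i) := by
    intro t _
    refine mul_le_mul_of_nonneg_right ?_ (by linarith [h1 i])
    have a0 : 0 ≤ lam i ^ t := by positivity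
    have a1 : lam i ^ t ≤ 1 := pow_le_one₀ hx0 (h1 i)
    have b0 : 0 ≤ lam i ^ t * (lam i ^ N' * (1 - lam i ^ N)) := mul_nonneg a0 c0
    have b1 : lam i ^ t * (lam i ^ N' * (1 - lam i ^ N)) ≤ lam i ^ t := mul_le_of_le_one_right a0 c1
    nlinarith
  refine (Finset.sum_le_sum g1).trans ?_
  rw [← Finset.sum_mul, geom_sum_mul_neg]
  have g2 : 0 ≤ lam i ^ T := by positivity
  linarith

theorem hh_head (h0 : ∀ i, 0 ≤ lam i) (h1 : ∀ i, lam i ≤ 1) (hq : ∀ i, 0 ≤ q i)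
    (hs : ∑ i, q i = 1) {N' : ℕ} (hN : 1 ≤ N') (N t : ℕ) :
    hh q lam N' N t ≤ 1 / (2 * N') := by
  refine Scalar_sum_one hq hs _ _ fun i => ?_
  have hx0 := h0 i
  have hN0 : (0 : ℝ) < N' := by exact_mod_cast hN
  have g1 := Scalar_geom (lam i) (h0 i) (h1 i) (2 * N')
  have g2 : 1 / (((2 * N' : ℕ) : ℝ) + 1) ≤ 1 / (2 * N') := by
    push_cast
    exact one_div_le_one_div_of_le (by positivity) (by linarith)
  refine le_trans ?_ (g1.trans g2)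
  refine mul_le_mul_of_nonneg_right ?_ (by linarith [h1 i])
  have a0 : 0 ≤ lam i ^ t := by positivity
  have a1 : lam i ^ t ≤ 1 := pow_le_one₀ hx0 (h1 i)
  have b0 : 0 ≤ lam i ^ N := by positivity
  have b1 : lam i ^ N ≤ 1 := pow_le_one₀ hx0 (h1 i)
  have d0 : 0 ≤ lam i ^ N' := by positivity
  have e1 : lam i ^ (2 * N') = (lam i ^ N') ^ 2 := by rw [mul_comm, pow_mul]
  rw [e1]
  refine pow_le_pow_left₀ (mul_nonneg a0 (mul_nonneg d0 (by linarith))) ?_ 2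
  calc lam i ^ t * (lam i ^ N' * (1 - lam i ^ N)) ≤ 1 * (lam i ^ N' * 1) := by
        refine mul_le_mul a1 (mul_le_mul_of_nonneg_left (by linarith) d0)
          (mul_nonneg d0 (by linarith)) zero_le_one
    _ = lam i ^ N' := by ring

theorem hh_tail (h0 : ∀ i, 0 ≤ lam i) (h1 : ∀ i, lam i ≤ 1) (hq : ∀ i, 0 ≤ q i)
    (hs : ∑ i, q i = 1) (N' N t : ℕ) : hh q lam N' N t ≤ N / ((t : ℝ) + 1) ^ 2 := by
  refine Scalar_sum_one hq hs _ _ fun i => ?_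
  have hx0 := h0 i
  have hx1 := h1 i
  set x := lam i with hx
  have a0 : 0 ≤ x ^ t := by positivity
  have b0 : 0 ≤ x ^ N := by positivity
  have b1 : x ^ N ≤ 1 := pow_le_one₀ hx0 hx1
  have d0 : 0 ≤ x ^ N' := by positivity
  have d1 : x ^ N' ≤ 1 := pow_le_one₀ hx0 hx1
  have g1 : 1 - x ^ N ≤ N * (1 - x) := by
    have := one_add_mul_sub_le_pow (a := x) (by linarith) N
    linarith
  have g2 : x ^ t * (1 - x) ≤ 1 / ((t : ℝ) + 1) := Scalar_geom x hx0 hx1 t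
  have g3 : (x ^ t * (1 - x)) ^ 2 ≤ (1 / ((t : ℝ) + 1)) ^ 2 :=
    pow_le_pow_left₀ (mul_nonneg a0 (by linarith)) g2 2
  have g4 : (x ^ N' * (1 - x ^ N)) ^ 2 ≤ N * (1 - x) := by
    have h2 : 0 ≤ x ^ N' * (1 - x ^ N) := mul_nonneg d0 (by linarith)
    have h3 : x ^ N' * (1 - x ^ N) ≤ 1 - x ^ N := mul_le_of_le_one_left (by linarith) d1
    have h4 : 1 - x ^ N ≤ 1 := by linarith
    nlinarith
  calc (x ^ t * (x ^ N' * (1 - x ^ N))) ^ 2 * (1 - x)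
      = (x ^ t) ^ 2 * (x ^ N' * (1 - x ^ N)) ^ 2 * (1 - x) := by ring
    _ ≤ (x ^ t) ^ 2 * (N * (1 - x)) * (1 - x) := by
        have h5 : 0 ≤ 1 - x := by linarith
        gcongr
    _ = N * (x ^ t * (1 - x)) ^ 2 := by ring
    _ ≤ N * (1 / ((t : ℝ) + 1)) ^ 2 := by gcongr
    _ = _ := by rw [div_pow, one_pow]; ring

theorem hh_lim (h0 : ∀ i, 0 ≤ lam i) (h1 : ∀ i, lam i ≤ 1) (N' N : ℕ) :
    Tendsto (fun t : ℕ => ∑ i, q i * (lam i ^ t * (lam i ^ N' * (1 - lam i ^ N))) ^ 2) atTop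
      (𝓝 0) := by
  have g : ∀ i ∈ (Finset.univ : Finset ι),
      Tendsto (fun t : ℕ => q i * (lam i ^ t * (lam i ^ N' * (1 - lam i ^ N))) ^ 2) atTop
      (𝓝 0) := by
    intro i _
    rcases (h1 i).lt_or_eq with h | h
    · have g1 := tendsto_pow_atTop_nhds_zero_of_lt_one (h0 i) h
      have g2 := ((g1.mul_const (lam i ^ N' * (1 - lam i ^ N))).pow 2).const_mul (q i)
      simpa using g2
    · rw [h]
      simp
  have g3 := tendsto_finsetSum Finset.univ g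
  simpa using g3

end Pool.Agent.Lib.MP_7beb49_co.GS
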