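import Pool.Agent.Lib.MP_7beb49_co_gs.MMDefs
import Pool.Agent.Lib.MP_7beb49_co_gs.Jump
import Pool.Agent.Lib.MP_7beb49_co_gs.SpecPsd
import Pool.Agent.Lib.MP_7beb49_co_gs.Scalar
import Pool.Agent.Lib.MP_7beb49_co_gs.Cross

/-!
# MMSteps (module MMSteps, 75 min): the jumps of the martingale

`P = lazy (W c (c a b))`, `K_a = ker Q (102400^(a+1))`. `MM_mem`: `ker_mem`, `aeval_mem`. `MM_succ`: `P` symmetric, so
`(P *ᵥ (H v ·)) w = (H * P) v w` (as step `e1` in `LogRank.card_le`), `aeval P (X^s * g) * P = aeval P (X^(s+1) * g)`.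
`MM_steps`: let `lam_a, q_a` be the spectral data of `K_a` (`spec_psd`), `q_a' = q_a / n`, with sum 1 (`p = 1`, trace of `K_a` is `n`);
`h a s = hh q_a' lam_a (16 T (a+1)) (T a) s` for `a < A`, (0 for other `a`). By `jump_psd` with the polynomial `X^s * gg T a` (value at `lam`:
`lam^s (lam^(16 T (a+1)) (1 - lam^(T a)))`) the jump of `K_a * aeval P (X^s gg)` along an edge is at most `√(4 h a s) = 2 √(h a s)`; so the jump of `MM` is at most
`∑ (ww)⁻¹ 2 √(h a s) ≤ (6400/3) ∑ √(h a s)`. Put `as s = (6400/3)² (∑_{a<A} √(h a s))²`. Nonincreasing: `hh_anti`. Sum: `cross`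
(`(6400/3)² * 7 ≤ 32000000`). First: `cross0` (`(6400/3)²/18 ≤ 252850`). `hh_head` with `N' = 16 T (a+1)` gives `1/(32 T (a+1))`.
`MM_lim`: `entry_psd` with `p = X^s * gg T a`, `hh_lim`, finite sum.
-/

set_option autoImplicit false
set_option linter.unusedSectionVars false

namespace Pool.Agent.Lib.MP_7beb49_co.GS

open Finset Matrix Walk LogRank Polynomial

variable {V κ : Type} [Fintype V] [DecidableEq V] {c : V → V → κ} {Q : Matrix V V ℝ}

theorem MM_mem (hc : IsPCC c) (hQ : Proj c Q) (a b : V) (T : ℕ → ℕ) (A s : ℕ) :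
    MM Q (lazy (W c (c a b))) T A s ∈ alg hc := by
  unfold MM
  exact (alg hc).sum_mem fun i _ => (alg hc).smul_mem
    ((alg hc).mul_mem (ker_mem hc hQ _) (aeval_mem hc (lazy_mem hc _) _)) _

theorem MMSteps_mul (Q P : Matrix V V ℝ) (T : ℕ → ℕ) (A s : ℕ) :
    MM Q P T A s * P = MM Q P T A (s + 1) := by
  unfold MM
  rw [Finset.sum_mul]
  refine Finset.sum_congr rfl fun a _ => ?_
  rw [Matrix.smul_mul, Matrix.mul_assoc]
  have h : aeval P (X ^ (s + 1) * gg T a) = aeval P (X ^ s * gg T a) * P := by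
    rw [show (X ^ (s + 1) * gg T a : ℝ[X]) = (X ^ s * gg T a) * X by ring, map_mul, aeval_X]
  rw [h]

theorem MM_succ (hc : IsPCC c) {a b : V} (hab : a ≠ b) (T : ℕ → ℕ) (A s : ℕ) (v : V) :
    (lazy (W c (c a b)) *ᵥ fun w => MM Q (lazy (W c (c a b))) T A s v w) =
      fun w => MM Q (lazy (W c (c a b))) T A (s + 1) v w := by
  ext w
  rw [← MMSteps_mul, Matrix.mul_apply]
  change ∑ z, lazy (W c (c a b)) w z * MM Q (lazy (W c (c a b))) T A s v z = _
  refine Finset.sum_congr rfl fun z _ => ?_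
  rw [(lazy_isWalk (W_isWalk hc hab)).symm w z, mul_comm]

/-- the value of the polynomial of scale `a` -/
theorem MMSteps_eval (T : ℕ → ℕ) (a s : ℕ) (x : ℝ) :
    (X ^ s * gg T a : ℝ[X]).eval x = x ^ s * (x ^ (16 * T (a + 1)) * (1 - x ^ T a)) := by
  unfold gg
  simp

/-- the spectral data of all scales -/
theorem MMSteps_spec (hc : IsPCC c) (hQ : Proj c Q) {a b : V} (hab : a ≠ b) :
    ∃ lam q : ℕ → V → ℝ, (∀ k i, 0 ≤ lam k i) ∧ (∀ k i, lam k i ≤ 1) ∧ (∀ k i, 0 ≤ q k i) ∧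
      (∀ k, ∑ i, q k i = 1) ∧
      ∀ k (p : ℝ[X]), mo (ker Q k) (lazy (W c (c a b))) p = ∑ i, q k i * p.eval (lam k i) := by
  have H := fun k : ℕ => spec_psd (W_isWalk hc hab) (ker_psd hc hQ k)
  choose lam q h0 h1 hq htr _ using H
  have hn : (0 : ℝ) < Fintype.card V := by
    have : 0 < Fintype.card V := Fintype.card_pos_iff.2 ⟨a⟩
    exact_mod_cast this
  have hmo : ∀ k (p : ℝ[X]), mo (ker Q k) (lazy (W c (c a b))) p =
      ∑ i, q k i / Fintype.card V * p.eval (lam k i) := by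
    intro k p
    unfold mo
    rw [htr k p, Finset.sum_div]
    exact Finset.sum_congr rfl fun i _ => by ring
  refine ⟨lam, fun k i => q k i / Fintype.card V, h0, h1, fun k i => div_nonneg (hq k i) hn.le,
    ?_, hmo⟩
  intro k
  have h2 := hmo k 1
  simp only [eval_one, mul_one] at h2
  rw [← h2]
  unfold mo
  rw [map_one, Matrix.mul_one, Matrix.trace]
  have h3 : ∀ x, (ker Q k).diag x = 1 := fun x => ker_diag hc hQ k x
  rw [Finset.sum_congr rfl fun x _ => h3 x, Finset.sum_const, nsmul_eq_mul, Finset.card_univ,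
    mul_one, div_self hn.ne']

theorem MM_steps (hc : IsPCC c) (hQ : Proj c Q) {a b : V} (hab : a ≠ b) {T : ℕ → ℕ} {A : ℕ}
    (hT1 : ∀ i ≤ A, 1 ≤ T i) (hT : ∀ i < A, 16 * T (i + 1) ≤ T i)
    (hw : ∀ i < A, 3 / 3200 ≤ ww Q (lazy (W c (c a b))) T i) :
    ∃ as : ℕ → ℝ, (∀ s, 0 ≤ as s) ∧ (∀ s, as (s + 1) ≤ as s) ∧
      (∀ S, ∑ s ∈ range S, as s ≤ 32000000 * A) ∧ as 0 ≤ 252850 / T A ∧
      ∀ s v y z, (constituent c (c a b)).Adj y z →
        (MM Q (lazy (W c (c a b))) T A s v z - MM Q (lazy (W c (c a b))) T A s v y) ^ 2 ≤ as s := by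
  classical
  obtain ⟨lam, q, h0, h1, hq, hs, hmo⟩ := MMSteps_spec hc hQ hab
  set K : ℕ → ℕ := fun i => 102400 ^ (i + 1) with hK
  set h : ℕ → ℕ → ℝ := fun i s =>
    if i < A then hh (q (K i)) (lam (K i)) (16 * T (i + 1)) (T i) s else 0 with hh_def
  have hlt : ∀ i, i < A → ∀ s, h i s = hh (q (K i)) (lam (K i)) (16 * T (i + 1)) (T i) s := by
    intro i hi s
    simp only [hh_def, if_pos hi]
  have hnn : ∀ i s, 0 ≤ h i s := by
    intro i s
    simp only [hh_def]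
    split_ifs
    · exact hh_nonneg (h0 _) (h1 _) (hq _) _ _ _
    · exact le_rfl
  have hanti : ∀ i s, h i (s + 1) ≤ h i s := by
    intro i s
    simp only [hh_def]
    split_ifs
    · exact hh_anti (h0 _) (h1 _) (hq _) _ _ _
    · exact le_rfl
  have hsum : ∀ i < A, ∀ S : ℕ, ∑ t ∈ range S, h i t ≤ 1 := by
    intro i hi S
    rw [Finset.sum_congr rfl fun t _ => hlt i hi t]
    exact hh_sum (h0 _) (h1 _) (hq _) (hs _) _ _ _
  have hhead : ∀ i < A, ∀ t, h i t ≤ 1 / (32 * T (i + 1)) := by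
    intro i hi t
    rw [hlt i hi]
    have h2 : 1 ≤ T (i + 1) := hT1 (i + 1) (by omega)
    refine (hh_head (h0 _) (h1 _) (hq _) (hs _) (N' := 16 * T (i + 1)) (by omega) _ _).trans
      (le_of_eq ?_)
    push_cast
    ring
  have htail : ∀ i < A, ∀ t : ℕ, h i t ≤ T i / ((t : ℝ) + 1) ^ 2 := by
    intro i hi t
    rw [hlt i hi]
    exact hh_tail (h0 _) (h1 _) (hq _) (hs _) _ _ _
  have hcross := fun S => cross hT hT1 hnn hsum hhead htail S
  have hcross0 := cross0 hT hT1 hnn hhead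
  have hsn : ∀ s, 0 ≤ ∑ i ∈ range A, √(h i s) := fun s =>
    Finset.sum_nonneg fun i _ => Real.sqrt_nonneg _
  have hT0 : (0 : ℝ) < T A := by
    have := hT1 A le_rfl
    exact_mod_cast this
  refine ⟨fun s => (6400 / 3) ^ 2 * (∑ i ∈ range A, √(h i s)) ^ 2, fun s => by positivity, ?_,
    ?_, ?_, ?_⟩
  · intro s
    refine mul_le_mul_of_nonneg_left ?_ (by positivity)
    exact pow_le_pow_left₀ (hsn _) (Finset.sum_le_sum fun i _ => Real.sqrt_le_sqrt (hanti i s)) 2
  · intro S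
    rw [← Finset.mul_sum]
    have h2 := hcross S
    have hA : (0 : ℝ) ≤ A := Nat.cast_nonneg A
    nlinarith
  · change (6400 / 3) ^ 2 * (∑ i ∈ range A, √(h i 0)) ^ 2 ≤ _
    calc (6400 / 3) ^ 2 * (∑ i ∈ range A, √(h i 0)) ^ 2
        ≤ (6400 / 3) ^ 2 * (1 / (18 * T A)) := mul_le_mul_of_nonneg_left hcross0 (by positivity)
      _ ≤ 252850 / T A := by
        rw [mul_one_div, div_le_div_iff₀ (by positivity) hT0]
        nlinarith
  · intro s v y z hyz
    have hdiff : ∀ i ∈ range A, |(ww Q (lazy (W c (c a b))) T i)⁻¹ *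
        ((ker Q (K i) * aeval (lazy (W c (c a b))) (X ^ s * gg T i)) v z -
          (ker Q (K i) * aeval (lazy (W c (c a b))) (X ^ s * gg T i)) v y)| ≤
        6400 / 3 * √(h i s) := by
      intro i hi
      have hi' := Finset.mem_range.mp hi
      have hwi := hw i hi'
      have hj := jump_psd hc (ker_psd hc hQ (K i)) (ker_mem hc hQ (K i)) hab (X ^ s * gg T i) v hyz
      rw [ker_diag hc hQ, one_mul, hmo] at hj
      have he : ∑ j, q (K i) j * ((X ^ s * gg T i) ^ 2 * (1 - X) : ℝ[X]).eval (lam (K i) j) =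
          h i s := by
        rw [hlt i hi']
        unfold hh
        refine Finset.sum_congr rfl fun j _ => ?_
        rw [eval_mul, eval_pow, MMSteps_eval, eval_sub, eval_one, eval_X]
      rw [he] at hj
      have hj2 := Real.abs_le_sqrt hj
      rw [show (4 : ℝ) * h i s = 2 ^ 2 * h i s by norm_num,
        Real.sqrt_mul (by positivity), Real.sqrt_sq (by norm_num)] at hj2
      rw [abs_mul, abs_of_pos (inv_pos.mpr (lt_of_lt_of_le (by norm_num) hwi))]
      have hinv : (ww Q (lazy (W c (c a b))) T i)⁻¹ ≤ 3200 / 3 := by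
        rw [show (3200 / 3 : ℝ) = (3 / 3200)⁻¹ by norm_num]
        exact inv_anti₀ (by norm_num) hwi
      calc _ ≤ (3200 / 3 : ℝ) * (2 * √(h i s)) :=
            mul_le_mul hinv hj2 (abs_nonneg _) (by norm_num)
        _ = _ := by ring
    have hM : MM Q (lazy (W c (c a b))) T A s v z - MM Q (lazy (W c (c a b))) T A s v y =
        ∑ i ∈ range A, (ww Q (lazy (W c (c a b))) T i)⁻¹ *
        ((ker Q (K i) * aeval (lazy (W c (c a b))) (X ^ s * gg T i)) v z -
          (ker Q (K i) * aeval (lazy (W c (c a b))) (X ^ s * gg T i)) v y) := by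
      unfold MM
      rw [Matrix.sum_apply, Matrix.sum_apply, ← Finset.sum_sub_distrib]
      refine Finset.sum_congr rfl fun i _ => ?_
      rw [Matrix.smul_apply, Matrix.smul_apply, smul_eq_mul, smul_eq_mul, ← mul_sub]
    have habs : |MM Q (lazy (W c (c a b))) T A s v z - MM Q (lazy (W c (c a b))) T A s v y| ≤
        6400 / 3 * ∑ i ∈ range A, √(h i s) := by
      rw [hM, Finset.mul_sum]
      exact (Finset.abs_sum_le_sum_abs _ _).trans (Finset.sum_le_sum hdiff)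
    calc _ = |MM Q (lazy (W c (c a b))) T A s v z - MM Q (lazy (W c (c a b))) T A s v y| ^ 2 :=
          (sq_abs _).symm
      _ ≤ (6400 / 3 * ∑ i ∈ range A, √(h i s)) ^ 2 := pow_le_pow_left₀ (abs_nonneg _) habs 2
      _ = _ := by rw [mul_pow]

theorem MM_lim (hc : IsPCC c) (hQ : Proj c Q) {a b : V} (hab : a ≠ b) (T : ℕ → ℕ) (A : ℕ)
    (v : V) {ε : ℝ} (hε : 0 < ε) :
    ∃ s, ∀ w, |MM Q (lazy (W c (c a b))) T A s v w| ≤ ε := by
  classical
  obtain ⟨lam, q, h0, h1, hq, hs, hmo⟩ := MMSteps_spec hc hQ hab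
  set K : ℕ → ℕ := fun i => 102400 ^ (i + 1) with hK
  set E : ℕ → ℕ → ℝ := fun i t =>
    ∑ j, q (K i) j * (lam (K i) j ^ t * (lam (K i) j ^ (16 * T (i + 1)) *
      (1 - lam (K i) j ^ T i))) ^ 2 with hE
  have hlim : Filter.Tendsto (fun t : ℕ => ∑ i ∈ range A,
      |(ww Q (lazy (W c (c a b))) T i)⁻¹| * √(E i t)) Filter.atTop (nhds 0) := by
    rw [show (0 : ℝ) = ∑ i ∈ range A, |(ww Q (lazy (W c (c a b))) T i)⁻¹| * √0 by simp]
    refine tendsto_finsetSum _ fun i _ => ?_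
    exact ((hh_lim (q := q (K i)) (h0 _) (h1 _) (16 * T (i + 1)) (T i)).sqrt).const_mul _
  obtain ⟨s, hsε⟩ := ((tendsto_order.1 hlim).2 ε hε).exists
  refine ⟨s, fun w => ?_⟩
  have hterm : ∀ i ∈ range A, |((ww Q (lazy (W c (c a b))) T i)⁻¹ •
      (ker Q (K i) * aeval (lazy (W c (c a b))) (X ^ s * gg T i))) v w| ≤
      |(ww Q (lazy (W c (c a b))) T i)⁻¹| * √(E i s) := by
    intro i _
    rw [Matrix.smul_apply, smul_eq_mul, abs_mul]
    refine mul_le_mul_of_nonneg_left ?_ (abs_nonneg _)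
    have hj := entry_psd hc (ker_psd hc hQ (K i)) (ker_mem hc hQ (K i)) hab (X ^ s * gg T i) v w
    rw [ker_diag hc hQ, one_mul, hmo] at hj
    have he : ∑ j, q (K i) j * ((X ^ s * gg T i) ^ 2 : ℝ[X]).eval (lam (K i) j) = E i s := by
      refine Finset.sum_congr rfl fun j _ => ?_
      rw [eval_pow, MMSteps_eval]
    rw [he] at hj
    exact Real.abs_le_sqrt hj
  unfold MM
  rw [Matrix.sum_apply]
  exact ((Finset.abs_sum_le_sum_abs _ _).trans (Finset.sum_le_sum hterm)).trans hsε.le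

end Pool.Agent.Lib.MP_7beb49_co.GS
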