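import Pool.Agent.Lib.MP_7beb49_co_gs.CardLe

/-!
# MainGS (module MainGS, 60 min): counting

Copy `LogRank.main` (Pool/Agent/Lib/MP_7beb49_co/LogRankMain.lean). `bad_count'`: the number of `y` with `Bad y v` equals the number of `y` with `Bad v y`
(double counting, both are independent of `v`: `ncard_eq` with `bad_iff` and `hc.conv`), then `bad_count`.
`main_gs`: if `10^10 δ ≥ 1` the power is `≥ 1` and no valency is larger than `n`: the set is empty. Otherwise `K = 5 D / (4 n μ)`
(`D = Dmin c`, attained at `a ≠ b`; `K ≤ 1/100` by `hD`), `A = ⌊log (1/(20000 δ)) / log 102400⌋₊`, so `20000 δ 102400^A ≤ 1` and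
`A ≥ log (1/(20000 δ)) / log 102400 - 1 = log (1/(2048000000 δ)) / log 102400`, `log 102400 ≤ 12` (`102400 ≤ exp 12`). Three exceptional sets
`{Bad v w}`, `{Bad w v}`, `{8 K deg < diffN}` with together at most `(D/2)/K + (D/2)/K + 2D/(8K) = μ n` elements. For `w` outside: eigenvalue `θ` and
projection `Q` as in `LogRank.main`, `card_le_gs` with `x = v`, `y = w` gives valency `≤ n exp (-(A/(520000000 K)))`, and
`A/(520000000 K) = A * 4 n μ/(5 * 520000000 D) ≥ log (1/(10^10 δ)) * μ n/(10^10 D)` as `4/(5 * 520000000 * 12) ≥ 1/10^10`; contradiction with the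
assumption on the valency (`(10^10 δ)^e = exp (e log (10^10 δ))`).
-/

set_option autoImplicit false
set_option linter.unusedSectionVars false

namespace Pool.Agent.Lib.MP_7beb49_co.GS

open Finset Matrix Walk LogRank Polynomial

variable {V κ : Type} [Fintype V] [DecidableEq V] {c : V → V → κ}

theorem bad_count' (hc : IsPCC c) {a b : V} (hab : a ≠ b) {K : ℝ} (v : V) :
    K * ({y | Bad c (c a b) K y v}.ncard : ℝ) ≤ (distinguishing c a b : ℝ) / 2 := by
  classical
  have h1 : ∀ u, {w | Bad c (c a b) K u w}.ncard = {w | Bad c (c a b) K v w}.ncard := fun u =>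
    ncard_eq hc (P := fun u w => Bad c (c a b) K u w) (fun _ _ _ _ h => bad_iff hc hab K h) u v
  have h2 : ∀ u, {w | Bad c (c a b) K w u}.ncard = {w | Bad c (c a b) K w v}.ncard := fun u =>
    ncard_eq hc (P := fun u w => Bad c (c a b) K w u)
      (fun _ _ _ _ h => bad_iff hc hab K (hc.conv _ _ _ _ h)) u v
  have e : ∀ (R : V → Prop), {w | R w}.ncard = ∑ w, if R w then 1 else 0 := by
    intro R
    rw [Finset.sum_boole, Set.ncard_eq_toFinset_card']
    simp only [Nat.cast_id]
    congr 1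
    ext w; simp
  have h3 : ∑ u : V, {w | Bad c (c a b) K u w}.ncard = ∑ u : V, {w | Bad c (c a b) K w u}.ncard := by
    simp only [e]
    rw [Finset.sum_comm]
  rw [Finset.sum_congr rfl fun u _ => h1 u, Finset.sum_congr rfl fun u _ => h2 u,
    Finset.sum_const, Finset.sum_const, smul_eq_mul, smul_eq_mul] at h3
  have h4 : 0 < (univ : Finset V).card := by
    rw [Finset.card_univ]; exact Fintype.card_pos_iff.2 ⟨v⟩
  have h5 := Nat.eq_of_mul_eq_mul_left h4 h3
  rw [← h5]
  exact bad_count hc hab v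

theorem mainGS_log : Real.log 102400 ≤ 12 := by
  rw [← Real.log_exp 12]
  refine Real.log_le_log (by norm_num) ?_
  have h1 : (2.7182818283 : ℝ) < Real.exp 1 := Real.exp_one_gt_d9
  have h2 : Real.exp 12 = Real.exp 1 ^ 12 := by
    rw [← Real.exp_nat_mul]; norm_num
  rw [h2]
  calc (102400 : ℝ) ≤ 2.7182818283 ^ 12 := by norm_num
    _ ≤ Real.exp 1 ^ 12 := pow_le_pow_left₀ (by norm_num) h1.le 12

/-- The number of scales. -/
theorem mainGS_scales {δ : ℝ} (hδ : 0 < δ) (hδ1 : 10 ^ 10 * δ < 1) :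
    ∃ A : ℕ, 20000 * δ * 102400 ^ A ≤ 1 ∧ -Real.log (10 ^ 10 * δ) ≤ 12 * A := by
  have hL : 0 < Real.log 102400 := Real.log_pos (by norm_num)
  set A : ℕ := ⌊-Real.log (20000 * δ) / Real.log 102400⌋₊ with hA
  have h0 : 0 ≤ -Real.log (20000 * δ) / Real.log 102400 := by
    refine div_nonneg ?_ hL.le
    have : Real.log (20000 * δ) ≤ 0 := Real.log_nonpos (by positivity) (by linarith)
    linarith
  refine ⟨A, ?_, ?_⟩
  · have h1 : (A : ℝ) ≤ -Real.log (20000 * δ) / Real.log 102400 := Nat.floor_le h0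
    rw [le_div_iff₀ hL] at h1
    have h2 : (102400 : ℝ) ^ A = Real.exp (A * Real.log 102400) := by
      rw [Real.exp_nat_mul, Real.exp_log (by norm_num)]
    have h3 : 20000 * δ = Real.exp (Real.log (20000 * δ)) := (Real.exp_log (by positivity)).symm
    rw [h2, h3, ← Real.exp_add]
    refine (Real.exp_le_exp.2 ?_).trans (le_of_eq Real.exp_zero)
    linarith
  · have h1 : -Real.log (20000 * δ) / Real.log 102400 < A + 1 := Nat.lt_floor_add_one _
    rw [div_lt_iff₀ hL] at h1
    have h2 : Real.log (20000 * δ) + Real.log 102400 = Real.log (2048000000 * δ) := by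
      rw [← Real.log_mul (by positivity) (by norm_num)]
      congr 1
      ring
    have h3 : Real.log (2048000000 * δ) ≤ Real.log (10 ^ 10 * δ) :=
      Real.log_le_log (by positivity) (by nlinarith)
    have h4 : (A : ℝ) * Real.log 102400 ≤ A * 12 :=
      mul_le_mul_of_nonneg_left mainGS_log (Nat.cast_nonneg _)
    nlinarith

theorem main_gs (hc : IsPCC c) (hn : 3 ≤ Fintype.card V) (v : V) {δ μ : ℝ} (hδ : 0 < δ)
    (hμ : 0 < μ) (hD : 10 ^ 10 * (Dmin c : ℝ) ≤ μ * Fintype.card V) :
    ({w | w ≠ v ∧ (1 - δ) * deg (constituent c (c v w)) v < xi (constituent c (c v w)) ∧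
      Fintype.card V * (10 ^ 10 * δ) ^ (μ * Fintype.card V / (10 ^ 10 * Dmin c)) <
        ({z | c v z = c v w}.ncard : ℝ)}.ncard : ℝ) ≤ μ * Fintype.card V := by
  classical
  set n : ℝ := (Fintype.card V : ℝ) with hn'
  have hn0 : 0 < n := by
    have : 0 < Fintype.card V := Fintype.card_pos_iff.2 ⟨v⟩
    rw [hn']; exact_mod_cast this
  obtain ⟨w₀, hw₀⟩ : ∃ w, w ≠ v := by
    have : Nontrivial V := Fintype.one_lt_card_iff_nontrivial.1 (by omega)
    exact exists_ne v
  have hne : {d | ∃ a b, a ≠ b ∧ d = distinguishing c a b}.Nonempty := ⟨_, w₀, v, hw₀, rfl⟩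
  obtain ⟨a, b, hab, hDab⟩ := Nat.sInf_mem hne
  have hDD : Dmin c = distinguishing c a b := hDab
  rw [hDD] at hD ⊢
  set D : ℝ := (distinguishing c a b : ℝ) with hDdef
  have hD0 : 0 < D := by
    have : 0 < distinguishing c a b := by
      rw [distinguishing, Set.ncard_pos]
      exact ⟨a, hc.diag_ne a a b hab⟩
    rw [hDdef]; exact_mod_cast this
  by_cases hδ1 : 10 ^ 10 * δ < 1
  swap
  · -- trivial case
    have hempty : {w | w ≠ v ∧ (1 - δ) * deg (constituent c (c v w)) v <
        xi (constituent c (c v w)) ∧ n * (10 ^ 10 * δ) ^ (μ * n / (10 ^ 10 * D)) <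
        ({z | c v z = c v w}.ncard : ℝ)} = ∅ := by
      ext w
      simp only [Set.mem_ofPred_eq, Set.mem_empty_iff_false, iff_false]
      rintro ⟨-, -, h⟩
      have h1 : (1 : ℝ) ≤ (10 ^ 10 * δ) ^ (μ * n / (10 ^ 10 * D)) :=
        Real.one_le_rpow (not_lt.1 hδ1) (by positivity)
      have h2 : ({z | c v z = c v w}.ncard : ℝ) ≤ n := by
        rw [hn']
        have := Set.ncard_le_ncard (Set.subset_univ {z | c v z = c v w}) (Set.toFinite _)
        rw [Set.ncard_univ, Nat.card_eq_fintype_card] at this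
        exact_mod_cast this
      have h3 : n * 1 ≤ n * (10 ^ 10 * δ) ^ (μ * n / (10 ^ 10 * D)) :=
        mul_le_mul_of_nonneg_left h1 hn0.le
      linarith
    rw [hempty]
    simp only [Set.ncard_empty, Nat.cast_zero]
    positivity
  obtain ⟨A, hA, hAL⟩ := mainGS_scales hδ hδ1
  set K : ℝ := 5 * D / (4 * n * μ) with hK
  have hK0 : 0 < K := by positivity
  have hK1 : K ≤ 1 / 100 := by
    rw [hK, div_le_iff₀ (by positivity)]
    nlinarith
  -- the exceptional sets
  have hB := bad_count hc hab (K := K) v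
  have hB2 := bad_count' hc hab (K := K) v
  have hF := diff_count hc a b K v
  rw [← hDdef] at hB hB2 hF
  have hB' : ({y | Bad c (c a b) K v y}.ncard : ℝ) ≤ 2 / 5 * (μ * n) := by
    have : K * (2 / 5 * (μ * n)) = D / 2 := by rw [hK]; field_simp; norm_num
    rw [← this] at hB
    exact le_of_mul_le_mul_left hB hK0
  have hB2' : ({y | Bad c (c a b) K y v}.ncard : ℝ) ≤ 2 / 5 * (μ * n) := by
    have : K * (2 / 5 * (μ * n)) = D / 2 := by rw [hK]; field_simp; norm_num
    rw [← this] at hB2
    exact le_of_mul_le_mul_left hB2 hK0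
  have hF' : ({w | w ≠ v ∧ 8 * K * deg (constituent c (c v w)) v <
      diffN c (c v w) a b}.ncard : ℝ) ≤ 1 / 5 * (μ * n) := by
    have : 8 * K * (1 / 5 * (μ * n)) = 2 * D := by rw [hK]; field_simp; norm_num
    rw [← this] at hF
    exact le_of_mul_le_mul_left hF (by positivity)
  have hsub : {w | w ≠ v ∧ (1 - δ) * deg (constituent c (c v w)) v <
      xi (constituent c (c v w)) ∧ n * (10 ^ 10 * δ) ^ (μ * n / (10 ^ 10 * D)) <
        ({z | c v z = c v w}.ncard : ℝ)} ⊆
      ({y | Bad c (c a b) K v y} ∪ {y | Bad c (c a b) K y v}) ∪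
      {w | w ≠ v ∧ 8 * K * deg (constituent c (c v w)) v < diffN c (c v w) a b} := by
    rintro w ⟨hwv, hslow, hval⟩
    by_contra hno
    simp only [Set.mem_union, Set.mem_ofPred_eq, not_or] at hno
    obtain ⟨⟨hnb, hnb2⟩, hnd⟩ := hno
    have hnd' : diffN c (c v w) a b ≤ 8 * K * deg (constituent c (c v w)) v := by
      by_contra h
      exact hnd ⟨hwv, not_le.1 h⟩
    -- an eigenvalue
    have hxine : (1 - δ) * deg (constituent c (c v w)) v < sSup {t | ∃ (θ : ℝ) (f : V → ℝ), f ≠ 0 ∧
        ∑ v, f v = 0 ∧ ((constituent c (c v w)).adjMatrix ℝ).mulVec f = θ • f ∧ t = |θ|} := hslow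
    have hnonempty : {t | ∃ (θ : ℝ) (f : V → ℝ), f ≠ 0 ∧
        ∑ v, f v = 0 ∧ ((constituent c (c v w)).adjMatrix ℝ).mulVec f = θ • f ∧
          t = |θ|}.Nonempty := by
      by_contra h
      rw [Set.not_nonempty_iff_eq_empty] at h
      rw [h, Real.sSup_empty] at hxine
      have : (0 : ℝ) ≤ (1 - δ) * deg (constituent c (c v w)) v :=
        mul_nonneg (by linarith) (Nat.cast_nonneg _)
      linarith
    obtain ⟨t, ⟨θ, f, hf, hf0, hev, rfl⟩, ht⟩ := exists_lt_of_lt_csSup hnonempty hxine
    obtain ⟨Q, hQ, hAQ⟩ := exists_proj_of_eigen hc (c v w) hf hf0 (by convert hev)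
    have hAeq : (constituent c (c v w)).adjMatrix ℝ = adjR c (c v w) := by
      ext x y
      rw [SimpleGraph.adjMatrix_apply, adjR]
    have hAQ' : adjR c (c v w) * Q = θ • Q := by
      rw [← hAeq]; convert hAQ
    have hcard := card_le_gs hc hn hQ (Ne.symm hwv) hAQ' hab hδ (by linarith) hK0 hK1 A hA ht.le
      hnd' v (by
        intro z hz k
        rcases hz with hz | hz
        · by_contra h
          apply hnb
          rw [bad_iff hc hab K hz.symm]
          exact ⟨k, not_le.1 h⟩
        · by_contra h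
          apply hnb2
          rw [bad_iff hc hab K hz.symm]
          exact ⟨k, not_le.1 h⟩)
    have hexp : Real.exp (-(A / (520000000 * K))) ≤
        (10 ^ 10 * δ) ^ (μ * n / (10 ^ 10 * D)) := by
      rw [Real.rpow_def_of_pos (by positivity)]
      refine Real.exp_le_exp.2 ?_
      have h1 : (A : ℝ) / (520000000 * K) = A * (μ * n / (650000000 * D)) := by
        rw [hK]; field_simp; ring
      rw [h1]
      have h2 : 0 < μ * n / D := by positivity
      have h3 : μ * n / (650000000 * D) = (μ * n / D) / 650000000 := by field_simp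
      have h4 : μ * n / (10 ^ 10 * D) = (μ * n / D) / 10 ^ 10 := by field_simp
      rw [h3, h4]
      have h5 : -Real.log (10 ^ 10 * δ) * (μ * n / D / 10 ^ 10) ≤
          12 * A * (μ * n / D / 10 ^ 10) :=
        mul_le_mul_of_nonneg_right hAL (by positivity)
      have h6 : 12 * (A : ℝ) * (μ * n / D / 10 ^ 10) ≤ A * (μ * n / D / 650000000) := by
        have : 0 ≤ (A : ℝ) * (μ * n / D) := by positivity
        nlinarith
      linarith
    have h7 := mul_le_mul_of_nonneg_left hexp hn0.le
    linarith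
  have h1 := Set.ncard_le_ncard hsub (Set.toFinite _)
  have h2 := Set.ncard_union_le ({y | Bad c (c a b) K v y} ∪ {y | Bad c (c a b) K y v})
    {w | w ≠ v ∧ 8 * K * deg (constituent c (c v w)) v < diffN c (c v w) a b}
  have h2' := Set.ncard_union_le {y | Bad c (c a b) K v y} {y | Bad c (c a b) K y v}
  have h3 : (({w | w ≠ v ∧ (1 - δ) * deg (constituent c (c v w)) v <
      xi (constituent c (c v w)) ∧ n * (10 ^ 10 * δ) ^ (μ * n / (10 ^ 10 * D)) <
        ({z | c v z = c v w}.ncard : ℝ)}.ncard : ℕ) : ℝ) ≤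
      (({y | Bad c (c a b) K v y}.ncard : ℝ) + ({y | Bad c (c a b) K y v}.ncard : ℝ)) +
      ({w | w ≠ v ∧ 8 * K * deg (constituent c (c v w)) v < diffN c (c v w) a b}.ncard : ℝ) := by
    have h4 := h1.trans (h2.trans (Nat.add_le_add_right h2' _))
    exact_mod_cast h4
  linarith

end Pool.Agent.Lib.MP_7beb49_co.GS
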