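import Pool.Agent.Lib.MP_7beb49_co_gs.Psd

/-!
# Metric (module Metric, 35 min): the metric of `ker Q 1`

`ρ x y = ‖e x - e y‖` with `e x ∈ EuclideanSpace ℝ (V × V)`, `e x (z, w) = Q x z * Q x w / Q x x`; the inner product of
`e x` and `e y` is `(∑ z, Q x z * Q y z)² / (Q x x)² = (Q x y)² / (Q x x)² = ker Q 1 x y` (`hQ.norm'`, constant diagonal).
`metric_hom`: `ρ x y` depends only on the colour (`ρ² = 2 (1 - ker)`, `ρ ≥ 0`), so `(P^t) x y * [s ≤ ρ x y]` are the entries of a matrix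
in `alg hc` (entrywise product of two functions of the colour), whose row sums are constant: multiply by the all-one matrix, which is in
`alg hc`, and compare the diagonal entries (`hc.homogeneous`).
-/

set_option autoImplicit false
set_option linter.unusedSectionVars false

namespace Pool.Agent.Lib.MP_7beb49_co.GS

open Finset Matrix Walk LogRank Polynomial

variable {V κ : Type} [Fintype V] [DecidableEq V] {c : V → V → κ} {Q : Matrix V V ℝ}

theorem exists_metric (hc : IsPCC c) (hQ : Proj c Q) : ∃ ρ : V → V → ℝ, (∀ x y, 0 ≤ ρ x y) ∧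
    (∀ x, ρ x x = 0) ∧ (∀ x y, ρ x y = ρ y x) ∧ (∀ x y z, ρ x z ≤ ρ x y + ρ y z) ∧
    ∀ x y, ρ x y ^ 2 = 2 * (1 - ker Q 1 x y) := by
  refine ⟨fun x y => ‖Proj.vec Q x - Proj.vec Q y‖, fun x y => norm_nonneg _, fun x => ?_,
    fun x y => norm_sub_rev _ _, fun x y z => ?_, fun x y => ?_⟩
  · change ‖Proj.vec Q x - Proj.vec Q x‖ = 0
    rw [sub_self, norm_zero]
  · exact norm_sub_le_norm_sub_add_norm_sub _ _ _
  · change ‖Proj.vec Q x - Proj.vec Q y‖ ^ 2 = 2 * (1 - ker Q 1 x y)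
    have h0 := hQ.pos hc x
    have h1 := hQ.norm_sub_sq hc x y
    rw [ker, Matrix.of_apply, pow_one, div_pow]
    have h2 : Q x x ^ 2 ≠ 0 := by positivity
    have h3 : ‖Proj.vec Q x - Proj.vec Q y‖ ^ 2 =
        2 * (Q x x ^ 2 - Q x y ^ 2) / Q x x ^ 2 := by
      rw [eq_div_iff h2, h1]
    rw [h3]
    field_simp

open Classical in
theorem metric_hom (hc : IsPCC c) (hQ : Proj c Q) {ρ : V → V → ℝ} (h0 : ∀ x y, 0 ≤ ρ x y)
    (hρ : ∀ x y, ρ x y ^ 2 = 2 * (1 - ker Q 1 x y)) {P : Matrix V V ℝ} (hP : P ∈ alg hc)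
    (s : ℝ) (t : ℕ) (x x' : V) : ∑ y, (P ^ t) x y * (if s ≤ ρ x y then 1 else 0) =
      ∑ y, (P ^ t) x' y * (if s ≤ ρ x' y then 1 else 0) := by
  have hcol : ∀ u v u' v', c u v = c u' v' → ρ u v = ρ u' v' := by
    intro u v u' v' h
    have h1 := hρ u v
    rw [ker_mem hc hQ 1 u v u' v' h, ← hρ u' v'] at h1
    exact (pow_left_inj₀ (h0 _ _) (h0 _ _) two_ne_zero).1 h1
  have hM : (Matrix.of fun x y => (P ^ t) x y * (if s ≤ ρ x y then 1 else 0) : Matrix V V ℝ) ∈
      alg hc := by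
    intro u v u' v' h
    rw [Matrix.of_apply, Matrix.of_apply, (alg hc).pow_mem hP t u v u' v' h, hcol u v u' v' h]
  have hJ : (Matrix.of fun _ _ => 1 : Matrix V V ℝ) ∈ alg hc := by
    intro u v u' v' _
    rw [Matrix.of_apply, Matrix.of_apply]
  have h1 := (alg hc).mul_mem hM hJ x x x' x' (hc.homogeneous x x')
  rw [Matrix.mul_apply, Matrix.mul_apply] at h1
  simpa only [Matrix.of_apply, mul_one] using h1

end Pool.Agent.Lib.MP_7beb49_co.GS
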