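import Pool.Agent.Lib.MP_7beb49_co_gs.GSDefs

/-!
# PSD (module Psd, 35 min): the matrices `ker Q k`

`ker_psd`: the matrix `Q x y / Q x x` is `(Q v v)⁻¹ • Q` (the diagonal of `Q` is constant,
`hQ.diag`), positive semidefinite as `Q = Qᵀ Q` (`Matrix.posSemidef_conjTranspose_mul_self`); Schur
powers by induction with `Matrix.PosSemidef.hadamard` (exponent `2 k`; exponent `0`: the all-one
matrix `vecMulVec 1 1`). `ker_le_one`: `entry_abs`. `ker_mem`: `hQ.mem`, diagonal constant.
`mo_X_pow`: the trace is `∑ x, ∑ y, K x y (P^t) y x`; the inner sum is the diagonal entry of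
`K * P^t ∈ alg hc`, so independent of `x` (homogeneity); `P^t` is symmetric.
-/

set_option autoImplicit false
set_option linter.unusedSectionVars false

namespace Pool.Agent.Lib.MP_7beb49_co.GS

open Finset Matrix Walk LogRank Polynomial

variable {V κ : Type} [Fintype V] [DecidableEq V] {c : V → V → κ} {Q : Matrix V V ℝ}

theorem ker_diag (hc : IsPCC c) (hQ : Proj c Q) (k : ℕ) (x : V) : ker Q k x x = 1 := by
  have h := (hQ.pos hc x).ne'
  rw [ker, Matrix.of_apply, div_self h, one_pow, one_pow]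

theorem ker_sym (hc : IsPCC c) (hQ : Proj c Q) (k : ℕ) (x y : V) : ker Q k x y = ker Q k y x := by
  rw [ker, Matrix.of_apply, Matrix.of_apply, hQ.symm x y, hQ.diag hc x y]

theorem ker_mem (hc : IsPCC c) (hQ : Proj c Q) (k : ℕ) : ker Q k ∈ alg hc := by
  intro u v u' v' h
  rw [ker, Matrix.of_apply, Matrix.of_apply, hQ.mem u v u' v' h, hQ.diag hc u u']

theorem ker_nonneg (k : ℕ) (x y : V) : 0 ≤ ker Q k x y := by
  rw [ker, Matrix.of_apply]
  positivity

theorem ker_le_one (hc : IsPCC c) (hQ : Proj c Q) (k : ℕ) (x y : V) : ker Q k x y ≤ 1 := by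
  rw [ker, Matrix.of_apply]
  refine pow_le_one₀ (sq_nonneg _) ?_
  have h1 := entry_abs hc hQ x y
  have h0 := hQ.pos hc x
  rw [hQ.symm y x] at h1
  rw [div_pow, div_le_one (by positivity), ← sq_abs (Q x y)]
  exact pow_le_pow_left₀ (abs_nonneg _) h1 2

theorem ker_pow (k : ℕ) (x y : V) : ker Q k x y = ker Q 1 x y ^ k := by
  rw [ker, ker, Matrix.of_apply, Matrix.of_apply, pow_one]

theorem ker_psd (hc : IsPCC c) (hQ : Proj c Q) (k : ℕ) : (ker Q k).PosSemidef := by
  have hQp : Q.PosSemidef := by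
    have h1 := Matrix.posSemidef_conjTranspose_mul_self Q
    rwa [conjTranspose_eq_transpose_of_trivial, hQ.sym, hQ.idem] at h1
  have hN : (Matrix.of fun x y => Q x y / Q x x : Matrix V V ℝ).PosSemidef := by
    by_cases hV : Nonempty V
    · obtain ⟨v⟩ := hV
      have h1 : (Matrix.of fun x y => Q x y / Q x x : Matrix V V ℝ) = (Q v v)⁻¹ • Q := by
        ext x y
        rw [Matrix.of_apply, Matrix.smul_apply, smul_eq_mul, hQ.diag hc x v, div_eq_inv_mul]
      rw [h1]
      exact hQp.smul (inv_nonneg.2 (hQ.pos hc v).le)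
    · have h1 : (Matrix.of fun x y => Q x y / Q x x : Matrix V V ℝ) = Q := by
        ext x y
        exact absurd ⟨x⟩ hV
      rw [h1]
      exact hQp
  induction k with
  | zero =>
    have h1 : ker Q 0 = vecMulVec (fun _ : V => (1 : ℝ)) (star fun _ : V => (1 : ℝ)) := by
      ext x y
      rw [ker, Matrix.of_apply, pow_zero, vecMulVec_apply]
      simp
    rw [h1]
    exact posSemidef_vecMulVec_self_star _
  | succ k ih =>
    have h1 : ker Q (k + 1) = ker Q k ⊙
        ((Matrix.of fun x y => Q x y / Q x x : Matrix V V ℝ) ⊙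
          (Matrix.of fun x y => Q x y / Q x x : Matrix V V ℝ)) := by
      ext x y
      rw [Matrix.hadamard_apply, Matrix.hadamard_apply, ker, ker, Matrix.of_apply,
        Matrix.of_apply, Matrix.of_apply, pow_succ, sq (Q x y / Q x x)]
    rw [h1]
    exact ih.hadamard (hN.hadamard hN)

/-- row sums of `ker Q 1` -/
theorem ker_sum (hc : IsPCC c) (hQ : Proj c Q) (x : V) : ∑ y, ker Q 1 x y = 1 / Q x x := by
  have h0 := hQ.pos hc x
  have h1 : ∀ y, ker Q 1 x y = Q x y ^ 2 * (Q x x ^ 2)⁻¹ := fun y => by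
    rw [ker, Matrix.of_apply, pow_one, div_pow, div_eq_mul_inv]
  rw [Finset.sum_congr rfl fun y _ => h1 y, ← Finset.sum_mul, hQ.sum_sq]
  field_simp

theorem aeval_mem (hc : IsPCC c) {P : Matrix V V ℝ} (hP : P ∈ alg hc) (p : ℝ[X]) :
    aeval P p ∈ alg hc := by
  have h := Polynomial.aeval_algHom_apply (alg hc).val ⟨P, hP⟩ p
  have h1 : (alg hc).val ⟨P, hP⟩ = P := rfl
  rw [h1] at h
  rw [h]
  exact (aeval (⟨P, hP⟩ : alg hc) p).2

theorem aeval_sym {P : Matrix V V ℝ} (hP : P.transpose = P) (p : ℝ[X]) :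
    (aeval P p).transpose = aeval P p :=
  aeval_transpose hP p

theorem mo_X_pow (hc : IsPCC c) {K P : Matrix V V ℝ} (hK : K ∈ alg hc) (hP : P ∈ alg hc)
    (hPs : P.transpose = P) (t : ℕ) (x : V) : mo K P (X ^ t) = ∑ y, (P ^ t) x y * K x y := by
  have hm : K * P ^ t ∈ alg hc := (alg hc).mul_mem hK ((alg hc).pow_mem hP t)
  have h1 : ∀ y, (K * P ^ t) y y = (K * P ^ t) x x := fun y =>
    hm _ _ _ _ (hc.homogeneous y x)
  have h2 : (K * P ^ t).trace = Fintype.card V * (K * P ^ t) x x := by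
    rw [Matrix.trace]
    simp only [Matrix.diag_apply, h1]
    rw [Finset.sum_const, nsmul_eq_mul, Finset.card_univ]
  have hn : (Fintype.card V : ℝ) ≠ 0 := by
    have : 0 < Fintype.card V := Fintype.card_pos_iff.2 ⟨x⟩
    positivity
  rw [mo, map_pow, aeval_X, h2, mul_div_cancel_left₀ _ hn, Matrix.mul_apply]
  refine Finset.sum_congr rfl fun y _ => ?_
  have h3 : (P ^ t) y x = (P ^ t) x y := by
    conv_lhs => rw [← pow_sym hPs t]
    rfl
  rw [h3, mul_comm]

end Pool.Agent.Lib.MP_7beb49_co.GS
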