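import Pool.Agent.Lib.MP_7beb49_co_gs.Psd
import Pool.Agent.Lib.MP_7beb49_co_gs.SpecPsd

/-!
# Vt (module Vt, 50 min): the function `vt`

`P = lazy (W c (c a b))`. By `spec_psd` for `K = ker Q 1` we have `vt Q P t = 1 - (∑ q i * lam i ^ t) / n` with `∑ q i = n`
(`p = 1`, the trace of `ker Q 1` is `n`). So monotone; `vt_step`: the increments `(∑ q i lam^t (1 - lam))/n` decrease, the first is
`1 - mo (ker Q 1) P X = (1 - ker Q 1 a b)/2` (`mo_X_pow` with `t = 1`, `lazy_apply`, `W` has total mass `1` on pairs where `ker Q 1` equals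
`ker Q 1 a b`, `edge_eq`); `vt_mul`: `1 - x^(16 t) ≤ 16 (1 - x^t)`. `vt_large`: `vt Q P t → 1 - (∑_{lam i = 1} q i)/n`, and
`∑_{lam i = 1} q i ≤ (∑∑ ker Q 1)/n = 1/Q x x ≤ n/2` (last part of `spec_psd`, connectedness as in `LogRank.card_le`: `const_of_adj`, `hc.primitive a b hab`;
`ker_sum`; `Proj.two_le`), so the limit is `≥ 1/2`.
-/

set_option autoImplicit false
set_option linter.unusedSectionVars false

namespace Pool.Agent.Lib.MP_7beb49_co.GS

open Finset Matrix Walk LogRank Polynomial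

variable {V κ : Type} [Fintype V] [DecidableEq V] {c : V → V → κ} {Q : Matrix V V ℝ}

theorem Vt_spec (hc : IsPCC c) (hQ : Proj c Q) {a b : V} (hab : a ≠ b) :
    ∃ lam q : V → ℝ, (∀ i, 0 ≤ lam i) ∧ (∀ i, lam i ≤ 1) ∧ (∀ i, 0 ≤ q i) ∧ (∑ i, q i = 1) ∧
      (∀ t, vt Q (lazy (W c (c a b))) t = 1 - ∑ i, q i * lam i ^ t) ∧
      ∑ i, (if lam i = 1 then q i else 0) ≤ 1 / ((Fintype.card V : ℝ) * Q a a) := by
  obtain ⟨lam, q, h0, h1, hq, htr, hlast⟩ := spec_psd (W_isWalk hc hab) (ker_psd hc hQ 1)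
  have hn : (0 : ℝ) < Fintype.card V := by
    have : 0 < Fintype.card V := Fintype.card_pos_iff.2 ⟨a⟩
    exact_mod_cast this
  have hmo : ∀ p : ℝ[X], mo (ker Q 1) (lazy (W c (c a b))) p =
      ∑ i, q i / Fintype.card V * p.eval (lam i) := by
    intro p
    unfold mo
    rw [htr p, Finset.sum_div]
    exact Finset.sum_congr rfl fun i _ => by ring
  have hlast' := hlast (by
    intro g hg
    refine const_of_adj (hc.primitive a b hab) fun u v huv => hg u v ?_
    rw [W_eq hc huv a]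
    have := deg_pos hc hab a
    positivity)
  have hK : ∑ x, ∑ y, ker Q 1 x y = Fintype.card V * (1 / Q a a) := by
    have h2 : ∀ x, ∑ y, ker Q 1 x y = 1 / Q a a := by
      intro x
      rw [ker_sum hc hQ x, hQ.diag hc x a]
    rw [Finset.sum_congr rfl fun x _ => h2 x, Finset.sum_const, nsmul_eq_mul, Finset.card_univ]
  have hpos := hQ.pos hc a
  refine ⟨lam, fun i => q i / Fintype.card V, h0, h1, fun i => div_nonneg (hq i) hn.le, ?_, ?_, ?_⟩
  · have h2 := hmo 1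
    simp only [eval_one, mul_one] at h2
    rw [← h2]
    unfold mo
    rw [map_one, Matrix.mul_one, Matrix.trace]
    have h3 : ∀ x, (ker Q 1).diag x = 1 := fun x => ker_diag hc hQ 1 x
    rw [Finset.sum_congr rfl fun x _ => h3 x, Finset.sum_const, nsmul_eq_mul, Finset.card_univ,
      mul_one, div_self hn.ne']
  · intro t
    unfold vt
    rw [hmo]
    simp only [eval_pow, eval_X]
  · have h4 : ∑ i, (if lam i = 1 then q i / (Fintype.card V : ℝ) else 0) =
        (∑ i, (if lam i = 1 then q i else 0)) / Fintype.card V := by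
      rw [Finset.sum_div]
      refine Finset.sum_congr rfl fun i _ => ?_
      split_ifs <;> simp
    rw [h4, div_le_iff₀ hn]
    refine hlast'.trans (le_of_eq ?_)
    rw [hK]
    field_simp

theorem vt_zero (hc : IsPCC c) (hQ : Proj c Q) {a b : V} (hab : a ≠ b) :
    vt Q (lazy (W c (c a b))) 0 = 0 := by
  obtain ⟨lam, q, h0, h1, hq, hs, hvt, -⟩ := Vt_spec hc hQ hab
  rw [hvt]
  simp [hs]

theorem vt_mono (hc : IsPCC c) (hQ : Proj c Q) {a b : V} (hab : a ≠ b) {s t : ℕ} (h : s ≤ t) :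
    vt Q (lazy (W c (c a b))) s ≤ vt Q (lazy (W c (c a b))) t := by
  obtain ⟨lam, q, h0, h1, hq, hs, hvt, -⟩ := Vt_spec hc hQ hab
  rw [hvt, hvt]
  have : ∑ i, q i * lam i ^ t ≤ ∑ i, q i * lam i ^ s := Finset.sum_le_sum fun i _ =>
    mul_le_mul_of_nonneg_left (pow_le_pow_of_le_one (h0 i) (h1 i) h) (hq i)
  linarith

theorem vt_nonneg (hc : IsPCC c) (hQ : Proj c Q) {a b : V} (hab : a ≠ b) (t : ℕ) :
    0 ≤ vt Q (lazy (W c (c a b))) t := by
  rw [← vt_zero hc hQ hab]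
  exact vt_mono hc hQ hab (Nat.zero_le t)

theorem vt_one (hc : IsPCC c) (hQ : Proj c Q) {a b : V} (hab : a ≠ b) :
    vt Q (lazy (W c (c a b))) 1 = (1 - ker Q 1 a b) / 2 := by
  have hKm := ker_mem hc hQ 1
  have hKs : (ker Q 1).transpose = ker Q 1 := by
    ext x y
    exact ker_sym hc hQ 1 y x
  unfold vt
  rw [mo_X_pow hc hKm (lazy_mem hc _) (lazy_sym hc hab) 1 a]
  have h4 : ∀ z, (lazy (W c (c a b)) ^ 1) a z * ker Q 1 a z =
      (1 / 2 : ℝ) * (if a = z then ker Q 1 a z else 0) +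
        (1 / 2 : ℝ) * (ker Q 1 a b * W c (c a b) a z) := by
    intro z
    rw [pow_one, lazy_apply]
    by_cases h5 : (constituent c (c a b)).Adj a z
    · rw [edge_eq hc hKm hKs h5]
      by_cases haz : a = z
      · exact absurd haz h5.ne
      · rw [if_neg haz, if_neg haz]
        ring
    · rw [W_of_not h5]
      split_ifs <;> ring
  rw [Finset.sum_congr rfl fun z _ => h4 z, Finset.sum_add_distrib, ← Finset.mul_sum,
    ← Finset.mul_sum, ← Finset.mul_sum, (W_isWalk hc hab).sum]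
  rw [Finset.sum_ite_eq, if_pos (Finset.mem_univ _), ker_diag hc hQ]
  ring

theorem vt_step (hc : IsPCC c) (hQ : Proj c Q) {a b : V} (hab : a ≠ b) (t : ℕ) :
    vt Q (lazy (W c (c a b))) (t + 1) ≤
      vt Q (lazy (W c (c a b))) t + (1 - ker Q 1 a b) / 2 := by
  rw [← vt_one hc hQ hab]
  obtain ⟨lam, q, h0, h1, hq, hs, hvt, -⟩ := Vt_spec hc hQ hab
  rw [hvt, hvt, hvt]
  have h2 : ∑ i, q i * lam i ^ t - ∑ i, q i * lam i ^ (t + 1) ≤ 1 - ∑ i, q i * lam i ^ 1 := by
    rw [← hs, ← Finset.sum_sub_distrib, ← Finset.sum_sub_distrib]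
    refine Finset.sum_le_sum fun i _ => ?_
    have h3 : q i * lam i ^ t - q i * lam i ^ (t + 1) = q i * (lam i ^ t * (1 - lam i)) := by ring
    have h4 : q i - q i * lam i ^ 1 = q i * (1 * (1 - lam i)) := by ring
    rw [h3, h4]
    refine mul_le_mul_of_nonneg_left ?_ (hq i)
    exact mul_le_mul_of_nonneg_right (pow_le_one₀ (h0 i) (h1 i)) (by linarith [h1 i])
  linarith

theorem Vt_scalar {x : ℝ} (h0 : 0 ≤ x) (h1 : x ≤ 1) (m : ℕ) : 1 - x ^ m ≤ m * (1 - x) := by
  induction m with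
  | zero => simp
  | succ m ih =>
    have h2 : x ^ (m + 1) = x ^ m * x := pow_succ _ _
    have h3 : x ^ m ≤ 1 := pow_le_one₀ h0 h1
    have h4 : 0 ≤ x ^ m := pow_nonneg h0 _
    push_cast
    nlinarith

theorem vt_mul (hc : IsPCC c) (hQ : Proj c Q) {a b : V} (hab : a ≠ b) (t : ℕ) :
    vt Q (lazy (W c (c a b))) (16 * t) ≤ 16 * vt Q (lazy (W c (c a b))) t := by
  obtain ⟨lam, q, h0, h1, hq, hs, hvt, -⟩ := Vt_spec hc hQ hab
  rw [hvt, hvt]
  have h2 : 1 - ∑ i, q i * lam i ^ (16 * t) = ∑ i, q i * (1 - (lam i ^ t) ^ 16) := by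
    simp only [mul_sub, mul_one, Finset.sum_sub_distrib, hs, ← pow_mul, mul_comm t 16]
  have h3 : 1 - ∑ i, q i * lam i ^ t = ∑ i, q i * (1 - lam i ^ t) := by
    simp only [mul_sub, mul_one, Finset.sum_sub_distrib, hs]
  rw [h2, h3, Finset.mul_sum]
  refine Finset.sum_le_sum fun i _ => ?_
  have h4 := Vt_scalar (pow_nonneg (h0 i) t) (pow_le_one₀ (h0 i) (h1 i)) 16
  push_cast at h4
  calc q i * (1 - (lam i ^ t) ^ 16) ≤ q i * (16 * (1 - lam i ^ t)) :=
        mul_le_mul_of_nonneg_left h4 (hq i)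
    _ = _ := by ring

theorem vt_large (hc : IsPCC c) (hQ : Proj c Q) (hn : 3 ≤ Fintype.card V) {a b : V}
    (hab : a ≠ b) : ∃ t, 1 / 4 ≤ vt Q (lazy (W c (c a b))) t := by
  obtain ⟨lam, q, h0, h1, hq, hs, hvt, hlast⟩ := Vt_spec hc hQ hab
  have h2 := hQ.two_le hc hn a
  have h3 : (1 : ℝ) / ((Fintype.card V : ℝ) * Q a a) ≤ 1 / 2 :=
    one_div_le_one_div_of_le (by norm_num) h2
  have hlim : Filter.Tendsto (fun t : ℕ => ∑ i, q i * lam i ^ t) Filter.atTop
      (nhds (∑ i, (if lam i = 1 then q i else 0))) := by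
    refine tendsto_finsetSum _ fun i _ => ?_
    rcases (h1 i).lt_or_eq with h | h
    · rw [if_neg h.ne]
      have := (tendsto_pow_atTop_nhds_zero_of_lt_one (h0 i) h).const_mul (q i)
      rw [mul_zero] at this
      exact this
    · rw [if_pos h, h]
      simp only [one_pow, mul_one]
      exact tendsto_const_nhds
  obtain ⟨t, ht⟩ := ((tendsto_order.1 hlim).2 (3 / 4) (by linarith)).exists
  refine ⟨t, ?_⟩
  rw [hvt]
  linarith

end Pool.Agent.Lib.MP_7beb49_co.GS
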