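import Pool.Agent.Lib.MP_7beb49_co_gs.Metric
import Pool.Agent.Lib.MP_7beb49_co_gs.Vt
import Pool.Agent.Lib.MP_7beb49_co_gs.Exit

/-!
# Spread (module Spread, 75 min): `1 - u²` is at least half its mean with probability `≥ 1/300`

`P = lazy (W c (c a b))`, `v = vt Q P T`. If `v ≤ 0` the indicator is always `1` (`ker ≤ 1`). Let `v > 0`, `ρ` the metric of `exists_metric`;
`∑ y, (P^t) x y * ρ x y ^ 2 = 2 vt t` (`mo_X_pow`, row sums 1). Steps: `P y z ≠ 0` implies `ρ y z² ≤ 2 (1 - ker Q 1 a b) = 4 vt 1 ≤ 4 v`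
(`edge_eq`, `vt_one`, `vt_mono`), so `σ = 2 √v`. Take `r = 4 √v`: for `t ≤ T` Chebyshev: `∑ P^t [2√v ≤ ρ] ≤ 2 vt t / (4 v) ≤ 1/2`.
Let `p1 = ∑ y, (P^T) x y [v ≤ ρ²]`, suppose `p1 < 1/300`; the number `p = ∑ (P^T) x y [2√v ≤ ρ] ≤ p1`. `exit_tail` at `t = T`:
`∑ y, (P^T) x y [j * 6√v ≤ ρ] ≤ (2 p)^j ≤ (1/150)^j`. Pointwise, with `J` such that `J * 6 √v > 2 ≥ ρ`:
`ρ² ≤ v + 40 v [v ≤ ρ²] + 36 v ∑_{j=1}^{J} (2j+1) [j * 6√v ≤ ρ]`
(if `ρ² < v` clear; if `v ≤ ρ²`, with `m = ⌊ρ/(6√v)⌋ ≤ J`: `ρ² < 36 v (m+1)² = 36 v ∑_{j=0}^m (2j+1)`).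
Taking means: `2 v ≤ v + 40 v/300 + 36 v ∑_{j ≥ 1} 3^j/150^j ≤ v (1 + 0.134 + 36/49)`, a contradiction (`2j+1 ≤ 3^j`).
-/

set_option autoImplicit false
set_option linter.unusedSectionVars false

namespace Pool.Agent.Lib.MP_7beb49_co.GS

open Finset Matrix Walk LogRank Polynomial

variable {V κ : Type} [Fintype V] [DecidableEq V] {c : V → V → κ} {Q : Matrix V V ℝ}

theorem spread_sq_sum (m : ℕ) : ∑ j ∈ Icc 1 m, (2 * (j : ℝ) + 1) = ((m : ℝ) + 1) ^ 2 - 1 := by
  induction m with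
  | zero => simp
  | succ m ih =>
    rw [Finset.sum_Icc_succ_top (by omega), ih]
    push_cast
    ring

theorem spread_geom (J : ℕ) :
    ∑ j ∈ Icc 1 J, (1 / 50 : ℝ) ^ j = 1 / 49 - 1 / 49 * (1 / 50) ^ J := by
  induction J with
  | zero => simp
  | succ J ih =>
    rw [Finset.sum_Icc_succ_top (by omega), ih, pow_succ]
    ring

theorem spread_series (J : ℕ) :
    ∑ j ∈ Icc 1 J, (2 * (j : ℝ) + 1) * (1 / 150) ^ j ≤ 1 / 49 := by
  have h1 : ∀ j ∈ Icc 1 J, (2 * (j : ℝ) + 1) * (1 / 150) ^ j ≤ (1 / 50 : ℝ) ^ j := by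
    intro j _
    have h2 := one_add_mul_le_pow (a := (2 : ℝ)) (by norm_num) j
    have h3 : (1 / 50 : ℝ) ^ j = 3 ^ j * (1 / 150) ^ j := by
      rw [← mul_pow]
      norm_num
    rw [h3]
    refine mul_le_mul_of_nonneg_right ?_ (by positivity)
    have h4 : (1 + 2 : ℝ) = 3 := by norm_num
    rw [h4] at h2
    linarith
  refine (Finset.sum_le_sum h1).trans ?_
  rw [spread_geom]
  have : (0 : ℝ) ≤ 1 / 49 * (1 / 50) ^ J := by positivity
  linarith

open Classical in
/-- the pointwise bound -/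
theorem spread_point {v s r : ℝ} (hs : 0 < s) (hv : v = s ^ 2) (hr0 : 0 ≤ r) (hr2 : r ≤ 2) :
    r ^ 2 ≤ v + 40 * v * (if v ≤ r ^ 2 then 1 else 0) +
      36 * v * ∑ j ∈ Icc 1 ⌊2 / (6 * s)⌋₊, (2 * (j : ℝ) + 1) *
        (if (j : ℝ) * (4 * s + 2 * s) ≤ r then 1 else 0) := by
  have hv0 : 0 < v := by rw [hv]; positivity
  have hnn : ∀ j : ℕ, 0 ≤ (2 * (j : ℝ) + 1) *
      (if (j : ℝ) * (4 * s + 2 * s) ≤ r then (1 : ℝ) else 0) := by
    intro j
    split_ifs
    · positivity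
    · rw [mul_zero]
  split_ifs with h
  · set m := ⌊r / (6 * s)⌋₊ with hm
    have h6 : 0 < 6 * s := by linarith
    have hmJ : m ≤ ⌊2 / (6 * s)⌋₊ :=
      Nat.floor_le_floor (div_le_div_of_nonneg_right hr2 h6.le)
    have hm1 : (m : ℝ) ≤ r / (6 * s) := Nat.floor_le (div_nonneg hr0 h6.le)
    have hm2 : r / (6 * s) < m + 1 := Nat.lt_floor_add_one _
    rw [le_div_iff₀ h6] at hm1
    rw [div_lt_iff₀ h6] at hm2
    have h1 : ∑ j ∈ Icc 1 m, (2 * (j : ℝ) + 1) ≤
        ∑ j ∈ Icc 1 ⌊2 / (6 * s)⌋₊, (2 * (j : ℝ) + 1) *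
          (if (j : ℝ) * (4 * s + 2 * s) ≤ r then 1 else 0) := by
      calc ∑ j ∈ Icc 1 m, (2 * (j : ℝ) + 1) = ∑ j ∈ Icc 1 m, (2 * (j : ℝ) + 1) *
            (if (j : ℝ) * (4 * s + 2 * s) ≤ r then 1 else 0) := by
            refine Finset.sum_congr rfl fun j hj => ?_
            rw [Finset.mem_Icc] at hj
            rw [if_pos, mul_one]
            have h2 : (j : ℝ) ≤ m := by exact_mod_cast hj.2
            have h3 : (j : ℝ) * (6 * s) ≤ m * (6 * s) := mul_le_mul_of_nonneg_right h2 h6.le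
            have h4 : 4 * s + 2 * s = 6 * s := by ring
            rw [h4]
            linarith
        _ ≤ _ := by
            refine Finset.sum_le_sum_of_subset_of_nonneg ?_ fun j _ _ => hnn j
            exact Finset.Icc_subset_Icc le_rfl hmJ
    rw [spread_sq_sum] at h1
    have h2 : r ^ 2 ≤ 36 * v * ((m : ℝ) + 1) ^ 2 := by
      have h3 : r ^ 2 ≤ (((m : ℝ) + 1) * (6 * s)) ^ 2 := pow_le_pow_left₀ hr0 hm2.le 2
      rw [hv]
      calc r ^ 2 ≤ (((m : ℝ) + 1) * (6 * s)) ^ 2 := h3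
        _ = _ := by ring
    have h3 := mul_le_mul_of_nonneg_left h1 (show 0 ≤ 36 * v by positivity)
    linarith
  · push Not at h
    have h1 : 0 ≤ ∑ j ∈ Icc 1 ⌊2 / (6 * s)⌋₊, (2 * (j : ℝ) + 1) *
        (if (j : ℝ) * (4 * s + 2 * s) ≤ r then (1 : ℝ) else 0) :=
      Finset.sum_nonneg fun j _ => hnn j
    have h2 : 0 ≤ 36 * v * ∑ j ∈ Icc 1 ⌊2 / (6 * s)⌋₊, (2 * (j : ℝ) + 1) *
        (if (j : ℝ) * (4 * s + 2 * s) ≤ r then (1 : ℝ) else 0) := by positivity
    linarith

theorem spread_transpose {P : Matrix V V ℝ} (hP : IsWalk P) : P.transpose = P := by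
  ext x y
  rw [Matrix.transpose_apply]
  exact hP.symm y x

theorem spread_pow_isWalk {P : Matrix V V ℝ} (hP : IsWalk P) (t : ℕ) : IsWalk (P ^ t) := by
  induction t with
  | zero =>
    rw [pow_zero]
    refine ⟨fun x y => ?_, fun x y => ?_, fun x => ?_⟩
    · rw [Matrix.one_apply]
      split_ifs <;> norm_num
    · rw [Matrix.one_apply, Matrix.one_apply]
      by_cases h : x = y
      · rw [if_pos h, if_pos h.symm]
      · rw [if_neg h, if_neg (fun h' => h h'.symm)]
    · rw [Finset.sum_eq_single x]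
      · exact Matrix.one_apply_eq x
      · intro y _ hy
        exact Matrix.one_apply_ne hy.symm
      · intro h
        exact absurd (Finset.mem_univ x) h
  | succ t ih =>
    refine ⟨fun x y => ?_, fun x y => ?_, fun x => ?_⟩
    · rw [pow_succ, Matrix.mul_apply]
      exact Finset.sum_nonneg fun z _ => mul_nonneg (ih.nonneg x z) (hP.nonneg z y)
    · have h := Matrix.transpose_pow P (t + 1)
      rw [spread_transpose hP] at h
      have h2 := congrFun (congrFun h x) y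
      rw [Matrix.transpose_apply] at h2
      exact h2.symm
    · rw [pow_succ]
      simp only [Matrix.mul_apply]
      rw [Finset.sum_comm]
      have h : ∀ z ∈ (Finset.univ : Finset V), ∑ y, (P ^ t) x z * P z y = (P ^ t) x z := by
        intro z _
        rw [← Finset.mul_sum, hP.sum, mul_one]
      rw [Finset.sum_congr rfl h, ih.sum]

open Classical in
theorem spread (hc : IsPCC c) (hQ : Proj c Q) {a b : V} (hab : a ≠ b) {T : ℕ} (hT : 1 ≤ T)
    (x : V) : 1 / 300 ≤ ∑ y, (lazy (W c (c a b)) ^ T) x y *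
      (if vt Q (lazy (W c (c a b))) T ≤ 2 * (1 - ker Q 1 x y) then 1 else 0) := by
  obtain ⟨ρ, hρ0, hρx, hρs, htri, hρ⟩ := exists_metric hc hQ
  have hWalk := lazy_isWalk (W_isWalk hc hab)
  have hvm : ∀ t, ∑ y, (lazy (W c (c a b)) ^ t) x y * ρ x y ^ 2 =
      2 * vt Q (lazy (W c (c a b))) t := by
    intro t
    unfold vt
    rw [mo_X_pow hc (ker_mem hc hQ 1) (lazy_mem hc _) (spread_transpose hWalk) t x]
    have h1 : ∀ y ∈ (Finset.univ : Finset V), (lazy (W c (c a b)) ^ t) x y * ρ x y ^ 2 =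
        2 * ((lazy (W c (c a b)) ^ t) x y -
          (lazy (W c (c a b)) ^ t) x y * ker Q 1 x y) := by
      intro y _
      rw [hρ]
      ring
    rw [Finset.sum_congr rfl h1, ← Finset.mul_sum, Finset.sum_sub_distrib,
      (spread_pow_isWalk hWalk t).sum]
  have hvT1 := vt_mono hc hQ hab hT
  have hv1 := vt_one hc hQ hab
  have hmono : ∀ t ≤ T, vt Q (lazy (W c (c a b))) t ≤ vt Q (lazy (W c (c a b))) T :=
    fun t ht => vt_mono hc hQ hab ht
  set P := lazy (W c (c a b)) with hP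
  set v := vt Q P T with hv
  have hPT := spread_pow_isWalk hWalk T
  simp only [← hρ]
  by_cases hv0 : v ≤ 0
  · have h1 : ∀ y ∈ (Finset.univ : Finset V),
        (P ^ T) x y * (if v ≤ ρ x y ^ 2 then (1 : ℝ) else 0) = (P ^ T) x y := by
      intro y _
      rw [if_pos (hv0.trans (sq_nonneg _)), mul_one]
    rw [Finset.sum_congr rfl h1, hPT.sum]
    norm_num
  · push Not at hv0
    by_contra hcon
    push Not at hcon
    set s := Real.sqrt v with hs
    have hs0 : 0 < s := Real.sqrt_pos.mpr hv0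
    have hvs : v = s ^ 2 := (Real.sq_sqrt hv0.le).symm
    have hσ : ∀ y z, P y z ≠ 0 → ρ y z ≤ 2 * s := by
      intro y z hyz
      by_cases heq : y = z
      · subst heq
        rw [hρx]
        positivity
      · have h1 : (constituent c (c a b)).Adj y z := by
          by_contra hna
          apply hyz
          rw [hP, lazy_apply, W_of_not hna, if_neg heq]
          ring
        have h2 : ker Q 1 y z = ker Q 1 a b :=
          edge_eq hc (ker_mem hc hQ 1) (by
            ext u w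
            rw [Matrix.transpose_apply]
            exact ker_sym hc hQ 1 w u) h1
        have h3 : ρ y z ^ 2 ≤ (2 * s) ^ 2 := by
          rw [hρ, h2, mul_pow, ← hvs]
          linarith
        exact le_of_sq_le_sq h3 (by positivity)
    have hhalf : ∀ t ≤ T, ∑ y, (P ^ t) x y * (if 4 * s / 2 ≤ ρ x y then 1 else 0) ≤ 1 / 2 := by
      intro t ht
      have hPt := spread_pow_isWalk hWalk t
      have h1 : ∀ y ∈ (Finset.univ : Finset V),
          (P ^ t) x y * (if 4 * s / 2 ≤ ρ x y then (1 : ℝ) else 0) ≤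
            (P ^ t) x y * ρ x y ^ 2 * (1 / (4 * v)) := by
        intro y _
        rw [mul_assoc]
        refine mul_le_mul_of_nonneg_left ?_ (hPt.nonneg x y)
        split_ifs with h
        · rw [mul_one_div, le_div_iff₀ (by positivity), hvs]
          have h2 : 2 * s ≤ ρ x y := by linarith
          have h3 : (2 * s) ^ 2 ≤ ρ x y ^ 2 := pow_le_pow_left₀ (by positivity) h2 2
          linarith
        · positivity
      refine (Finset.sum_le_sum h1).trans ?_
      rw [← Finset.sum_mul, hvm, mul_one_div, div_le_div_iff₀ (by positivity) (by norm_num)]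
      have := hmono t ht
      linarith
    have htail := exit_tail hWalk hρ0 hρx hρs htri
      (fun s' t' x₁ x₂ => metric_hom hc hQ hρ0 hρ (lazy_mem hc _) s' t' x₁ x₂)
      (σ := 2 * s) (r := 4 * s) (by positivity) hσ (by positivity) x hhalf
    set p1 := ∑ y, (P ^ T) x y * (if v ≤ ρ x y ^ 2 then (1 : ℝ) else 0) with hp1
    have hp : ∑ y, (P ^ T) x y * (if 4 * s / 2 ≤ ρ x y then (1 : ℝ) else 0) ≤ p1 := by
      refine Finset.sum_le_sum fun y _ => mul_le_mul_of_nonneg_left ?_ (hPT.nonneg x y)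
      split_ifs with h h'
      · exact le_rfl
      · exfalso
        apply h'
        have h2 : 2 * s ≤ ρ x y := by linarith
        have h3 : (2 * s) ^ 2 ≤ ρ x y ^ 2 := pow_le_pow_left₀ (by positivity) h2 2
        rw [mul_pow, ← hvs] at h3
        linarith
      · exact zero_le_one
      · exact le_rfl
    have hp0 : 0 ≤ ∑ y, (P ^ T) x y * (if 4 * s / 2 ≤ ρ x y then (1 : ℝ) else 0) := by
      refine Finset.sum_nonneg fun y _ => mul_nonneg (hPT.nonneg x y) ?_
      split_ifs <;> norm_num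
    have htail2 : ∀ j : ℕ, ∑ y, (P ^ T) x y * (if (j : ℝ) * (4 * s + 2 * s) ≤ ρ x y then 1 else 0) ≤
        (1 / 150 : ℝ) ^ j := by
      intro j
      refine (htail j T le_rfl).trans ?_
      refine pow_le_pow_left₀ (by positivity) ?_ j
      linarith
    have hρ2 : ∀ y, ρ x y ≤ 2 := by
      intro y
      have h1 : ρ x y ^ 2 ≤ 2 ^ 2 := by
        rw [hρ]
        have := ker_nonneg (Q := Q) 1 x y
        linarith
      exact le_of_sq_le_sq h1 (by norm_num)
    have hmean : 2 * v ≤ v + 40 * v * p1 + 36 * v * ∑ j ∈ Icc 1 ⌊2 / (6 * s)⌋₊,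
        (2 * (j : ℝ) + 1) *
          ∑ y, (P ^ T) x y * (if (j : ℝ) * (4 * s + 2 * s) ≤ ρ x y then 1 else 0) := by
      rw [← hvm T]
      have h1 : ∀ y ∈ (Finset.univ : Finset V), (P ^ T) x y * ρ x y ^ 2 ≤ (P ^ T) x y * v +
          40 * v * ((P ^ T) x y * (if v ≤ ρ x y ^ 2 then 1 else 0)) +
          36 * v * ∑ j ∈ Icc 1 ⌊2 / (6 * s)⌋₊, (2 * (j : ℝ) + 1) *
            ((P ^ T) x y * (if (j : ℝ) * (4 * s + 2 * s) ≤ ρ x y then 1 else 0)) := by
        intro y _
        have h2 := mul_le_mul_of_nonneg_left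
          (spread_point hs0 hvs (hρ0 x y) (hρ2 y)) (hPT.nonneg x y)
        refine h2.trans (le_of_eq ?_)
        rw [mul_add, mul_add]
        congr 1
        · ring
        · rw [mul_left_comm, Finset.mul_sum]
          congr 1
          refine Finset.sum_congr rfl fun j _ => ?_
          ring
      refine (Finset.sum_le_sum h1).trans (le_of_eq ?_)
      rw [Finset.sum_add_distrib, Finset.sum_add_distrib, ← Finset.sum_mul, hPT.sum, one_mul,
        ← Finset.mul_sum, ← Finset.mul_sum, Finset.sum_comm]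
      congr 2
      refine Finset.sum_congr rfl fun j _ => ?_
      rw [Finset.mul_sum]
    have h1 : ∑ j ∈ Icc 1 ⌊2 / (6 * s)⌋₊, (2 * (j : ℝ) + 1) *
        ∑ y, (P ^ T) x y * (if (j : ℝ) * (4 * s + 2 * s) ≤ ρ x y then 1 else 0) ≤ 1 / 49 := by
      refine le_trans (Finset.sum_le_sum fun j _ => ?_) (spread_series ⌊2 / (6 * s)⌋₊)
      exact mul_le_mul_of_nonneg_left (htail2 j) (by positivity)
    have h2 := mul_le_mul_of_nonneg_left h1 (show 0 ≤ 36 * v by positivity)
    have h3 := mul_le_mul_of_nonneg_left hcon.le (show 0 ≤ 40 * v by positivity)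
    linarith

end Pool.Agent.Lib.MP_7beb49_co.GS
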